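import Mathlib

set_option autoImplicit false

/-!
# Subset sums in a subspace of small dimension
-/

namespace Pool.Agent.QDen

open Module Finset

/-- A subspace of `K ^ ι` of dimension `m` is determined by at most `m` coordinates. -/
theorem exists_coord {K ι : Type*} [Field K] [Fintype ι] : ∀ (m : ℕ) (U : Submodule K (ι → K)),
    finrank K U ≤ m → ∃ I : Finset ι, I.card ≤ m ∧ ∀ v ∈ U, (∀ i ∈ I, v i = 0) → v = 0 := by
  classical
  intro m
  induction m with
  | zero =>
    intro U hU
    have h0 : U = ⊥ := Submodule.finrank_eq_zero.1 (by omega)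
    refine ⟨∅, le_rfl, fun v hv _ => ?_⟩
    rw [h0] at hv
    exact (Submodule.mem_bot K).1 hv
  | succ m ih =>
    intro U hU
    by_cases h0 : U = ⊥
    · refine ⟨∅, by simp, fun v hv _ => ?_⟩
      rw [h0] at hv
      exact (Submodule.mem_bot K).1 hv
    · obtain ⟨u, hu, hu0⟩ := Submodule.exists_mem_ne_zero_of_ne_bot h0
      obtain ⟨i, hi⟩ : ∃ i, u i ≠ 0 := by
        by_contra h
        push Not at h
        exact hu0 (funext h)
      have hlt : U ⊓ LinearMap.ker (LinearMap.proj i : (ι → K) →ₗ[K] K) < U := by
        refine lt_of_le_of_ne inf_le_left fun h => hi ?_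
        rw [← h] at hu
        exact hu.2
      have h1 := Submodule.finrank_lt_finrank_of_lt hlt
      obtain ⟨I, hI, hI2⟩ := ih _ (show finrank K
        (U ⊓ LinearMap.ker (LinearMap.proj i : (ι → K) →ₗ[K] K) : Submodule K (ι → K)) ≤ m by
          omega)
      refine ⟨insert i I, (Finset.card_insert_le _ _).trans (by omega), fun v hv h => ?_⟩
      refine hI2 v ⟨hv, ?_⟩ fun j hj => h j (Finset.mem_insert_of_mem hj)
      exact h i (Finset.mem_insert_self _ _)

/-- A subspace of dimension `m` contains at most `2 ^ m` of the translated subset sums of a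
linearly independent family. -/
theorem cube {K V ι : Type*} [Field K] [AddCommGroup V] [Module K V] [Fintype ι] (w : ι → V)
    (hw : LinearIndependent K w) (c : V) (U : Submodule K V) [FiniteDimensional K U] :
    {T : Finset ι | c + ∑ i ∈ T, w i ∈ U}.ncard ≤ 2 ^ Module.finrank K U := by
  classical
  let L : (ι → K) →ₗ[K] V := Fintype.linearCombination K w
  have hL : ∀ v : ι → K, L v = ∑ i, v i • w i := fun v => Fintype.linearCombination_apply K w v
  have hLinj : Function.Injective L := by
    rw [← LinearMap.ker_eq_bot, LinearMap.ker_eq_bot']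
    intro v hv
    rw [hL] at hv
    exact funext (Fintype.linearIndependent_iff.1 hw v hv)
  let U' : Submodule K (ι → K) := U.comap L
  have hU' : finrank K U' ≤ finrank K U := by
    let g : U' →ₗ[K] U := L.restrict fun v hv => hv
    refine LinearMap.finrank_le_finrank_of_injective (f := g) fun a b hab => ?_
    have h1 : L a = L b := congrArg Subtype.val hab
    exact Subtype.ext (hLinj h1)
  obtain ⟨I, hI, hI2⟩ := exists_coord _ U' hU'
  refine le_trans ?_ (Nat.pow_le_pow_right (by norm_num) hI)
  rw [← Finset.card_powerset, ← Set.ncard_coe_finset]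
  refine Set.ncard_le_ncard_of_injOn (fun T : Finset ι => T ∩ I) ?_ ?_ (Finset.finite_toSet _)
  · intro T _
    rw [Finset.mem_coe, Finset.mem_powerset]
    exact Finset.inter_subset_right
  · intro T hT T' hT' h
    have hT1 : c + ∑ i ∈ T, w i ∈ U := hT
    have hT2 : c + ∑ i ∈ T', w i ∈ U := hT'
    let v : ι → K := fun i => (if i ∈ T then 1 else 0) - (if i ∈ T' then 1 else 0)
    have hv : v ∈ U' := by
      show L v ∈ U
      have h1 : L v = (c + ∑ i ∈ T, w i) - (c + ∑ i ∈ T', w i) := by
        rw [hL, add_sub_add_left_eq_sub]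
        simp only [v, sub_smul, Finset.sum_sub_distrib, ite_smul, one_smul, zero_smul]
        rw [Finset.sum_ite_mem, Finset.sum_ite_mem, Finset.univ_inter, Finset.univ_inter]
      rw [h1]
      exact U.sub_mem hT1 hT2
    have h2 : v = 0 := hI2 v hv fun i hi => by
      have h3 : i ∈ T ↔ i ∈ T' := by
        have h4 := Finset.ext_iff.1 h i
        simp only [Finset.mem_inter, hi, and_true] at h4
        exact h4
      simp only [v, h3, sub_self]
    ext i
    have h5 := congrFun h2 i
    simp only [v, Pi.zero_apply] at h5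
    by_cases h6 : i ∈ T <;> by_cases h7 : i ∈ T' <;> simp_all

end Pool.Agent.QDen
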