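import Pool.Agent.QN.FinN
import Pool.Agent.QR.MainE
import Pool.Agent.BKR.Baker
import Pool.Agent.QDen.Cube

/-!
# The integers `b * ∏ T`, `T` a set of primes of a given finite set, whose logarithm satisfies a
relation of degree `≤ d` with given numbers: there are few of them
-/

namespace Pool.Agent.QDen

open Module Submodule

/-- The numbers `z` satisfy a nonzero polynomial relation of degree `≤ d` with algebraic
coefficients. -/
def Rel (σ : Type) (d : ℕ) (z : σ → ℂ) : Prop :=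
  ∃ P : MvPolynomial σ ℂ, P ≠ 0 ∧ P.totalDegree ≤ d ∧ (∀ m, IsAlgebraic ℚ (P.coeff m)) ∧
    MvPolynomial.eval z P = 0

/-- The field of rational numbers as a subfield of the complex numbers. -/
noncomputable def QF : Subfield ℂ := (algebraMap ℚ ℂ).fieldRange

theorem mem_QF (c : ℂ) : c ∈ QF ↔ ∃ q : ℚ, c = q := by
  constructor
  · rintro ⟨q, rfl⟩
    exact ⟨q, rfl⟩
  · rintro ⟨q, rfl⟩
    exact ⟨q, rfl⟩

theorem logs_indepZ (S : Finset ℕ) (hS : ∀ p ∈ S, p.Prime) (g : S → ℤ)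
    (hg : ∑ i : S, (g i : ℝ) * Real.log ((i : ℕ) : ℝ) = 0) (p : S) : g p = 0 := by
  have hpos : ∀ i : S, (0 : ℝ) < ((i : ℕ) : ℝ) := fun i => by
    exact_mod_cast (hS i i.2).pos
  have hpos' : ∀ h : S → ℕ, (0 : ℝ) < ∏ i : S, ((i : ℕ) : ℝ) ^ h i := fun h =>
    Finset.prod_pos fun i _ => pow_pos (hpos i) _
  have hlog : ∀ h : S → ℕ, Real.log (∏ i : S, ((i : ℕ) : ℝ) ^ h i) =
      ∑ i : S, (h i : ℝ) * Real.log ((i : ℕ) : ℝ) := fun h => by
    rw [Real.log_prod (fun i _ => (pow_pos (hpos i) _).ne')]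
    exact Finset.sum_congr rfl fun i _ => Real.log_pow _ _
  have h1 : Real.log (∏ i : S, ((i : ℕ) : ℝ) ^ (g i).toNat) =
      Real.log (∏ i : S, ((i : ℕ) : ℝ) ^ (-g i).toNat) := by
    rw [hlog, hlog, ← sub_eq_zero, ← Finset.sum_sub_distrib, ← hg]
    refine Finset.sum_congr rfl fun i _ => ?_
    rw [← sub_mul]
    congr 1
    have := Int.toNat_sub_toNat_neg (g i)
    exact_mod_cast this
  have h2 : (∏ i : S, ((i : ℕ) : ℝ) ^ (g i).toNat) = ∏ i : S, ((i : ℕ) : ℝ) ^ (-g i).toNat :=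
    Real.log_injOn_pos (hpos' _) (hpos' _) h1
  have h3 : (∏ i : S, (i : ℕ) ^ (g i).toNat) = ∏ i : S, (i : ℕ) ^ (-g i).toNat := by
    exact_mod_cast h2
  have hf : ∀ h : S → ℕ, (∏ i : S, (i : ℕ) ^ h i).factorization p = h p := fun h => by
    have h0 : ∀ i ∈ (Finset.univ : Finset S), (i : ℕ) ^ h i ≠ 0 := fun i _ =>
      pow_ne_zero _ (hS i i.2).ne_zero
    rw [Nat.factorization_prod h0, Finsupp.finsetSum_apply, Finset.sum_eq_single p]
    · rw [Nat.factorization_pow, (hS p p.2).factorization]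
      simp
    · intro i _ hi
      rw [Nat.factorization_pow, (hS i i.2).factorization]
      have : (i : ℕ) ≠ p := fun h => hi (Subtype.ext h)
      simp [this]
    · intro h
      exact absurd (Finset.mem_univ _) h
  have h4 : (g p).toNat = (-g p).toNat := by
    rw [← hf fun i => (g i).toNat, ← hf fun i => (-g i).toNat, h3]
  omega

theorem logs_indepQ (S : Finset ℕ) (hS : ∀ p ∈ S, p.Prime) (g : S → ℚ)
    (hg : ∑ i : S, (g i : ℝ) * Real.log ((i : ℕ) : ℝ) = 0) (p : S) : g p = 0 := by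
  let D : ℕ := ∏ i : S, (g i).den
  have hD : (D : ℚ) ≠ 0 := by
    exact_mod_cast Finset.prod_ne_zero_iff.2 fun i _ => (g i).den_ne_zero
  have h1 : ∀ i : S, ∃ z : ℤ, (z : ℚ) = D * g i := fun i => by
    obtain ⟨e, he⟩ := Finset.dvd_prod_of_mem (fun i : S => (g i).den) (Finset.mem_univ i)
    refine ⟨e * (g i).num, ?_⟩
    have h2 : ((g i).den : ℚ) * g i = (g i).num := Rat.den_mul_eq_num (g i)
    have h3 : (D : ℚ) = ((g i).den : ℚ) * e := by exact_mod_cast he
    rw [h3, Int.cast_mul, ← h2]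
    push_cast
    ring
  choose z hz using h1
  have h2 := logs_indepZ S hS z (by
    have h3 : ∀ i : S, ((z i : ℤ) : ℝ) = (D : ℝ) * (g i : ℝ) := fun i => by
      have := congrArg (fun q : ℚ => (q : ℝ)) (hz i)
      push_cast at this
      exact this
    simp only [h3, mul_assoc]
    rw [← Finset.mul_sum, hg, mul_zero]) p
  have h3 := hz p
  rw [h2, Int.cast_zero] at h3
  exact (mul_eq_zero.1 h3.symm).resolve_left hD

theorem logs_indep (S : Finset ℕ) (hS : ∀ p ∈ S, p.Prime) :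
    LinearIndependent QF (fun i : S => ((Real.log ((i : ℕ) : ℝ) : ℝ) : ℂ)) := by
  rw [Fintype.linearIndependent_iff]
  intro g hg p
  choose q hq using fun i : S => (mem_QF (g i : ℂ)).1 (g i).2
  have h1 : ∑ i : S, ((q i : ℝ)) * Real.log ((i : ℕ) : ℝ) = 0 := by
    have h2 : ((∑ i : S, ((q i : ℝ)) * Real.log ((i : ℕ) : ℝ) : ℝ) : ℂ) = 0 := by
      rw [← hg]
      push_cast
      refine Finset.sum_congr rfl fun i _ => ?_
      rw [Subfield.smul_def, hq i, smul_eq_mul]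
    exact_mod_cast h2
  have h3 := logs_indepQ S hS q h1 p
  refine Subtype.ext ?_
  rw [hq p, h3]
  simp

/-- At most `binom(R + d - 2, d - 1) 2 ^ binom(k + d, d)` subsets `T` of `S` (`R = |S| + 1`) have
the property that `log (b ∏ T)` and the numbers `x` satisfy a relation of degree `≤ d`. -/
theorem hered {k d : ℕ} (hk : 0 < k) (hd : 0 < d) (x : Fin k → ℂ) (S : Finset ℕ)
    (hS : ∀ p ∈ S, p.Prime) (hx : ¬ Rel (Fin k) (d ^ (S.card + 2)) x) (b : ℕ) (hb : b ≠ 0) :
    {T : Finset ℕ | T ⊆ S ∧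
      Rel (Fin (k + 1)) d (Fin.cons ((Real.log ((b * ∏ p ∈ T, p : ℕ) : ℝ) : ℝ) : ℂ) x)}.ncard ≤
      (S.card + 1 + d - 2).choose (d - 1) * 2 ^ ((k + d).choose d) := by
  classical
  let t : Fin (S.card + 1) → ℂ :=
    Fin.cons ((Real.log (b : ℝ) : ℝ) : ℂ)
      (fun i => ((Real.log ((S.equivFin.symm i : ℕ) : ℝ) : ℝ) : ℂ))
  have hexp : ∀ n : ℕ, n ≠ 0 → IsAlgebraic ℚ (Complex.exp ((Real.log (n : ℝ) : ℝ) : ℂ)) := by
    intro n hn
    rw [← Complex.ofReal_exp, Real.exp_log (by exact_mod_cast Nat.pos_of_ne_zero hn)]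
    exact_mod_cast isAlgebraic_natCast (R := ℚ) (A := ℂ) n
  have ht : ∀ i, IsAlgebraic ℚ (Complex.exp (t i)) := by
    intro i
    refine Fin.cases ?_ (fun i => ?_) i
    · exact hexp b hb
    · exact hexp _ (hS _ (S.equivFin.symm i).2).ne_zero
  obtain ⟨n, U, hn, _, hU, hUeq⟩ := Pool.Agent.QN.main QF (fun c hc => by
      obtain ⟨q, rfl⟩ := (mem_QF c).1 hc
      exact isAlgebraic_ratCast ℚ q) hk hd (Nat.succ_pos _) x
    (fun P h1 h2 h3 => by
      by_contra h0
      exact hx ⟨P, h0, h2, h1, h3⟩) t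
    (Pool.Agent.QR.free_logF (fun _ _ t ht he b b0 hb hb0 h =>
      Pool.Agent.BKR.baker t ht he b b0 hb hb0 h) QF mem_QF ht)
  let w : S → ℂ := fun i => ((Real.log ((i : ℕ) : ℝ) : ℝ) : ℂ)
  have hw : LinearIndependent QF w := logs_indep S hS
  let c : ℂ := ((Real.log (b : ℝ) : ℝ) : ℂ)
  have hval : ∀ T : Finset S, (((Real.log ((b * ∏ p ∈ T.map (Function.Embedding.subtype _),
      p : ℕ) : ℝ) : ℝ)) : ℂ) = c + ∑ i ∈ T, w i := by
    intro T
    have h0 : ∀ i ∈ T, ((i : ℕ) : ℝ) ≠ 0 := fun i _ => by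
      exact_mod_cast (hS i i.2).ne_zero
    rw [Finset.prod_map]
    simp only [Function.Embedding.coe_subtype]
    push_cast
    rw [Real.log_mul (by exact_mod_cast hb) (by
      exact Finset.prod_ne_zero_iff.2 h0), Real.log_prod h0, Complex.ofReal_add,
      Complex.ofReal_sum]
  have hspan : ∀ T : Finset S, c + ∑ i ∈ T, w i ∈ span QF (Set.range t) := by
    intro T
    refine add_mem (subset_span ⟨0, rfl⟩) (sum_mem fun i _ => subset_span ?_)
    refine ⟨(S.equivFin i).succ, ?_⟩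
    simp [t, w]
  have hcov : {T : Finset ℕ | T ⊆ S ∧
      Rel (Fin (k + 1)) d (Fin.cons ((Real.log ((b * ∏ p ∈ T, p : ℕ) : ℝ) : ℝ) : ℂ) x)} ⊆
      ⋃ i ∈ (Finset.univ : Finset (Fin n)), (fun T : Finset S =>
        T.map (Function.Embedding.subtype _)) '' {T : Finset S | c + ∑ i ∈ T, w i ∈ U i} := by
    rintro T ⟨hT, hrel⟩
    obtain ⟨T', rfl⟩ : ∃ T' : Finset S, T'.map (Function.Embedding.subtype _) = T :=
      ⟨T.subtype (· ∈ S), by
        rw [Finset.subtype_map]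
        exact Finset.filter_true_of_mem hT⟩
    rw [hval] at hrel
    have h1 : c + ∑ i ∈ T', w i ∈ ⋃ i, (U i : Set ℂ) := by
      rw [← hUeq]
      obtain ⟨P, h1, h2, h3, h4⟩ := hrel
      exact ⟨hspan T', P, h1, h2, h3, h4⟩
    obtain ⟨i, hi⟩ := Set.mem_iUnion.1 h1
    simp only [Finset.mem_univ, Set.iUnion_true, Set.mem_iUnion]
    exact ⟨i, T', hi, rfl⟩
  have hUi : ∀ i, {T : Finset S | c + ∑ i ∈ T, w i ∈ U i}.ncard ≤ 2 ^ ((k + d).choose d) := by
    intro i
    have : FiniteDimensional QF (span QF (Set.range t)) :=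
      FiniteDimensional.span_of_finite QF (Set.finite_range t)
    have : FiniteDimensional QF (U i) := Submodule.finiteDimensional_of_le (hU i).1
    exact (cube w hw c (U i)).trans (Nat.pow_le_pow_right (by norm_num) (hU i).2.le)
  refine (Set.ncard_le_ncard hcov (Set.toFinite _)).trans ?_
  refine (Finset.set_ncard_biUnion_le _ _).trans ?_
  refine (Finset.sum_le_card_nsmul _ _ (2 ^ ((k + d).choose d)) fun i _ => ?_).trans ?_
  · exact (Set.ncard_image_le (Set.toFinite _)).trans (hUi i)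
  · rw [Finset.card_univ, Fintype.card_fin, smul_eq_mul]
    exact Nat.mul_le_mul_right _ (by simpa using hn)

end Pool.Agent.QDen
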