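import Pool.Agent.QDen.OneT

set_option autoImplicit false

/-!
# The density step in general form

`density_power`: a set `B` of integers which contains few of the products `b ∏ T`, `T` a `d`-subset
of a finite set of primes, has at most `C X (log log X) ^ m / log X` elements `≤ X`.
`density_grid`: the same if `B` contains no full grid `b ∏ v i`, `v i ∈ V i`, `V i` disjoint sets of
`t` primes.
-/

namespace Pool.Agent.QDen

open Filter

theorem density_power (d : ℕ) (hd : 0 < d) (C c : ℝ) (hC : 0 < C) (hc : 0 < c) (hc1 : c ≤ 1) :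
    ∃ (C' : ℝ) (m X0 : ℕ), 0 < C' ∧ ∀ B : Set ℕ,
      (∀ b : ℕ, b ≠ 0 → ∀ S : Finset ℕ, (∀ p ∈ S, p.Prime) → S.Nonempty →
        ({T : Finset ℕ | T ⊆ S ∧ T.card = d ∧ b * ∏ p ∈ T, p ∈ B}.ncard : ℝ) ≤
          C * (S.card : ℝ) ^ ((d : ℝ) - c)) →
      ∀ X : ℕ, X0 ≤ X → ({a : ℕ | (1 ≤ a ∧ a ≤ X) ∧ a ∈ B}.ncard : ℝ) ≤
        X * (C' * Real.log (Real.log X) ^ m * Real.exp (-Real.log (Real.log X))) := by
  classical
  obtain ⟨CR, hCR, hfew⟩ := gen_few
  obtain ⟨C1, hC1, hSb⟩ := S_bounds 1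
  set A : ℝ := 2 / c with hA
  have hA2 : 2 ≤ A := by
    rw [hA, le_div_iff₀ hc]
    linarith
  have hAc : A * c = 2 := by
    rw [hA]
    field_simp
  obtain ⟨X0, hX0⟩ := eventually_atTop.1 (hSb.and
    (tendsto_loglog.eventually (eventually_ge_atTop (A + 1))))
  set C2 : ℝ := C * (d : ℝ) ^ ((d : ℝ) - c) * 4 ^ d with hC2
  set C3 : ℝ := CR * Real.exp C1 * Real.exp 1 with hC3
  have hdpos : (0 : ℝ) < d := by exact_mod_cast hd
  have hC20 : 0 < C2 := by positivity
  have hC30 : 0 < C3 := by positivity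
  refine ⟨C2 + C3, d + 2, X0, by positivity, fun B hB X hX => ?_⟩
  obtain ⟨a1, a4⟩ := hX0 X hX
  obtain ⟨hy1, hX4, hS⟩ := a1 _ rfl
  set y : ℝ := Real.log (Real.log X) with hy
  have hypos : 0 < y := by linarith
  have hXpos : (0 : ℝ) < X := by linarith
  set r : ℕ := ⌈Real.exp (A * y)⌉₊ with hr
  have hrle : Real.exp (A * y) ≤ r := Nat.le_ceil _
  have hAy : 2 ≤ A * y := by nlinarith
  have hr3 : (3 : ℝ) ≤ r := by
    have := Real.add_one_le_exp (A * y)
    linarith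
  have hr3' : 3 ≤ r := by exact_mod_cast hr3
  have hrpos : 0 < r := by omega
  have hrr : (0 : ℝ) < r := by linarith
  have hrub : (r : ℝ) ≤ Real.exp (2 * y ^ (1 + 1)) := by
    have h12 : (r : ℝ) < Real.exp (A * y) + 1 := Nat.ceil_lt_add_one (Real.exp_pos _).le
    have h13 : Real.exp (A * y) + 1 ≤ Real.exp (A * y + 1) := by
      rw [Real.exp_add]
      have h14 : 1 ≤ Real.exp (A * y) := Real.one_le_exp (by linarith)
      have h15 := Real.add_one_le_exp (1 : ℝ)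
      nlinarith
    refine h12.le.trans (h13.trans (Real.exp_le_exp.2 ?_))
    have h16 : A + 1 ≤ y := a4
    have h17 : A * y ≤ (y - 1) * y := mul_le_mul_of_nonneg_right (by linarith) hypos.le
    have h18 : y ^ (1 + 1) = y * y := by ring
    rw [h18]
    nlinarith
  obtain ⟨hS1, hS2, hS3, hqX⟩ := hS r hr3' hrub
  set J : ℕ := Nat.sqrt X / r with hJ
  set S : ℝ := ∑ i ∈ Finset.range (J * r), 1 / (q (r + i) : ℝ) with hSdef
  have hX3 : 3 ≤ X := by
    have : (3 : ℝ) ≤ X := by linarith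
    exact_mod_cast this
  have hS0 : 0 ≤ S := by linarith
  have hym : y ^ d ≤ y ^ (d + 2) := pow_le_pow_right₀ hy1 (by omega)
  set F : Set ℕ := {a : ℕ | wG (fun i => q (r + i)) (J * r) a < d} with hF
  have hpart1 : ({a : ℕ | (1 ≤ a ∧ a ≤ X) ∧ a ∈ F}.ncard : ℝ) ≤
      X * (C3 * y ^ (d + 2) * Real.exp (-y)) := by
    have h := hfew (fun i => q (r + i)) (fun i => q_prime _)
      (fun i j hij => q_strictMono (by omega)) (J * r) X hX3 hqX d (1 / y) (by positivity)
      (by rw [div_le_one hypos]; exact hy1)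
    refine h.trans ((second_term (X := X) (u := d) (m := 2) hCR.le hXpos.le
      (show 0 < 1 / y by positivity) (by rw [div_le_one hypos]; exact hy1) hy1 hC1
      (S := S) (y := y) (by push_cast at hS1 ⊢; linarith)).trans ?_)
    refine mul_le_mul_of_nonneg_left (le_of_eq ?_) hXpos.le
    have h1 : ((1 / y) ^ d)⁻¹ = y ^ d := by
      rw [one_div, inv_pow, inv_inv]
    have h2 : (1 - 1 / y) * y = y - 1 := by field_simp
    have h3 : Real.exp (-(y - 1)) = Real.exp 1 * Real.exp (-y) := by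
      rw [← Real.exp_add]
      ring_nf
    rw [h1, h2, h3, hC3]
    ring
  set K : ℝ := C * ((d * r : ℕ) : ℝ) ^ ((d : ℝ) - c) with hK
  have hK0 : 0 ≤ K := by positivity
  have hdc : 0 ≤ (d : ℝ) - c := by
    have : (1 : ℝ) ≤ d := by exact_mod_cast hd
    linarith
  have hpart2 : ({a : ℕ | (1 ≤ a ∧ a ≤ X) ∧ a ∉ F ∧ a ∈ B}.ncard : ℝ) ≤
      X * (C2 * y ^ (d + 2) * Real.exp (-y)) := by
    have h := gen_many (p := fun i => q (r + i)) (fun i => q_prime _)
      (fun i j hij => q_strictMono (by omega)) d r J hrpos K hK0 B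
      (fun b hb T hT hTc => by
        rcases T.eq_empty_or_nonempty with rfl | hTne
        · have : {T' : Finset ℕ | T' ⊆ ∅ ∧ T'.card = d ∧ b * ∏ s ∈ T', s ∈ B} = ∅ := by
            rw [Set.eq_empty_iff_forall_notMem]
            rintro T' ⟨h1, h2, -⟩
            rw [Finset.subset_empty.1 h1, Finset.card_empty] at h2
            omega
          rw [this]
          simpa using hK0
        · refine (hB b hb T hT hTne).trans ?_
          have h5 : (T.card : ℝ) ≤ ((d * r : ℕ) : ℝ) := by exact_mod_cast hTc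
          exact mul_le_mul_of_nonneg_left (Real.rpow_le_rpow (Nat.cast_nonneg _) h5 hdc) hC.le)
      X
    refine h.trans ?_
    have hq0 : 1 / (q (r + 0) : ℝ) ≤ S / r := by
      have h12 : (r : ℝ) ≤ q (r + 0) := by
        have := q_strictMono.le_apply (x := r)
        exact_mod_cast this
      calc 1 / (q (r + 0) : ℝ) ≤ 1 / r := one_div_le_one_div_of_le hrr h12
        _ ≤ S / r := div_le_div_of_nonneg_right hS3 hrr.le
    have h13 : (1 / (q (r + 0) : ℝ) + S / r) ^ d ≤ (4 * y / r) ^ d := by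
      refine pow_le_pow_left₀ (by positivity) ?_ d
      calc 1 / (q (r + 0) : ℝ) + S / r ≤ S / r + S / r := by linarith
        _ = 2 * S / r := by ring
        _ ≤ 4 * y / r := div_le_div_of_nonneg_right (by linarith) hrr.le
    have h14 : K * (4 * y / r) ^ d = C2 * y ^ d * (r : ℝ) ^ (-c) := by
      rw [hK, hC2, Nat.cast_mul, Real.mul_rpow (Nat.cast_nonneg _) hrr.le,
        show (d : ℝ) - c = (d : ℝ) + (-c) by ring, Real.rpow_add hrr, Real.rpow_natCast, div_pow,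
        mul_pow]
      have : (r : ℝ) ^ d ≠ 0 := by positivity
      field_simp
    have h15 : (r : ℝ) ^ (-c) ≤ Real.exp (-y) := by
      rw [Real.rpow_neg hrr.le, Real.exp_neg]
      refine inv_anti₀ (Real.exp_pos _) ?_
      calc Real.exp y ≤ Real.exp (2 * y) := Real.exp_le_exp.2 (by linarith)
        _ = Real.exp (A * y) ^ c := by
            rw [← Real.exp_mul]
            congr 1
            rw [← hAc]
            ring
        _ ≤ (r : ℝ) ^ c := Real.rpow_le_rpow (Real.exp_pos _).le hrle hc.le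
    calc K * X * (1 / (q (r + 0) : ℝ) + S / r) ^ d ≤ K * X * (4 * y / r) ^ d :=
          mul_le_mul_of_nonneg_left h13 (by positivity)
      _ = X * (K * (4 * y / r) ^ d) := by ring
      _ ≤ X * (C2 * y ^ (d + 2) * Real.exp (-y)) := by
          rw [h14]
          refine mul_le_mul_of_nonneg_left ?_ hXpos.le
          gcongr
  have h4 : {a : ℕ | (1 ≤ a ∧ a ≤ X) ∧ a ∈ B} ⊆
      {a : ℕ | (1 ≤ a ∧ a ≤ X) ∧ a ∈ F} ∪ {a : ℕ | (1 ≤ a ∧ a ≤ X) ∧ a ∉ F ∧ a ∈ B} := by
    rintro a ⟨ha, hr⟩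
    by_cases hF : a ∈ F
    · exact Or.inl ⟨ha, hF⟩
    · exact Or.inr ⟨ha, hF, hr⟩
  have hfin1 : {a : ℕ | (1 ≤ a ∧ a ≤ X) ∧ a ∈ F}.Finite :=
    (Set.finite_Icc 1 X).subset fun a ha => ha.1
  have hfin2 : {a : ℕ | (1 ≤ a ∧ a ≤ X) ∧ a ∉ F ∧ a ∈ B}.Finite :=
    (Set.finite_Icc 1 X).subset fun a ha => ha.1
  have h5 := (Set.ncard_le_ncard h4 (hfin1.union hfin2)).trans (Set.ncard_union_le _ _)
  have h6 : ({a : ℕ | (1 ≤ a ∧ a ≤ X) ∧ a ∈ B}.ncard : ℝ) ≤
      ({a : ℕ | (1 ≤ a ∧ a ≤ X) ∧ a ∈ F}.ncard : ℝ) +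
        ({a : ℕ | (1 ≤ a ∧ a ≤ X) ∧ a ∉ F ∧ a ∈ B}.ncard : ℝ) := by
    exact_mod_cast h5
  calc _ ≤ X * (C3 * y ^ (d + 2) * Real.exp (-y)) + X * (C2 * y ^ (d + 2) * Real.exp (-y)) := by
        linarith
    _ = _ := by ring

/-- if no grid of primes is contained in `B`, there are few products in `B` -/
theorem grid_power (d t : ℕ) (ht : 1 ≤ t) : ∃ C c : ℝ, 0 < C ∧ 0 < c ∧ c ≤ 1 ∧ ∀ B : Set ℕ,
    (∀ b : ℕ, b ≠ 0 → ∀ V : Fin d → Finset ℕ, (∀ i, ∀ p ∈ V i, p.Prime) →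
      (∀ i, (V i).card = t) → (∀ i j, i ≠ j → Disjoint (V i) (V j)) →
      ∃ v : Fin d → ℕ, (∀ i, v i ∈ V i) ∧ b * ∏ i, v i ∉ B) →
    ∀ b : ℕ, b ≠ 0 → ∀ S : Finset ℕ, (∀ p ∈ S, p.Prime) → S.Nonempty →
      ({T : Finset ℕ | T ⊆ S ∧ T.card = d ∧ b * ∏ p ∈ T, p ∈ B}.ncard : ℝ) ≤
        C * (S.card : ℝ) ^ ((d : ℝ) - c) := by
  classical
  obtain ⟨C, c, hC, hc, hc1, h⟩ := box_ord ht d
  refine ⟨C, c, hC, hc, hc1, fun B hB b hb S hS hSne => ?_⟩
  set H : Finset (Finset ℕ) := S.powerset.filter fun T => T.card = d ∧ b * ∏ p ∈ T, p ∈ B with hH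
  have e0 : {T : Finset ℕ | T ⊆ S ∧ T.card = d ∧ b * ∏ p ∈ T, p ∈ B} = ↑H := by
    ext T
    simp [hH]
  rw [e0, Set.ncard_coe_finset]
  by_contra hcon
  push Not at hcon
  have hH' : ∀ T ∈ H, T ⊆ S ∧ T.card = d ∧ b * ∏ p ∈ T, p ∈ B := fun T hT => by
    rw [hH, Finset.mem_filter, Finset.mem_powerset] at hT
    exact hT
  set e : Finset ℕ → (Fin d → ℕ) := fun T =>
    if hT : T.card = d then fun i => T.orderEmbOfFin hT i else fun _ => 0 with he
  have himg : ∀ T ∈ H, Finset.univ.image (e T) = T := by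
    intro T hT
    have hTc := (hH' T hT).2.1
    rw [he]
    simp only [hTc, dif_pos]
    exact T.image_orderEmbOfFin_univ hTc
  have hinje : ∀ T ∈ H, Function.Injective (e T) := by
    intro T hT
    have hTc := (hH' T hT).2.1
    rw [he]
    simp only [hTc, dif_pos]
    exact (T.orderEmbOfFin hTc).injective
  have hinj : Set.InjOn e H := by
    intro T hT T' hT' h
    rw [← himg T hT, ← himg T' hT', h]
  obtain ⟨V, hV, hVH⟩ := h S hSne (H.image e) (fun f hf i => by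
    obtain ⟨T, hT, rfl⟩ := Finset.mem_image.1 hf
    have h1 : e T i ∈ Finset.univ.image (e T) := Finset.mem_image_of_mem _ (Finset.mem_univ i)
    rw [himg T hT] at h1
    exact (hH' T hT).1 h1) (by
    rw [Finset.card_image_of_injOn hinj]
    exact hcon)
  have hVne : ∀ i, (V i).Nonempty := fun i => by
    rw [← Finset.card_pos, (hV i).2]
    exact ht
  choose v0 hv0 using hVne
  obtain ⟨v, hv, hvB⟩ := hB b hb V (fun i p hp => hS p ((hV i).1 hp)) (fun i => (hV i).2) (by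
    intro i j hij
    rw [Finset.disjoint_left]
    intro p hpi hpj
    have h1 : (fun l => if l = i then p else if l = j then p else v0 l) ∈ Fintype.piFinset V := by
      rw [Fintype.mem_piFinset]
      intro l
      by_cases hli : l = i
      · simp only [hli, if_true]
        exact hpi
      · by_cases hlj : l = j
        · simp only [hlj, if_neg (Ne.symm hij), if_true]
          exact hpj
        · simp only [hli, hlj, if_false]
          exact hv0 l
    obtain ⟨T, hT, hTe⟩ := Finset.mem_image.1 (hVH h1)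
    have h2 : e T i = e T j := by
      rw [hTe]
      simp [Ne.symm hij]
    exact hij (hinje T hT h2))
  apply hvB
  have h1 : v ∈ Fintype.piFinset V := Fintype.mem_piFinset.2 hv
  obtain ⟨T, hT, hTe⟩ := Finset.mem_image.1 (hVH h1)
  have h2 : ∏ i, v i = ∏ p ∈ T, p := by
    rw [← himg T hT, Finset.prod_image fun i _ j _ hij => hinje T hT hij]
    exact Finset.prod_congr rfl fun i _ => by rw [hTe]
  rw [h2]
  exact (hH' T hT).2.2

theorem density_grid (d t : ℕ) (hd : 0 < d) (ht : 1 ≤ t) : ∃ (C' : ℝ) (m X0 : ℕ), 0 < C' ∧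
    ∀ B : Set ℕ,
    (∀ b : ℕ, b ≠ 0 → ∀ V : Fin d → Finset ℕ, (∀ i, ∀ p ∈ V i, p.Prime) →
      (∀ i, (V i).card = t) → (∀ i j, i ≠ j → Disjoint (V i) (V j)) →
      ∃ v : Fin d → ℕ, (∀ i, v i ∈ V i) ∧ b * ∏ i, v i ∉ B) →
    ∀ X : ℕ, X0 ≤ X → ({a : ℕ | (1 ≤ a ∧ a ≤ X) ∧ a ∈ B}.ncard : ℝ) ≤
      X * (C' * Real.log (Real.log X) ^ m * Real.exp (-Real.log (Real.log X))) := by
  obtain ⟨C, c, hC, hc, hc1, h⟩ := grid_power d t ht
  obtain ⟨C', m, X0, hC', h'⟩ := density_power d hd C c hC hc hc1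
  exact ⟨C', m, X0, hC', fun B hB => h' B (h B hB)⟩

end Pool.Agent.QDen
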