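import Mathlib

/-! # Erdős' box theorem for `d`-uniform hypergraphs -/

set_option autoImplicit false

namespace Pool.Agent.QDen

open Finset

/-- `n ^ t ≤ (2 t) ^ t (1 + binom n t)` -/
theorem pow_le_one_add_choose {t : ℕ} (ht : 1 ≤ t) (n : ℕ) :
    (n : ℝ) ^ t ≤ (2 * t : ℝ) ^ t * (1 + (n.choose t : ℝ)) := by
  have ht' : (0 : ℝ) ≤ t := Nat.cast_nonneg t
  have hc : (0 : ℝ) ≤ (n.choose t : ℝ) := Nat.cast_nonneg _
  rcases le_or_gt n (2 * t) with h | h
  · have h1 : (n : ℝ) ^ t ≤ (2 * t : ℝ) ^ t := by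
      apply pow_le_pow_left₀ (Nat.cast_nonneg n)
      exact_mod_cast h
    have h2 : 0 ≤ (2 * t : ℝ) ^ t := by positivity
    nlinarith [mul_nonneg h2 hc]
  · have h1 : (((n + 1 - t : ℕ) : ℝ) ^ t) / (t.factorial : ℝ) ≤ (n.choose t : ℝ) :=
      Nat.pow_le_choose t n
    have h3 : (n : ℝ) ≤ 2 * ((n + 1 - t : ℕ) : ℝ) := by
      have : n ≤ 2 * (n + 1 - t) := by omega
      exact_mod_cast this
    have hf : (0 : ℝ) < (t.factorial : ℝ) := by exact_mod_cast t.factorial_pos
    rw [div_le_iff₀ hf] at h1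
    have h4 : (t.factorial : ℝ) ≤ (t : ℝ) ^ t := by exact_mod_cast Nat.factorial_le_pow t
    calc (n : ℝ) ^ t ≤ (2 * ((n + 1 - t : ℕ) : ℝ)) ^ t :=
          pow_le_pow_left₀ (Nat.cast_nonneg n) h3 t
      _ = 2 ^ t * ((n + 1 - t : ℕ) : ℝ) ^ t := mul_pow _ _ _
      _ ≤ 2 ^ t * ((n.choose t : ℝ) * (t.factorial : ℝ)) := by gcongr
      _ ≤ 2 ^ t * ((n.choose t : ℝ) * (t : ℝ) ^ t) := by gcongr
      _ = (2 * t : ℝ) ^ t * (n.choose t : ℝ) := by rw [mul_pow]; ring
      _ ≤ (2 * t : ℝ) ^ t * (1 + (n.choose t : ℝ)) := by gcongr; linarith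

/-- the box theorem for ordered tuples -/
theorem box_ord {t : ℕ} (ht : 1 ≤ t) (d : ℕ) : ∃ C c : ℝ, 0 < C ∧ 0 < c ∧ c ≤ 1 ∧
    ∀ S : Finset ℕ, S.Nonempty → ∀ H : Finset (Fin d → ℕ), (∀ f ∈ H, ∀ i, f i ∈ S) →
      C * (S.card : ℝ) ^ ((d : ℝ) - c) < H.card →
      ∃ V : Fin d → Finset ℕ, (∀ i, V i ⊆ S ∧ (V i).card = t) ∧ Fintype.piFinset V ⊆ H := by
  classical
  induction d with
  | zero =>
    refine ⟨1, 1, one_pos, one_pos, le_refl _, fun S hS H hH hlt => ?_⟩
    have hpos : (0 : ℝ) < H.card := lt_of_le_of_lt (by positivity) hlt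
    have hne : H.Nonempty := by
      rw [← Finset.card_pos]; exact_mod_cast hpos
    obtain ⟨f, hf⟩ := hne
    refine ⟨fun i => i.elim0, fun i => i.elim0, fun g _ => ?_⟩
    rw [Subsingleton.elim g f]
    exact hf
  | succ d ih =>
    obtain ⟨C, c, hC, hc, hc1, ih⟩ := ih
    have ht' : (1 : ℝ) ≤ t := by exact_mod_cast ht
    have ht0 : (0 : ℝ) < t := by linarith
    refine ⟨2 * t * (1 + C), c / t, by positivity, by positivity, ?_, fun S hS H hH hlt => ?_⟩
    · rw [div_le_one ht0]; linarith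
    by_contra hno
    apply absurd hlt
    rw [not_lt]
    have hR1 : (1 : ℝ) ≤ S.card := by exact_mod_cast Finset.card_pos.2 hS
    have hR0 : (0 : ℝ) < S.card := by linarith
    -- the fibres
    set A : Finset (Fin d → ℕ) := Fintype.piFinset fun _ => S with hA
    set N : (Fin d → ℕ) → Finset ℕ := fun v => S.filter fun x => Fin.cons x v ∈ H with hN
    have hAc : (A.card : ℝ) = (S.card : ℝ) ^ d := by
      rw [hA, Fintype.card_piFinset]; simp
    have hHc : H.card = ∑ v ∈ A, (N v).card := by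
      have h1 : ∀ v ∈ A, (N v).card = (H.filter fun f => Fin.tail f = v).card := by
        intro v hv
        apply Finset.card_bij (fun (x : ℕ) _ => (Fin.cons x v : Fin (d + 1) → ℕ))
        · intro x hx
          rw [hN, Finset.mem_filter] at hx
          rw [Finset.mem_filter]
          exact ⟨hx.2, Fin.tail_cons _ _⟩
        · intro x _ y _ h
          have := congrFun h 0
          simpa using this
        · intro f hf
          rw [Finset.mem_filter] at hf
          refine ⟨f 0, ?_, ?_⟩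
          · rw [hN, Finset.mem_filter, ← hf.2, Fin.cons_self_tail]
            exact ⟨hH f hf.1 0, hf.1⟩
          · rw [← hf.2, Fin.cons_self_tail]
      rw [Finset.sum_congr rfl h1]
      apply Finset.card_eq_sum_card_fiberwise
      intro f hf
      rw [hA, Finset.mem_coe, Fintype.mem_piFinset]
      exact fun i => hH f hf i.succ
    -- double counting
    have hdc : ∑ v ∈ A, ((N v).card.choose t) =
        ∑ W ∈ S.powersetCard t, (A.filter fun v => W ⊆ N v).card := by
      have h1 : ∀ v ∈ A, (N v).card.choose t = ((S.powersetCard t).filter fun W => W ⊆ N v).card := by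
        intro v _
        rw [← Finset.card_powersetCard]
        congr 1
        ext W
        rw [Finset.mem_powersetCard, Finset.mem_filter, Finset.mem_powersetCard]
        exact ⟨fun h => ⟨⟨h.1.trans (Finset.filter_subset _ _), h.2⟩, h.1⟩,
          fun h => ⟨h.2, h.1.2⟩⟩
      rw [Finset.sum_congr rfl h1]
      simp only [Finset.card_filter]
      exact Finset.sum_comm
    have hW : ∀ W ∈ S.powersetCard t,
        ((A.filter fun v => W ⊆ N v).card : ℝ) ≤ C * (S.card : ℝ) ^ ((d : ℝ) - c) := by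
      intro W hW
      by_contra hlt2
      rw [not_le] at hlt2
      obtain ⟨V, hV, hVH⟩ := ih S hS (A.filter fun v => W ⊆ N v) (fun f hf i => by
        rw [Finset.mem_filter, hA, Fintype.mem_piFinset] at hf
        exact hf.1 i) hlt2
      rw [Finset.mem_powersetCard] at hW
      apply hno
      refine ⟨Fin.cons W V, ?_, ?_⟩
      · intro i
        refine Fin.cases ?_ (fun j => ?_) i
        · exact hW
        · exact hV j
      · intro f hf
        rw [Fintype.mem_piFinset] at hf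
        have h1 : Fin.tail f ∈ A.filter fun v => W ⊆ N v := by
          apply hVH
          rw [Fintype.mem_piFinset]
          intro j
          exact hf j.succ
        rw [Finset.mem_filter] at h1
        have h2 := h1.2 (hf 0)
        rw [hN, Finset.mem_filter, Fin.cons_self_tail] at h2
        exact h2.2
    have hch : (∑ v ∈ A, ((N v).card.choose t : ℝ)) ≤
        (S.card : ℝ) ^ t * (C * (S.card : ℝ) ^ ((d : ℝ) - c)) := by
      have h1 : (∑ v ∈ A, ((N v).card.choose t : ℝ)) =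
          ∑ W ∈ S.powersetCard t, ((A.filter fun v => W ⊆ N v).card : ℝ) := by
        exact_mod_cast hdc
      rw [h1]
      calc ∑ W ∈ S.powersetCard t, ((A.filter fun v => W ⊆ N v).card : ℝ)
          ≤ ∑ W ∈ S.powersetCard t, C * (S.card : ℝ) ^ ((d : ℝ) - c) := Finset.sum_le_sum hW
        _ = (S.card.choose t : ℝ) * (C * (S.card : ℝ) ^ ((d : ℝ) - c)) := by
          rw [Finset.sum_const, Finset.card_powersetCard, nsmul_eq_mul]
        _ ≤ _ := by
          gcongr
          exact_mod_cast Nat.choose_le_pow _ _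
    -- power mean
    have hpm : (H.card : ℝ) ^ t ≤ ((S.card : ℝ) ^ d) ^ (t - 1) * ∑ v ∈ A, ((N v).card : ℝ) ^ t := by
      obtain ⟨n, rfl⟩ : ∃ n, t = n + 1 := ⟨t - 1, by omega⟩
      have h1 := pow_sum_div_card_le_sum_pow (s := A) (f := fun v => ((N v).card : ℝ))
        (fun _ _ => Nat.cast_nonneg _) n
      have h2 : (∑ v ∈ A, ((N v).card : ℝ)) = H.card := by rw [hHc]; push_cast; rfl
      rw [h2, hAc, div_le_iff₀ (by positivity)] at h1
      rw [Nat.add_sub_cancel]
      linarith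
    have hsum : ∑ v ∈ A, ((N v).card : ℝ) ^ t ≤
        (2 * t : ℝ) ^ t * ((S.card : ℝ) ^ d +
          (S.card : ℝ) ^ t * (C * (S.card : ℝ) ^ ((d : ℝ) - c))) := by
      calc ∑ v ∈ A, ((N v).card : ℝ) ^ t
          ≤ ∑ v ∈ A, (2 * t : ℝ) ^ t * (1 + ((N v).card.choose t : ℝ)) :=
            Finset.sum_le_sum fun v _ => pow_le_one_add_choose ht _
        _ = (2 * t : ℝ) ^ t * ((S.card : ℝ) ^ d + ∑ v ∈ A, ((N v).card.choose t : ℝ)) := by
            rw [← Finset.mul_sum, Finset.sum_add_distrib, Finset.sum_const, nsmul_eq_mul, mul_one,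
              hAc]
        _ ≤ _ := by gcongr
    -- conclusion
    have hfin : (H.card : ℝ) ^ t ≤
        (2 * t * (1 + C) * (S.card : ℝ) ^ (((d + 1 : ℕ) : ℝ) - c / t)) ^ t := by
      have e1 : ((S.card : ℝ) ^ (((d + 1 : ℕ) : ℝ) - c / t)) ^ t =
          (S.card : ℝ) ^ ((d : ℝ) * t + t - c) := by
        rw [← Real.rpow_natCast, ← Real.rpow_mul hR0.le]
        congr 1
        push_cast
        field_simp
      have e2 : ((S.card : ℝ) ^ d) ^ (t - 1) * (S.card : ℝ) ^ d = (S.card : ℝ) ^ ((d : ℝ) * t) := by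
        rw [← pow_succ, Nat.sub_add_cancel ht, ← Real.rpow_natCast, ← Real.rpow_natCast,
          ← Real.rpow_mul hR0.le]
      have e3 : (S.card : ℝ) ^ ((d : ℝ) * t) ≤ (S.card : ℝ) ^ ((d : ℝ) * t + t - c) :=
        Real.rpow_le_rpow_of_exponent_le hR1 (by linarith)
      have e4 : ((S.card : ℝ) ^ d) ^ (t - 1) * ((S.card : ℝ) ^ t *
          (C * (S.card : ℝ) ^ ((d : ℝ) - c))) = C * (S.card : ℝ) ^ ((d : ℝ) * t + t - c) := by
        have : (S.card : ℝ) ^ ((d : ℝ) - c) = (S.card : ℝ) ^ d * (S.card : ℝ) ^ (- c) := by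
          rw [sub_eq_add_neg, Real.rpow_add hR0, Real.rpow_natCast]
        rw [this]
        have h5 : (S.card : ℝ) ^ ((d : ℝ) * t + t - c) =
            (S.card : ℝ) ^ ((d : ℝ) * t) * (S.card : ℝ) ^ t * (S.card : ℝ) ^ (-c) := by
          rw [sub_eq_add_neg, Real.rpow_add hR0, Real.rpow_add hR0, Real.rpow_natCast _ t]
        rw [h5, ← e2]
        ring
      have hb : (1 : ℝ) + C ≤ (1 + C) ^ t := le_self_pow₀ (by linarith) (by omega)
      calc (H.card : ℝ) ^ t ≤ ((S.card : ℝ) ^ d) ^ (t - 1) * ∑ v ∈ A, ((N v).card : ℝ) ^ t := hpm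
        _ ≤ ((S.card : ℝ) ^ d) ^ (t - 1) * ((2 * t : ℝ) ^ t * ((S.card : ℝ) ^ d +
          (S.card : ℝ) ^ t * (C * (S.card : ℝ) ^ ((d : ℝ) - c)))) := by gcongr
        _ = (2 * t : ℝ) ^ t * (((S.card : ℝ) ^ d) ^ (t - 1) * (S.card : ℝ) ^ d +
          ((S.card : ℝ) ^ d) ^ (t - 1) * ((S.card : ℝ) ^ t *
            (C * (S.card : ℝ) ^ ((d : ℝ) - c)))) := by ring
        _ ≤ (2 * t : ℝ) ^ t * ((S.card : ℝ) ^ ((d : ℝ) * t + t - c) +
            C * (S.card : ℝ) ^ ((d : ℝ) * t + t - c)) := by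
            rw [e2, e4]
            gcongr
        _ = (2 * t : ℝ) ^ t * (1 + C) * (S.card : ℝ) ^ ((d : ℝ) * t + t - c) := by ring
        _ ≤ (2 * t : ℝ) ^ t * (1 + C) ^ t * (S.card : ℝ) ^ ((d : ℝ) * t + t - c) := by gcongr
        _ = _ := by rw [mul_pow (2 * (t : ℝ) * (1 + C)), mul_pow (2 * (t : ℝ)) (1 + C), e1]
    exact le_of_pow_le_pow_left₀ (by omega) (by positivity) hfin

theorem box_sets (d t : ℕ) : ∃ C c : ℝ, 0 < C ∧ 0 < c ∧ c ≤ 1 ∧ ∀ S : Finset ℕ, S.Nonempty →
    ∀ H : Finset (Finset ℕ), (∀ T ∈ H, T ⊆ S ∧ T.card = d) →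
      C * (S.card : ℝ) ^ ((d : ℝ) - c) < H.card →
      ∃ S' ⊆ S, S'.card ≤ d * t ∧ t ^ d ≤ (H.filter (· ⊆ S')).card := by
  classical
  rcases Nat.eq_zero_or_pos t with rfl | ht
  · rcases Nat.eq_zero_or_pos d with rfl | hd
    · refine ⟨1, 1, one_pos, one_pos, le_refl _, fun S hS H hH hlt => ?_⟩
      have hpos : (0 : ℝ) < H.card := lt_of_le_of_lt (by positivity) hlt
      have hne : H.Nonempty := by
        rw [← Finset.card_pos]; exact_mod_cast hpos
      obtain ⟨T, hT⟩ := hne
      have hT0 : T = ∅ := Finset.card_eq_zero.1 (hH T hT).2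
      refine ⟨∅, Finset.empty_subset _, by simp, ?_⟩
      rw [pow_zero]
      exact Finset.card_pos.2 ⟨T, Finset.mem_filter.2 ⟨hT, by rw [hT0]⟩⟩
    · refine ⟨1, 1, one_pos, one_pos, le_refl _, fun S hS H hH hlt => ?_⟩
      exact ⟨∅, Finset.empty_subset _, by simp, by rw [zero_pow (by omega)]; exact Nat.zero_le _⟩
  · obtain ⟨C, c, hC, hc, hc1, h⟩ := box_ord ht d
    refine ⟨C, c, hC, hc, hc1, fun S hS H hH hlt => ?_⟩
    -- the increasing tuple of a set
    set e : Finset ℕ → (Fin d → ℕ) := fun T =>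
      if hT : T.card = d then fun i => T.orderEmbOfFin hT i else fun _ => 0 with he
    have himg : ∀ T ∈ H, Finset.univ.image (e T) = T := by
      intro T hT
      have hTc := (hH T hT).2
      rw [he]
      simp only [hTc, dif_pos]
      have := T.image_orderEmbOfFin_univ hTc
      exact this
    have hinj : Set.InjOn e H := by
      intro T hT T' hT' h
      rw [← himg T hT, ← himg T' hT', h]
    obtain ⟨V, hV, hVH⟩ := h S hS (H.image e) (fun f hf i => by
      obtain ⟨T, hT, rfl⟩ := Finset.mem_image.1 hf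
      have h1 : e T i ∈ Finset.univ.image (e T) := Finset.mem_image_of_mem _ (Finset.mem_univ i)
      rw [himg T hT] at h1
      exact (hH T hT).1 h1) (by
      rw [Finset.card_image_of_injOn hinj]
      exact hlt)
    refine ⟨Finset.univ.biUnion V, ?_, ?_, ?_⟩
    · intro x hx
      obtain ⟨i, _, hi⟩ := Finset.mem_biUnion.1 hx
      exact (hV i).1 hi
    · calc (Finset.univ.biUnion V).card ≤ ∑ i, (V i).card := Finset.card_biUnion_le
        _ = d * t := by simp [(hV _).2]
    · have hcard : (Fintype.piFinset V).card = t ^ d := by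
        rw [Fintype.card_piFinset]
        simp [(hV _).2]
      rw [← hcard]
      apply Finset.card_le_card_of_injOn (fun g => Finset.univ.image g)
      · intro g hg
        obtain ⟨T, hT, hTg⟩ := Finset.mem_image.1 (hVH hg)
        rw [Finset.mem_coe, Fintype.mem_piFinset] at hg
        have hgT : Finset.univ.image g = T := by rw [← hTg]; exact himg T hT
        rw [Finset.mem_coe, Finset.mem_filter]
        simp only
        rw [hgT]
        refine ⟨hT, ?_⟩
        intro x hx
        rw [← hgT] at hx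
        obtain ⟨i, _, rfl⟩ := Finset.mem_image.1 hx
        exact Finset.mem_biUnion.2 ⟨i, Finset.mem_univ i, hg i⟩
      · intro g hg g' hg' hgg
        obtain ⟨T, hT, hTg⟩ := Finset.mem_image.1 (hVH hg)
        obtain ⟨T', hT', hTg'⟩ := Finset.mem_image.1 (hVH hg')
        have h1 : T = T' := by
          rw [← himg T hT, ← himg T' hT', hTg, hTg']
          exact hgg
        rw [← hTg, ← hTg', h1]

end Pool.Agent.QDen
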