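import Pool.Agent.QDen.OneT

set_option autoImplicit false

/-!
# Tuples of at least two positive integers: the exceptional set has size
`O(X_1 ⋯ X_l (log log X) ^ m / (log X) ^ 2)`
-/

namespace Pool.Agent.QDen

/-- the fibres over the tuples without the coordinate `j` -/
theorem TupT_fibre {n : ℕ} (j : Fin (n + 1)) (X : Fin (n + 1) → ℕ)
    (P : (Fin (n + 1) → ℕ) → Prop) (Q : (Fin n → ℕ) → Prop) [DecidablePred P] [DecidablePred Q]
    (δ δ' : ℝ) (hδ : 0 ≤ δ)
    (h1 : ∀ a' : Fin n → ℕ, ¬ Q a' →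
      (((Finset.Icc 1 (X j)).filter fun a0 => P (j.insertNth a0 a')).card : ℝ) ≤ δ * X j)
    (h2 : (((Fintype.piFinset fun i => Finset.Icc 1 (X (j.succAbove i))).filter Q).card : ℝ) ≤
      δ' * ∏ i : Fin n, (X (j.succAbove i) : ℝ)) :
    (((Fintype.piFinset fun i => Finset.Icc 1 (X i)).filter P).card : ℝ) ≤
      (δ + δ') * ∏ i, (X i : ℝ) := by
  set Bx' := Fintype.piFinset fun i => Finset.Icc 1 (X (j.succAbove i)) with hBx'
  set Bd' := Bx'.filter Q with hBd'
  set S := (Fintype.piFinset fun i => Finset.Icc 1 (X i)).filter P with hS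
  have hmem : ∀ a ∈ S, j.removeNth a ∈ Bx' := by
    intro a ha
    rw [hS, Finset.mem_filter, Fintype.mem_piFinset] at ha
    rw [hBx', Fintype.mem_piFinset]
    exact fun i => ha.1 (j.succAbove i)
  have hcard : S.card = ∑ a' ∈ Bx', (S.filter fun a => j.removeNth a = a').card :=
    Finset.card_eq_sum_card_fiberwise hmem
  have hfib0 : ∀ a' : Fin n → ℕ, (S.filter fun a => j.removeNth a = a').card ≤
      ((Finset.Icc 1 (X j)).filter fun a0 => P (j.insertNth a0 a')).card := by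
    intro a'
    refine Finset.card_le_card_of_injOn (fun a => a j) ?_ ?_
    · intro a ha
      simp only [Finset.coe_filter, Set.mem_ofPred_eq] at ha
      obtain ⟨haS, rfl⟩ := ha
      rw [hS, Finset.mem_filter, Fintype.mem_piFinset] at haS
      simp only [Finset.coe_filter, Set.mem_ofPred_eq]
      refine ⟨haS.1 j, ?_⟩
      rw [Fin.insertNth_self_removeNth]
      exact haS.2
    · intro a ha b hb hab
      simp only [Finset.coe_filter, Set.mem_ofPred_eq] at ha hb
      rw [← Fin.insertNth_self_removeNth j a, ← Fin.insertNth_self_removeNth j b, ha.2, hb.2]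
      exact congrArg (fun t : ℕ => (j.insertNth t a' : Fin (n + 1) → ℕ)) hab
  have hfib1 : ∀ a' : Fin n → ℕ, ((S.filter fun a => j.removeNth a = a').card : ℝ) ≤ X j := by
    intro a'
    have h := (hfib0 a').trans (Finset.card_filter_le _ _)
    rw [Nat.card_Icc, Nat.add_sub_cancel] at h
    exact_mod_cast h
  have hfib2 : ∀ a' ∈ Bx', a' ∉ Bd' →
      ((S.filter fun a => j.removeNth a = a').card : ℝ) ≤ δ * X j := by
    intro a' ha' hn
    have hQ : ¬ Q a' := fun h => hn (by rw [hBd', Finset.mem_filter]; exact ⟨ha', h⟩)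
    refine le_trans ?_ (h1 a' hQ)
    exact_mod_cast hfib0 a'
  have hprod : (∏ i, (X i : ℝ)) = X j * ∏ i, (X (j.succAbove i) : ℝ) :=
    Fin.prod_univ_succAbove _ j
  have hBxc : (Bx'.card : ℝ) = ∏ i, (X (j.succAbove i) : ℝ) := by
    rw [hBx', Fintype.card_piFinset]
    push_cast
    refine Finset.prod_congr rfl fun i _ => ?_
    rw [Nat.card_Icc, Nat.add_sub_cancel]
  have hX0 : (0 : ℝ) ≤ X j := Nat.cast_nonneg _
  calc (S.card : ℝ) = ∑ a' ∈ Bx', ((S.filter fun a => j.removeNth a = a').card : ℝ) := by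
        rw [hcard]; push_cast; rfl
    _ ≤ ∑ a' ∈ Bx', ((if a' ∈ Bd' then (X j : ℝ) else 0) + δ * X j) := by
        refine Finset.sum_le_sum fun a' ha' => ?_
        by_cases h : a' ∈ Bd'
        · rw [if_pos h]
          have := hfib1 a'
          nlinarith
        · rw [if_neg h, zero_add]
          exact hfib2 a' ha' h
    _ = Bd'.card * X j + Bx'.card * (δ * X j) := by
        rw [Finset.sum_add_distrib, ← Finset.sum_filter, Finset.sum_const, Finset.sum_const,
          nsmul_eq_mul, nsmul_eq_mul]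
        have e : Bx'.filter (fun a' => a' ∈ Bd') = Bd' := by
          rw [Finset.filter_mem_eq_inter]
          exact Finset.inter_eq_right.2 (Finset.filter_subset _ _)
        rw [e]
    _ ≤ (δ + δ') * ∏ i, (X i : ℝ) := by
        rw [hprod, hBxc]
        nlinarith

/-- the numbers `b, z₁, …, z_n` in another order -/
theorem rel_insertNth {n d : ℕ} (j : Fin (n + 1)) (b : ℂ) (z : Fin n → ℂ) (f : Fin (n + 1) → ℂ)
    (hj : f j = b) (hz : ∀ i, f (j.succAbove i) = z i) (h : Rel (Fin (n + 1)) d f) :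
    Rel (Fin (n + 1)) d (Fin.cons b z) := by
  refine rel_of_injective (Fin.insertNth (α := fun _ : Fin (n + 1) => Fin (n + 1)) j
    (0 : Fin (n + 1)) fun i => i.succ) ?_ ?_
  · intro i1 i2 h12
    rcases Fin.eq_self_or_eq_succAbove j i1 with h1 | ⟨i1', h1⟩ <;>
      rcases Fin.eq_self_or_eq_succAbove j i2 with h2 | ⟨i2', h2⟩
    · rw [h1, h2]
    · rw [h1, h2] at h12
      simp only [Fin.insertNth_apply_same, Fin.insertNth_apply_succAbove] at h12
      exact absurd h12.symm (Fin.succ_ne_zero _)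
    · rw [h1, h2] at h12
      simp only [Fin.insertNth_apply_same, Fin.insertNth_apply_succAbove] at h12
      exact absurd h12 (Fin.succ_ne_zero _)
    · rw [h1, h2] at h12
      simp only [Fin.insertNth_apply_succAbove] at h12
      rw [h1, h2, Fin.succ_injective _ h12]
  · have e : ((Fin.cons b z : Fin (n + 1) → ℂ) ∘
        (Fin.insertNth (α := fun _ : Fin (n + 1) => Fin (n + 1)) j
          (0 : Fin (n + 1)) fun i => i.succ)) = f := by
      funext i
      rcases Fin.eq_self_or_eq_succAbove j i with h1 | ⟨i', h1⟩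
      · rw [h1, Function.comp_apply, Fin.insertNth_apply_same, Fin.cons_zero, hj]
      · rw [h1, Function.comp_apply, Fin.insertNth_apply_succAbove, Fin.cons_succ, hz]
    rw [e]
    exact h

theorem pow_exp_mono (m : ℕ) {y z : ℝ} (hy : 0 < y) (hm : (m : ℝ) ≤ y) (hyz : y ≤ z) :
    z ^ m * Real.exp (-z) ≤ y ^ m * Real.exp (-y) := by
  have h1 : z / y ≤ Real.exp ((z - y) / y) := by
    have h := Real.add_one_le_exp ((z - y) / y)
    have e : (z - y) / y + 1 = z / y := by field_simp; ring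
    rwa [e] at h
  have h2 : (z / y) ^ m ≤ Real.exp (z - y) := by
    calc (z / y) ^ m ≤ Real.exp ((z - y) / y) ^ m :=
          pow_le_pow_left₀ (div_nonneg (hy.le.trans hyz) hy.le) h1 m
      _ = Real.exp (m * ((z - y) / y)) := (Real.exp_nat_mul _ _).symm
      _ ≤ Real.exp (z - y) := by
          refine Real.exp_le_exp.2 ?_
          rw [mul_div_assoc', div_le_iff₀ hy, mul_comm]
          exact mul_le_mul_of_nonneg_left hm (by linarith)
  have h3 : z ^ m = y ^ m * (z / y) ^ m := by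
    rw [← mul_pow, mul_div_cancel₀ _ hy.ne']
  rw [h3]
  calc y ^ m * (z / y) ^ m * Real.exp (-z) ≤ y ^ m * Real.exp (z - y) * Real.exp (-z) := by
        gcongr
    _ = y ^ m * Real.exp (-y) := by
        rw [mul_assoc, ← Real.exp_add]
        ring_nf

/-- a positive integer with the given property, as a finite set -/
theorem ncard_Icc (X : ℕ) (p : ℕ → Prop) [DecidablePred p] :
    {a : ℕ | (1 ≤ a ∧ a ≤ X) ∧ p a}.ncard = ((Finset.Icc 1 X).filter p).card := by
  rw [← Set.ncard_coe_finset]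
  congr 1
  ext a
  simp [Finset.mem_Icc]

/-- the bound for the exceptional `l`-tuples -/
def TB (l d : ℕ) : Prop :=
  ∃ (C : ℝ) (m X0 : ℕ), 0 < C ∧ ∀ lam : Fin l → ℂ, (∀ i, IsAlgebraic ℚ (Complex.exp (lam i))) →
    ∀ M : ℕ, X0 ≤ M → ∀ X : Fin l → ℕ, (∀ i, M ≤ X i) →
    ({a : Fin l → ℕ | (∀ i, 1 ≤ a i ∧ a i ≤ X i) ∧
      Rel (Fin l) d (fun i => lam i + ((Real.log (a i : ℝ) : ℝ) : ℂ))}.ncard : ℝ) ≤
      (C * Real.log (Real.log M) ^ m * Real.exp (-(2 * Real.log (Real.log M)))) *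
        ∏ i, (X i : ℝ)

theorem TB_one (d : ℕ) : TB 1 d := by
  refine ⟨4, 0, 3, by norm_num, fun lam hlam M hM X hX => ?_⟩
  have h3 : ∀ a : Fin 1 → ℕ, 1 ≤ a 0 →
      Rel (Fin 1) d (fun i => lam i + ((Real.log (a i : ℝ) : ℝ) : ℂ)) →
      lam 0 + ((Real.log (a 0 : ℝ) : ℝ) : ℂ) = 0 := by
    intro a ha1 ha
    by_contra h
    refine not_rel_of_algInd (σ := Fin 1) ?_ d ha
    exact algebraicIndependent_unique_type_iff.2 (transcendental_lam (hlam 0) ha1 h)
  have h1 : {a : Fin 1 → ℕ | (∀ i, 1 ≤ a i ∧ a i ≤ X i) ∧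
      Rel (Fin 1) d (fun i => lam i + ((Real.log (a i : ℝ) : ℝ) : ℂ))}.Subsingleton := by
    rintro a ⟨ha1, ha⟩ a' ⟨ha1', ha'⟩
    have h4 : ((Real.log (a 0 : ℝ) : ℝ) : ℂ) = ((Real.log (a' 0 : ℝ) : ℝ) : ℂ) :=
      add_left_cancel ((h3 a (ha1 0).1 ha).trans (h3 a' (ha1' 0).1 ha').symm)
    have h5 : Real.log (a 0 : ℝ) = Real.log (a' 0 : ℝ) := by exact_mod_cast h4
    have h6 : (a 0 : ℝ) = a' 0 := Real.log_injOn_pos
      (Set.mem_Ioi.2 (by exact_mod_cast (ha1 0).1))
      (Set.mem_Ioi.2 (by exact_mod_cast (ha1' 0).1)) h5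
    funext i
    rw [Subsingleton.elim i 0]
    exact_mod_cast h6
  have h2 : ({a : Fin 1 → ℕ | (∀ i, 1 ≤ a i ∧ a i ≤ X i) ∧
      Rel (Fin 1) d (fun i => lam i + ((Real.log (a i : ℝ) : ℝ) : ℂ))}.ncard : ℝ) ≤ 1 := by
    have hfin : {a : Fin 1 → ℕ | (∀ i, 1 ≤ a i ∧ a i ≤ X i) ∧
      Rel (Fin 1) d (fun i => lam i + ((Real.log (a i : ℝ) : ℝ) : ℂ))}.Finite := h1.finite
    have h7 := (Set.ncard_le_one hfin).2 (fun a ha b hb => h1 ha hb)
    exact_mod_cast h7
  refine h2.trans ?_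
  have hM3 : (3 : ℝ) ≤ M := by exact_mod_cast hM
  have hlog : 1 < Real.log M := by
    rw [Real.lt_log_iff_exp_lt (by linarith)]
    linarith [Real.exp_one_lt_d9]
  have hs : 0 < Real.sqrt M := Real.sqrt_pos.2 (by linarith)
  have h4 : Real.log M ≤ 2 * Real.sqrt M := by
    have h5 : Real.log M = 2 * Real.log (Real.sqrt M) := by
      rw [Real.log_sqrt (by linarith)]
      ring
    have h6 := Real.log_le_sub_one_of_pos hs
    linarith
  have h5 : Real.log M ^ 2 ≤ 4 * M := by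
    have h6 : Real.log M ^ 2 ≤ (2 * Real.sqrt M) ^ 2 := pow_le_pow_left₀ (by linarith) h4 2
    rw [mul_pow, Real.sq_sqrt (by linarith)] at h6
    linarith
  have h6 : Real.exp (-(2 * Real.log (Real.log M))) = (Real.log M ^ 2)⁻¹ := by
    rw [Real.exp_neg, mul_comm, Real.exp_mul, Real.exp_log (by linarith)]
    norm_num
  have h7 : (M : ℝ) ≤ X 0 := by exact_mod_cast hX 0
  have h8 : 0 < Real.log M ^ 2 := by positivity
  rw [h6, pow_zero, mul_one, Fin.prod_univ_one, ← div_eq_mul_inv, div_mul_eq_mul_div,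
    le_div_iff₀ h8]
  linarith

open Classical in
theorem TB_succ (n d : ℕ) (hn : 0 < n)
    (one : ∀ d : ℕ, 0 < d → ∃ (D : ℕ) (F : ℕ → Set ℕ) (C : ℝ) (m X0 : ℕ), 0 < C ∧
      ∀ X : ℕ, X0 ≤ X →
      ({a : ℕ | (1 ≤ a ∧ a ≤ X) ∧ a ∈ F X}.ncard : ℝ) ≤
        X * (C * Real.log (Real.log X) ^ m * Real.exp (-Real.log (Real.log X))) ∧
      ∀ x : Fin n → ℂ, ¬ Rel (Fin n) D x → ∀ lam : ℂ, IsAlgebraic ℚ (Complex.exp lam) →
        ({a : ℕ | (1 ≤ a ∧ a ≤ X) ∧ a ∉ F X ∧
          Rel (Fin (n + 1)) d (Fin.cons (lam + ((Real.log (a : ℝ) : ℝ) : ℂ)) x)}.ncard : ℝ) ≤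
          X * (C * Real.log (Real.log X) ^ m * Real.exp (-(2 * Real.log (Real.log X)))))
    (ih : ∀ D, TB n D) : TB (n + 1) d := by
  rcases Nat.eq_zero_or_pos d with rfl | hd
  · refine ⟨1, 0, 0, one_pos, fun lam _ M _ X _ => ?_⟩
    have h0 : {a : Fin (n + 1) → ℕ | (∀ i, 1 ≤ a i ∧ a i ≤ X i) ∧
        Rel (Fin (n + 1)) 0 (fun i => lam i + ((Real.log (a i : ℝ) : ℝ) : ℂ))} = ∅ :=
      Set.eq_empty_iff_forall_notMem.2 fun a ha => not_rel_zero ha.2
    rw [h0]
    simp only [Set.ncard_empty, Nat.cast_zero]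
    positivity
  obtain ⟨D, F, C, m, X1, hC, hone⟩ := one d hd
  obtain ⟨C', m', X2, hC', hih⟩ := ih D
  have hev := (tendsto_loglog.eventually ((ev_poly_exp C m (show (0 : ℝ) < 1 by norm_num)).and
    (Filter.eventually_ge_atTop ((m : ℝ) + 1))))
  obtain ⟨X3, hX3⟩ := Filter.eventually_atTop.1 hev
  refine ⟨C ^ 2 + (n + 1) * (C + C'), 2 * m + m', max (max X1 X2) (max X3 3), by positivity,
    fun lam hlam M hM X hX => ?_⟩
  have hM1 : X1 ≤ M := (le_max_left _ _).trans ((le_max_left _ _).trans hM)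
  have hM2 : X2 ≤ M := (le_max_right _ _).trans ((le_max_left _ _).trans hM)
  have hM3 : X3 ≤ M := (le_max_left _ _).trans ((le_max_right _ _).trans hM)
  have hM4 : 3 ≤ M := (le_max_right _ _).trans ((le_max_right _ _).trans hM)
  have hM5 : (3 : ℝ) ≤ M := by exact_mod_cast hM4
  have hlogM : 1 < Real.log M := by
    rw [Real.lt_log_iff_exp_lt (by linarith)]
    linarith [Real.exp_one_lt_d9]
  obtain ⟨hy1, hy2⟩ := hX3 M hM3
  set y : ℝ := Real.log (Real.log M) with hy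
  have hm0 : (0 : ℝ) ≤ m := Nat.cast_nonneg _
  have hy3 : 1 ≤ y := by linarith
  have hy0 : 0 < y := by linarith
  -- the numbers `log log (X i)`
  have hyi : ∀ i, y ≤ Real.log (Real.log (X i)) := by
    intro i
    have h4 : (M : ℝ) ≤ X i := by exact_mod_cast hX i
    exact Real.log_le_log (by linarith) (Real.log_le_log (by linarith) h4)
  set δ1 : ℝ := C * y ^ m * Real.exp (-y) with hδ1
  set δ2 : ℝ := C * y ^ m * Real.exp (-(2 * y)) with hδ2
  set δ' : ℝ := C' * y ^ m' * Real.exp (-(2 * y)) with hδ'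
  have hδ1n : 0 ≤ δ1 := by positivity
  have hδ2n : 0 ≤ δ2 := by positivity
  have hδ1l : δ1 ≤ 1 := by
    have h := hy1
    simp only [one_mul, zero_mul, neg_zero, Real.exp_zero, mul_one] at h
    linarith
  have hb1 : ∀ i, C * Real.log (Real.log (X i)) ^ m * Real.exp (-Real.log (Real.log (X i))) ≤
      δ1 := by
    intro i
    have h := pow_exp_mono m hy0 (by linarith) (hyi i)
    rw [hδ1, mul_assoc, mul_assoc]
    exact mul_le_mul_of_nonneg_left h hC.le
  have hb2 : ∀ i, C * Real.log (Real.log (X i)) ^ m *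
      Real.exp (-(2 * Real.log (Real.log (X i)))) ≤ δ2 := by
    intro i
    have h := pow_exp_mono m hy0 (by linarith) (hyi i)
    have h' : Real.exp (-Real.log (Real.log (X i))) ≤ Real.exp (-y) :=
      Real.exp_le_exp.2 (by linarith [hyi i])
    have e : ∀ t : ℝ, Real.exp (-(2 * t)) = Real.exp (-t) * Real.exp (-t) := fun t => by
      rw [← Real.exp_add]
      ring_nf
    rw [hδ2, e, e, mul_assoc, mul_assoc, ← mul_assoc (_ ^ m), ← mul_assoc (_ ^ m)]
    refine mul_le_mul_of_nonneg_left ?_ hC.le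
    exact mul_le_mul h h' (Real.exp_pos _).le (by positivity)
  set Bx := Fintype.piFinset fun i => Finset.Icc 1 (X i) with hBx
  rw [ncard_box X]
  set S := Bx.filter fun a => Rel (Fin (n + 1)) d
    (fun i => lam i + ((Real.log (a i : ℝ) : ℝ) : ℂ)) with hS
  set SF := Fintype.piFinset fun i => (Finset.Icc 1 (X i)).filter (· ∈ F (X i)) with hSF
  set Sj : Fin (n + 1) → Finset (Fin (n + 1) → ℕ) := fun j => Bx.filter fun a =>
    a j ∉ F (X j) ∧ Rel (Fin (n + 1)) d (fun i => lam i + ((Real.log (a i : ℝ) : ℝ) : ℂ)) with hSj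
  have hsub : S ⊆ SF ∪ Finset.univ.biUnion Sj := by
    intro a ha
    rw [hS, Finset.mem_filter] at ha
    rw [Finset.mem_union]
    by_cases h : ∀ i, a i ∈ F (X i)
    · left
      rw [hSF, Fintype.mem_piFinset]
      intro i
      rw [Finset.mem_filter]
      exact ⟨(Fintype.mem_piFinset.1 ha.1) i, h i⟩
    · right
      obtain ⟨j, hj⟩ := not_forall.1 h
      rw [Finset.mem_biUnion]
      refine ⟨j, Finset.mem_univ _, ?_⟩
      rw [hSj, Finset.mem_filter]
      exact ⟨ha.1, hj, ha.2⟩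
  have hP0 : (0 : ℝ) ≤ ∏ i, (X i : ℝ) := Finset.prod_nonneg fun i _ => Nat.cast_nonneg _
  -- all coordinates exceptional
  have hSFc : (SF.card : ℝ) ≤ δ1 ^ 2 * ∏ i, (X i : ℝ) := by
    rw [hSF, Fintype.card_piFinset]
    push_cast
    calc ∏ i, (((Finset.Icc 1 (X i)).filter (· ∈ F (X i))).card : ℝ) ≤
          ∏ i, ((X i : ℝ) * δ1) := by
          refine Finset.prod_le_prod (fun i _ => Nat.cast_nonneg _) fun i _ => ?_
          have h := (hone (X i) (hM1.trans (hX i))).1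
          rw [ncard_Icc] at h
          exact h.trans (mul_le_mul_of_nonneg_left (hb1 i) (Nat.cast_nonneg _))
      _ = δ1 ^ (n + 1) * ∏ i, (X i : ℝ) := by
          rw [Finset.prod_mul_distrib, Finset.prod_const, Finset.card_univ, Fintype.card_fin,
            mul_comm]
      _ ≤ δ1 ^ 2 * ∏ i, (X i : ℝ) :=
          mul_le_mul_of_nonneg_right (pow_le_pow_of_le_one hδ1n hδ1l (by omega)) hP0
  -- one coordinate not exceptional
  have hSjc : ∀ j, ((Sj j).card : ℝ) ≤ (δ2 + δ') * ∏ i, (X i : ℝ) := by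
    intro j
    refine TupT_fibre j X (fun a => a j ∉ F (X j) ∧ Rel (Fin (n + 1)) d
      (fun i => lam i + ((Real.log (a i : ℝ) : ℝ) : ℂ)))
      (fun a' => Rel (Fin n) D (fun i => lam (j.succAbove i) +
        ((Real.log (a' i : ℝ) : ℝ) : ℂ))) δ2 δ' hδ2n ?_ ?_
    · intro a' hQ
      have h := (hone (X j) (hM1.trans (hX j))).2 _ hQ (lam j) (hlam j)
      rw [ncard_Icc] at h
      have h' := h.trans (mul_le_mul_of_nonneg_left (hb2 j) (Nat.cast_nonneg _))
      rw [mul_comm] at h'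
      refine le_trans ?_ h'
      refine Nat.cast_le.2 (Finset.card_le_card fun a0 ha0 => ?_)
      rw [Finset.mem_filter] at ha0 ⊢
      obtain ⟨h1, h2, h3⟩ := ha0
      rw [Fin.insertNth_apply_same] at h2
      refine ⟨h1, h2, rel_insertNth j _ _ _ ?_ (fun i => ?_) h3⟩
      · rw [Fin.insertNth_apply_same]
      · rw [Fin.insertNth_apply_succAbove]
    · have h := hih (fun i => lam (j.succAbove i)) (fun i => hlam _) M hM2
        (fun i => X (j.succAbove i)) fun i => hX _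
      rw [ncard_box (fun i => X (j.succAbove i))] at h
      exact h
  have hcard : (S.card : ℝ) ≤ δ1 ^ 2 * ∏ i, (X i : ℝ) +
      (n + 1) * ((δ2 + δ') * ∏ i, (X i : ℝ)) := by
    have h1 : S.card ≤ SF.card + ∑ j, (Sj j).card :=
      (Finset.card_le_card hsub).trans ((Finset.card_union_le _ _).trans
        (Nat.add_le_add_left Finset.card_biUnion_le _))
    have h2 : (S.card : ℝ) ≤ SF.card + ∑ j, ((Sj j).card : ℝ) := by exact_mod_cast h1
    refine h2.trans (add_le_add hSFc ?_)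
    refine (Finset.sum_le_sum fun j _ => hSjc j).trans (le_of_eq ?_)
    rw [Finset.sum_const, Finset.card_univ, Fintype.card_fin, nsmul_eq_mul]
    push_cast
    ring
  refine hcard.trans ?_
  have hfin : δ1 ^ 2 + (n + 1) * (δ2 + δ') ≤
      (C ^ 2 + (n + 1) * (C + C')) * y ^ (2 * m + m') * Real.exp (-(2 * y)) := by
    have e1 : δ1 ^ 2 = C ^ 2 * y ^ (2 * m) * Real.exp (-(2 * y)) := by
      rw [hδ1, mul_pow, mul_pow, ← pow_mul, mul_comm m 2, ← Real.exp_nat_mul]
      push_cast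
      ring_nf
    have p1 : y ^ (2 * m) ≤ y ^ (2 * m + m') := pow_le_pow_right₀ hy3 (by omega)
    have p2 : y ^ m ≤ y ^ (2 * m + m') := pow_le_pow_right₀ hy3 (by omega)
    have p3 : y ^ m' ≤ y ^ (2 * m + m') := pow_le_pow_right₀ hy3 (by omega)
    have q1 : δ1 ^ 2 ≤ C ^ 2 * y ^ (2 * m + m') * Real.exp (-(2 * y)) := by
      rw [e1]
      gcongr
    have q2 : δ2 ≤ C * y ^ (2 * m + m') * Real.exp (-(2 * y)) := by
      rw [hδ2]
      gcongr
    have q3 : δ' ≤ C' * y ^ (2 * m + m') * Real.exp (-(2 * y)) := by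
      rw [hδ']
      gcongr
    have q4 : ((n : ℝ) + 1) * (δ2 + δ') ≤ (n + 1) * (C * y ^ (2 * m + m') * Real.exp (-(2 * y)) +
        C' * y ^ (2 * m + m') * Real.exp (-(2 * y))) :=
      mul_le_mul_of_nonneg_left (add_le_add q2 q3) (by positivity)
    refine (add_le_add q1 q4).trans (le_of_eq ?_)
    ring
  calc δ1 ^ 2 * ∏ i, (X i : ℝ) + (n + 1) * ((δ2 + δ') * ∏ i, (X i : ℝ)) =
        (δ1 ^ 2 + (n + 1) * (δ2 + δ')) * ∏ i, (X i : ℝ) := by ring
    _ ≤ _ := mul_le_mul_of_nonneg_right hfin hP0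

theorem TB_all (l d : ℕ) (hl : 1 ≤ l) : TB l d := by
  induction l, hl using Nat.le_induction generalizing d with
  | base => exact TB_one d
  | succ n hn ih => exact TB_succ n d hn (fun d hd => oneF n d hn hd) ih

theorem tuplesT (l d : ℕ) (hl : 2 ≤ l) : ∃ (C : ℝ) (m X0 : ℕ), 0 < C ∧ ∀ lam : Fin l → ℂ,
    (∀ i, IsAlgebraic ℚ (Complex.exp (lam i))) →
    ∀ M : ℕ, X0 ≤ M → ∀ X : Fin l → ℕ, (∀ i, M ≤ X i) →
    ({a : Fin l → ℕ | (∀ i, 1 ≤ a i ∧ a i ≤ X i) ∧
      Rel (Fin l) d (fun i => lam i + ((Real.log (a i : ℝ) : ℝ) : ℂ))}.ncard : ℝ) ≤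
      (C * Real.log (Real.log M) ^ m * Real.exp (-(2 * Real.log (Real.log M)))) *
        ∏ i, (X i : ℝ) :=
  TB_all l d (by omega)

end Pool.Agent.QDen
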