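import Pool.Agent.QDen.GrowS

set_option autoImplicit false

/-!
# Relations of degree `d ≤ log log X`, uniformly in `d`: at most
`C X (log log X) ^ (k + 1) (e log log X / d) ^ d / log X` integers `a ≤ X` are exceptional
-/

namespace Pool.Agent.QDen

open Filter

theorem growT_one_le_loglog {X : ℕ} (hX : 16 ≤ X) : 1 ≤ Real.log (Real.log X) := by
  have h1 : (16 : ℝ) ≤ X := by exact_mod_cast hX
  have h2 : Real.log 16 ≤ Real.log X := Real.log_le_log (by norm_num) h1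
  have h3 : Real.log 16 = 4 * Real.log 2 := by
    rw [show (16 : ℝ) = 2 ^ 4 by norm_num, Real.log_pow]
    norm_num
  have h4 := Real.log_two_gt_d9
  have h5 := Real.exp_one_lt_d9
  rw [Real.le_log_iff_exp_le (by linarith)]
  linarith

theorem growT (k : ℕ) (hk : 0 < k) : ∃ C : ℝ, 0 < C ∧ ∀ x : Fin k → ℂ,
    AlgebraicIndependent ℚ x → ∀ lam : ℂ, IsAlgebraic ℚ (Complex.exp lam) →
    ∀ X : ℕ, 16 ≤ X → ∀ d : ℕ, 1 ≤ d → (d : ℝ) ≤ Real.log (Real.log X) →
      ({a : ℕ | (1 ≤ a ∧ a ≤ X) ∧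
        Rel (Fin (k + 1)) d (Fin.cons (lam + ((Real.log (a : ℝ) : ℝ) : ℂ)) x)}.ncard : ℝ) ≤
        C * X * Real.log (Real.log X) ^ (k + 1) *
          (Real.exp 1 * Real.log (Real.log X) / d) ^ d / Real.log X := by
  classical
  obtain ⟨CR, hCR, hgen⟩ := gen_rank
  obtain ⟨C1, hC1, hSb⟩ := S_bounds k
  obtain ⟨y0, hy0⟩ := asymS k hk
  obtain ⟨X0, hX0⟩ := eventually_atTop.1 (hSb.and
    (tendsto_loglog.eventually (eventually_ge_atTop y0)))
  have hlX0 : 0 ≤ Real.log ((X0 : ℝ) + 1) :=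
    Real.log_nonneg (by linarith [(Nat.cast_nonneg X0 : (0 : ℝ) ≤ X0)])
  refine ⟨1 + CR * Real.exp C1 + Real.log ((X0 : ℝ) + 1), by positivity,
    fun x hx lam hlam X hX16 d hd1 hdy => ?_⟩
  have hy1 : 1 ≤ Real.log (Real.log X) := growT_one_le_loglog hX16
  have hX16' : (16 : ℝ) ≤ X := by exact_mod_cast hX16
  have hXpos : (0 : ℝ) < X := by linarith
  have hlX : 1 < Real.log X := by
    rw [Real.lt_log_iff_exp_lt hXpos]
    linarith [Real.exp_one_lt_d9]
  have hlXpos : 0 < Real.log X := by linarith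
  have hexpy : Real.exp (Real.log (Real.log X)) = Real.log X := Real.exp_log hlXpos
  set y : ℝ := Real.log (Real.log X) with hy
  have hypos : 0 < y := by linarith
  have hdpos : 0 < d := hd1
  have hdpos' : (0 : ℝ) < d := by exact_mod_cast hdpos
  have hbase : 1 ≤ Real.exp 1 * y / d := by
    rw [le_div_iff₀ hdpos', one_mul]
    have h1 : 1 ≤ Real.exp 1 := Real.one_le_exp (by norm_num)
    nlinarith
  have hpow : 1 ≤ (Real.exp 1 * y / d) ^ d := one_le_pow₀ hbase
  have hyk : 1 ≤ y ^ (k + 1) := one_le_pow₀ hy1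
  have hQ : 1 ≤ y ^ (k + 1) * (Real.exp 1 * y / d) ^ d := by
    nlinarith
  rcases lt_or_ge X X0 with hXX0 | hXX0
  · -- small `X`
    have h1 : {a : ℕ | (1 ≤ a ∧ a ≤ X) ∧
        Rel (Fin (k + 1)) d (Fin.cons (lam + ((Real.log (a : ℝ) : ℝ) : ℂ)) x)}.ncard ≤ X := by
      have h2 : {a : ℕ | (1 ≤ a ∧ a ≤ X) ∧
          Rel (Fin (k + 1)) d (Fin.cons (lam + ((Real.log (a : ℝ) : ℝ) : ℂ)) x)} ⊆
          ↑(Finset.Icc 1 X) := by
        rintro a ⟨h3, -⟩
        rw [Finset.mem_coe, Finset.mem_Icc]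
        exact h3
      have h4 := Set.ncard_le_ncard h2 (Finset.finite_toSet _)
      rwa [Set.ncard_coe_finset, Nat.card_Icc, Nat.add_sub_cancel] at h4
    have h2 : ({a : ℕ | (1 ≤ a ∧ a ≤ X) ∧
        Rel (Fin (k + 1)) d (Fin.cons (lam + ((Real.log (a : ℝ) : ℝ) : ℂ)) x)}.ncard : ℝ) ≤ X := by
      exact_mod_cast h1
    refine h2.trans ?_
    have h3 : Real.log X ≤ Real.log ((X0 : ℝ) + 1) := by
      refine Real.log_le_log hXpos ?_
      have : (X : ℝ) ≤ X0 := by exact_mod_cast hXX0.le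
      linarith
    have h4 : 0 ≤ CR * Real.exp C1 := by positivity
    have h5 : Real.log X ≤ 1 + CR * Real.exp C1 + Real.log ((X0 : ℝ) + 1) := by linarith
    rw [le_div_iff₀ hlXpos]
    calc (X : ℝ) * Real.log X ≤
        X * (1 + CR * Real.exp C1 + Real.log ((X0 : ℝ) + 1)) :=
          mul_le_mul_of_nonneg_left h5 hXpos.le
      _ ≤ X * (1 + CR * Real.exp C1 + Real.log ((X0 : ℝ) + 1)) *
          (y ^ (k + 1) * (Real.exp 1 * y / d) ^ d) :=
          le_mul_of_one_le_right (by positivity) hQ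
      _ = _ := by ring
  -- large `X`
  obtain ⟨a1, a5⟩ := hX0 X hXX0
  obtain ⟨-, hX4, hS⟩ := a1 _ rfl
  set r : ℕ := ⌈Real.exp (y ^ (k + 1))⌉₊ with hr
  have hrle : Real.exp (y ^ (k + 1)) ≤ r := Nat.le_ceil _
  have hr3' : 3 ≤ r := by
    have h1 : (2 : ℝ) < Real.exp (y ^ (k + 1)) := by
      have h2 := Real.exp_one_gt_d9
      have h3 := Real.exp_le_exp.2 hyk
      linarith
    have h2 : (2 : ℝ) < r := by linarith
    exact_mod_cast h2
  have hr3 : (3 : ℝ) ≤ r := by exact_mod_cast hr3'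
  have hrpos : 0 < r := by omega
  have hrr : (0 : ℝ) < r := by linarith
  have hrub : (r : ℝ) ≤ Real.exp (2 * y ^ (k + 1)) := by
    have h12 : (r : ℝ) < Real.exp (y ^ (k + 1)) + 1 :=
      Nat.ceil_lt_add_one (Real.exp_pos _).le
    have h13 : Real.exp (2 * y ^ (k + 1)) = Real.exp (y ^ (k + 1)) * Real.exp (y ^ (k + 1)) := by
      rw [← Real.exp_add]
      ring_nf
    have h14 : 2 ≤ Real.exp (y ^ (k + 1)) := by
      have h2 := Real.exp_one_gt_d9
      have h3 := Real.exp_le_exp.2 hyk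
      linarith
    rw [h13]
    nlinarith
  obtain ⟨hS1, hS2, hS3, hqX⟩ := hS r hr3' hrub
  set J : ℕ := Nat.sqrt X / r with hJ
  set S : ℝ := ∑ i ∈ Finset.range (J * r), 1 / (q (r + i) : ℝ) with hSdef
  set K : ℝ := (((d * r + 1 + d - 2).choose (d - 1) * 2 ^ ((k + d).choose d) : ℕ) : ℝ) with hK
  have hK0 : 0 ≤ K := by positivity
  have hX3 : 3 ≤ X := by omega
  set v : ℝ := d / y with hv
  have hv0 : 0 < v := by positivity
  have hv1 : v ≤ 1 := by
    rw [hv, div_le_one hypos]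
    exact hdy
  have hvy : v * y = d := by
    rw [hv]
    field_simp
  have h := hgen (fun i => q (r + i)) (fun i => q_prime _)
    (fun i j hij => q_strictMono (by omega)) d r J hrpos K hK0
    {a : ℕ | Rel (Fin (k + 1)) d (Fin.cons (lam + ((Real.log (a : ℝ) : ℝ) : ℂ)) x)}
    (fun b hb T hT hTc => by
      have h12 := heredS hk hdpos x lam hlam T hT (not_rel_of_algInd hx _) b hb
      have h13 : {T' : Finset ℕ | T' ⊆ T ∧ T'.card = d ∧ b * ∏ p ∈ T', p ∈ {a : ℕ |
          Rel (Fin (k + 1)) d (Fin.cons (lam + ((Real.log (a : ℝ) : ℝ) : ℂ)) x)}}.ncard ≤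
          (T.card + 1 + d - 2).choose (d - 1) * 2 ^ ((k + d).choose d) := by
        refine le_trans (Set.ncard_le_ncard ?_ ?_) h12
        · rintro T' ⟨h1, -, h3⟩
          exact ⟨h1, h3⟩
        · refine (Finset.finite_toSet T.powerset).subset fun T' hT' => ?_
          rw [Finset.mem_coe, Finset.mem_powerset]
          exact hT'.1
      have h14 : (T.card + 1 + d - 2).choose (d - 1) ≤ (d * r + 1 + d - 2).choose (d - 1) :=
        Nat.choose_le_choose _ (by omega)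
      rw [hK]
      exact_mod_cast h13.trans (Nat.mul_le_mul_right _ h14))
    X hX3 hqX v hv0 hv1
  have e : {a : ℕ | (1 ≤ a ∧ a ≤ X) ∧
      Rel (Fin (k + 1)) d (Fin.cons (lam + ((Real.log (a : ℝ) : ℝ) : ℂ)) x)} =
      {a : ℕ | a ∈ {a : ℕ | Rel (Fin (k + 1)) d (Fin.cons (lam + ((Real.log (a : ℝ) : ℝ) : ℂ)) x)} ∧
        1 ≤ a ∧ a ≤ X} := by
    ext a
    constructor
    · rintro ⟨⟨h1, h2⟩, h3⟩
      exact ⟨h3, h1, h2⟩
    · rintro ⟨h3, h1, h2⟩
      exact ⟨⟨h1, h2⟩, h3⟩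
  rw [e]
  refine h.trans ?_
  have hS0 : 0 ≤ S := by linarith
  have hq0 : 1 / (q (r + 0) : ℝ) ≤ S / r := by
    have h12 : (r : ℝ) ≤ q (r + 0) := by
      have := q_strictMono.le_apply (x := r)
      exact_mod_cast this
    calc 1 / (q (r + 0) : ℝ) ≤ 1 / r := one_div_le_one_div_of_le hrr h12
      _ ≤ S / r := div_le_div_of_nonneg_right hS3 hrr.le
  have hterm1 : K * X * (1 / (q (r + 0) : ℝ) + S / r) ^ d ≤ X * Real.exp (-(2 * y)) := by
    have h13 : (1 / (q (r + 0) : ℝ) + S / r) ^ d ≤ (2 * S / r) ^ d := by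
      refine pow_le_pow_left₀ (by positivity) ?_ d
      calc 1 / (q (r + 0) : ℝ) + S / r ≤ S / r + S / r := by linarith
        _ = 2 * S / r := by ring
    have h14 := hy0 y a5 d r S hdpos hdy hrle hS0 hS2
    calc K * X * (1 / (q (r + 0) : ℝ) + S / r) ^ d ≤ K * X * (2 * S / r) ^ d :=
          mul_le_mul_of_nonneg_left h13 (by positivity)
      _ = X * (K * (2 * S / r) ^ d) := by ring
      _ ≤ _ := mul_le_mul_of_nonneg_left h14 hXpos.le
  have hterm2 := second_term (X := X) (u := d) (m := k + 1) hCR.le hXpos.le hv0 hv1 hy1 hC1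
    (S := S) (y := y) (by push_cast; linarith)
  have hvd : (v ^ d)⁻¹ * Real.exp (-((1 - v) * y)) =
      (Real.exp 1 * y / d) ^ d * Real.exp (-y) := by
    have h1 : (v ^ d)⁻¹ = (y / d) ^ d := by
      rw [hv, ← inv_pow, inv_div]
    have h2 : -((1 - v) * y) = (d : ℝ) * 1 + -y := by
      have : (1 - v) * y = y - d := by rw [sub_mul, one_mul, hvy]
      rw [this]
      ring
    rw [h1, h2, Real.exp_add, Real.exp_nat_mul, ← mul_assoc, ← mul_pow]
    congr 2
    ring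
  have hey : Real.exp (-y) = 1 / Real.log X := by
    rw [Real.exp_neg, hexpy, one_div]
  have hlast0 : 0 ≤ Real.log ((X0 : ℝ) + 1) * (X * (y ^ (k + 1) *
      (Real.exp 1 * y / d) ^ d) / Real.log X) := by positivity
  have ht1 : X * Real.exp (-(2 * y)) ≤
      X * (y ^ (k + 1) * (Real.exp 1 * y / d) ^ d) / Real.log X := by
    have h1 : Real.exp (-(2 * y)) ≤ Real.exp (-y) := Real.exp_le_exp.2 (by linarith)
    rw [hey] at h1
    calc X * Real.exp (-(2 * y)) ≤ X * (1 / Real.log X) :=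
          mul_le_mul_of_nonneg_left h1 hXpos.le
      _ = X * 1 / Real.log X := by ring
      _ ≤ _ := div_le_div_of_nonneg_right (mul_le_mul_of_nonneg_left hQ hXpos.le) hlXpos.le
  rw [hvd, hey] at hterm2
  calc _ ≤ X * Real.exp (-(2 * y)) +
        X * (CR * Real.exp C1 * y ^ (k + 1) * ((Real.exp 1 * y / d) ^ d * (1 / Real.log X))) :=
        add_le_add hterm1 hterm2
    _ ≤ X * (y ^ (k + 1) * (Real.exp 1 * y / d) ^ d) / Real.log X +
        X * (CR * Real.exp C1 * y ^ (k + 1) * ((Real.exp 1 * y / d) ^ d * (1 / Real.log X))) +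
        Real.log ((X0 : ℝ) + 1) * (X * (y ^ (k + 1) *
          (Real.exp 1 * y / d) ^ d) / Real.log X) := by linarith
    _ = _ := by ring

end Pool.Agent.QDen
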