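import Pool.Agent.QDen.OneS

set_option autoImplicit false

/-!
# Relations of growing degree `≤ κ log log X`: at most
`X / (log X) ^ (1 - κ + κ log κ - ε)` integers `a ≤ X` are exceptional
-/

namespace Pool.Agent.QDen

open Filter

theorem asymS (k : ℕ) (hk : 0 < k) : ∃ y0 : ℝ, ∀ y : ℝ, y0 ≤ y →
    ∀ (d r : ℕ) (S : ℝ), 0 < d → (d : ℝ) ≤ y → Real.exp (y ^ (k + 1)) ≤ r → 0 ≤ S → S ≤ 2 * y →
      (((d * r + 1 + d - 2).choose (d - 1) * 2 ^ ((k + d).choose d) : ℕ) : ℝ) *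
        (2 * S / r) ^ d ≤ Real.exp (-(2 * y)) := by
  have hev : ∀ᶠ y : ℝ in atTop, Real.log y ≤ 1 / 16 * y := by
    filter_upwards [Real.isLittleO_log_id_atTop.bound (show (0 : ℝ) < 1 / 16 by norm_num),
      eventually_ge_atTop (1 : ℝ)] with y hy hy1
    rw [Real.norm_of_nonneg (Real.log_nonneg hy1), id, Real.norm_of_nonneg (by linarith)] at hy
    exact hy
  obtain ⟨y1, hy1⟩ := eventually_atTop.1 hev
  refine ⟨max (max y1 k) (max 32 (2 ^ (k + 2))), fun y hy d r S hd hdy hr hS0 hS2 => ?_⟩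
  have hlog := hy1 y ((le_max_left _ _).trans ((le_max_left _ _).trans hy))
  have hyk : (k : ℝ) ≤ y := (le_max_right _ _).trans ((le_max_left _ _).trans hy)
  have hy32 : 32 ≤ y := (le_max_left _ _).trans ((le_max_right _ _).trans hy)
  have hy2k : (2 : ℝ) ^ (k + 2) ≤ y := (le_max_right _ _).trans ((le_max_right _ _).trans hy)
  have hypos : 0 < y := by linarith
  have hrpos : (0 : ℝ) < r := (Real.exp_pos _).trans_le hr
  set a : ℝ := Real.log r with ha
  have hra : (r : ℝ) = Real.exp a := (Real.exp_log hrpos).symm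
  have hay : y ^ (k + 1) ≤ a := by
    rw [ha, Real.le_log_iff_exp_le hrpos]
    exact hr
  have ha0 : 0 ≤ a := le_trans (by positivity) hay
  have hr1 : (1 : ℝ) ≤ r := by
    rw [hra]
    exact Real.one_le_exp ha0
  set h : ℝ := Real.log (4 * y) with hh
  have hhe : 4 * y = Real.exp h := (Real.exp_log (by linarith)).symm
  have hh0 : 0 ≤ h := Real.log_nonneg (by linarith)
  have hhy : h ≤ 1 / 8 * y := by
    rw [hh, Real.log_mul (by norm_num) hypos.ne']
    have h1 : Real.log 4 ≤ 2 := by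
      have h2 : Real.log 4 = 2 * Real.log 2 := by
        rw [show (4 : ℝ) = 2 ^ 2 by norm_num, Real.log_pow]
        norm_num
      have h3 := Real.log_two_lt_d9
      rw [h2]
      linarith
    linarith
  -- the first factor
  have hN : ((d * r + 1 + d - 2 : ℕ) : ℝ) ≤ Real.exp (h + a) := by
    have h1 : d * r + 1 + d - 2 ≤ d * r + d := by omega
    have h2 : ((d * r + 1 + d - 2 : ℕ) : ℝ) ≤ ((d * r + d : ℕ) : ℝ) := Nat.cast_le.2 h1
    push_cast at h2
    have h3 : (d : ℝ) * r ≤ y * r := mul_le_mul_of_nonneg_right hdy hrpos.le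
    have h4 : y ≤ y * r := le_mul_of_one_le_right (by linarith) hr1
    rw [Real.exp_add, ← hhe, ← hra]
    have h5 : 0 ≤ y * r := by positivity
    linarith
  have hA : (((d * r + 1 + d - 2).choose (d - 1) : ℕ) : ℝ) ≤
      Real.exp (((d : ℝ) - 1) * (h + a)) := by
    have h1 : (((d * r + 1 + d - 2).choose (d - 1) : ℕ) : ℝ) ≤
        ((d * r + 1 + d - 2 : ℕ) : ℝ) ^ (d - 1) := by
      exact_mod_cast Nat.choose_le_pow _ _
    refine h1.trans ((pow_le_pow_left₀ (Nat.cast_nonneg _) hN _).trans (le_of_eq ?_))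
    rw [← Real.exp_nat_mul]
    congr 2
    rw [Nat.cast_sub hd]
    simp
  -- the second factor
  have hB : ((2 ^ ((k + d).choose d) : ℕ) : ℝ) ≤ Real.exp ((2 * y) ^ k) := by
    have h1 : (((k + d).choose d : ℕ) : ℝ) ≤ (2 * y) ^ k := by
      have h2 : (k + d).choose d = (k + d).choose k := by
        rw [Nat.choose_symm_add]
      rw [h2]
      have h3 : (((k + d).choose k : ℕ) : ℝ) ≤ ((k + d : ℕ) : ℝ) ^ k := by
        exact_mod_cast Nat.choose_le_pow _ _
      refine h3.trans (pow_le_pow_left₀ (Nat.cast_nonneg _) ?_ _)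
      push_cast
      linarith
    have h2 : (2 : ℝ) ≤ Real.exp 1 := by
      have := Real.add_one_le_exp (1 : ℝ)
      linarith
    push_cast
    refine (pow_le_pow_left₀ (by norm_num) h2 _).trans ?_
    rw [← Real.exp_nat_mul, mul_one]
    exact Real.exp_le_exp.2 h1
  -- the third factor
  have hC : (2 * S / r) ^ d ≤ Real.exp (d * (h - a)) := by
    rw [Real.exp_nat_mul]
    refine pow_le_pow_left₀ (by positivity) ?_ _
    rw [Real.exp_sub, ← hra, ← hhe]
    exact div_le_div_of_nonneg_right (by linarith) hrpos.le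
  -- the exponents
  have hE : ((d : ℝ) - 1) * (h + a) + (2 * y) ^ k + d * (h - a) ≤ -(2 * y) := by
    have h1 : ((d : ℝ) - 1) * (h + a) + d * (h - a) = 2 * (d * h) - h - a := by ring
    have h2 : (d : ℝ) * h ≤ y * (1 / 8 * y) := mul_le_mul hdy hhy hh0 hypos.le
    have h3 : y ^ 2 ≤ y ^ (k + 1) := pow_le_pow_right₀ (by linarith) (by omega)
    have h4 : 4 * (2 * y) ^ k ≤ y ^ (k + 1) := by
      calc 4 * (2 * y) ^ k = 2 ^ (k + 2) * y ^ k := by rw [mul_pow]; ring
        _ ≤ y * y ^ k := mul_le_mul_of_nonneg_right hy2k (by positivity)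
        _ = y ^ (k + 1) := by ring
    nlinarith
  have hprod : (((d * r + 1 + d - 2).choose (d - 1) * 2 ^ ((k + d).choose d) : ℕ) : ℝ) *
      (2 * S / r) ^ d ≤ Real.exp (((d : ℝ) - 1) * (h + a)) * Real.exp ((2 * y) ^ k) *
        Real.exp (d * (h - a)) := by
    rw [Nat.cast_mul]
    have h1 : 0 ≤ (2 * S / r) ^ d := by positivity
    exact mul_le_mul (mul_le_mul hA hB (Nat.cast_nonneg _) (Real.exp_pos _).le) hC h1
      (by positivity)
  refine hprod.trans ?_
  rw [← Real.exp_add, ← Real.exp_add]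
  exact Real.exp_le_exp.2 hE

theorem growS (k : ℕ) (hk : 0 < k) (κ ε : ℝ) (hκ : 0 < κ) (hκ1 : κ < 1) (hε : 0 < ε) :
    ∃ X0 : ℕ, ∀ x : Fin k → ℂ, AlgebraicIndependent ℚ x → ∀ lam : ℂ,
      IsAlgebraic ℚ (Complex.exp lam) → ∀ X : ℕ, X0 ≤ X →
      ({a : ℕ | (1 ≤ a ∧ a ≤ X) ∧
        Rel (Fin (k + 1)) ⌊κ * Real.log (Real.log X)⌋₊
          (Fin.cons (lam + ((Real.log (a : ℝ) : ℝ) : ℂ)) x)}.ncard : ℝ) ≤
        X * Real.exp (-((1 - κ + κ * Real.log κ - ε) * Real.log (Real.log X))) := by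
  classical
  obtain ⟨CR, hCR, hgen⟩ := gen_rank
  obtain ⟨C1, hC1, hSb⟩ := S_bounds k
  obtain ⟨y0, hy0⟩ := asymS k hk
  have hlκ : Real.log κ < 0 := Real.log_neg hκ hκ1
  have hκlκ : κ * Real.log κ < 0 := mul_neg_of_pos_of_neg hκ hlκ
  have e1 := tendsto_loglog.eventually (ev_poly_exp 1 0
    (show 1 - κ + κ * Real.log κ - ε < 2 by linarith))
  have e2 := tendsto_loglog.eventually (ev_poly_exp (CR * Real.exp C1) (k + 1)
    (show 1 - κ + κ * Real.log κ - ε < 1 - κ + κ * Real.log κ by linarith))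
  obtain ⟨X0, hX0⟩ := eventually_atTop.1 (hSb.and (e1.and (e2.and
    (tendsto_loglog.eventually ((eventually_ge_atTop (1 / κ)).and
      (eventually_ge_atTop y0))))))
  refine ⟨X0, fun x hx lam hlam X hX => ?_⟩
  obtain ⟨a1, a2, a3, a4, a5⟩ := hX0 X hX
  obtain ⟨hy1, hX4, hS⟩ := a1 _ rfl
  set y : ℝ := Real.log (Real.log X) with hy
  have hypos : 0 < y := by linarith
  have hXpos : (0 : ℝ) < X := by linarith
  have hκy : 1 ≤ κ * y := by
    have h1 : 1 / κ ≤ y := a4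
    rw [div_le_iff₀ hκ] at h1
    linarith
  set d : ℕ := ⌊κ * y⌋₊ with hd
  have hd1 : 0 < d := Nat.floor_pos.2 hκy
  have hdle : (d : ℝ) ≤ κ * y := Nat.floor_le (by positivity)
  have hdy : (d : ℝ) ≤ y := by nlinarith
  set r : ℕ := ⌈Real.exp (y ^ (k + 1))⌉₊ with hr
  have hrle : Real.exp (y ^ (k + 1)) ≤ r := Nat.le_ceil _
  have hyk1 : 1 ≤ y ^ (k + 1) := one_le_pow₀ hy1
  have hr3' : 3 ≤ r := by
    have h1 : (2 : ℝ) < Real.exp (y ^ (k + 1)) := by
      have h2 := Real.exp_one_gt_d9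
      have h3 := Real.exp_le_exp.2 hyk1
      linarith
    have h2 : (2 : ℝ) < r := by linarith
    exact_mod_cast h2
  have hr3 : (3 : ℝ) ≤ r := by exact_mod_cast hr3'
  have hrpos : 0 < r := by omega
  have hrr : (0 : ℝ) < r := by linarith
  have hrub : (r : ℝ) ≤ Real.exp (2 * y ^ (k + 1)) := by
    have h12 : (r : ℝ) < Real.exp (y ^ (k + 1)) + 1 :=
      Nat.ceil_lt_add_one (Real.exp_pos _).le
    have h13 : Real.exp (2 * y ^ (k + 1)) = Real.exp (y ^ (k + 1)) * Real.exp (y ^ (k + 1)) := by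
      rw [← Real.exp_add]
      ring_nf
    have h14 : 2 ≤ Real.exp (y ^ (k + 1)) := by
      have h2 := Real.exp_one_gt_d9
      have h3 := Real.exp_le_exp.2 hyk1
      linarith
    rw [h13]
    nlinarith
  obtain ⟨hS1, hS2, hS3, hqX⟩ := hS r hr3' hrub
  set J : ℕ := Nat.sqrt X / r with hJ
  set S : ℝ := ∑ i ∈ Finset.range (J * r), 1 / (q (r + i) : ℝ) with hSdef
  set K : ℝ := (((d * r + 1 + d - 2).choose (d - 1) * 2 ^ ((k + d).choose d) : ℕ) : ℝ) with hK
  have hK0 : 0 ≤ K := by positivity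
  have hX3 : 3 ≤ X := by
    have : (3 : ℝ) ≤ X := by linarith
    exact_mod_cast this
  have h := hgen (fun i => q (r + i)) (fun i => q_prime _)
    (fun i j hij => q_strictMono (by omega)) d r J hrpos K hK0
    {a : ℕ | Rel (Fin (k + 1)) d (Fin.cons (lam + ((Real.log (a : ℝ) : ℝ) : ℂ)) x)}
    (fun b hb T hT hTc => by
      have h12 := heredS hk hd1 x lam hlam T hT (not_rel_of_algInd hx _) b hb
      have h13 : {T' : Finset ℕ | T' ⊆ T ∧ T'.card = d ∧ b * ∏ p ∈ T', p ∈ {a : ℕ |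
          Rel (Fin (k + 1)) d (Fin.cons (lam + ((Real.log (a : ℝ) : ℝ) : ℂ)) x)}}.ncard ≤
          (T.card + 1 + d - 2).choose (d - 1) * 2 ^ ((k + d).choose d) := by
        refine le_trans (Set.ncard_le_ncard ?_ ?_) h12
        · rintro T' ⟨h1, -, h3⟩
          exact ⟨h1, h3⟩
        · refine (Finset.finite_toSet T.powerset).subset fun T' hT' => ?_
          rw [Finset.mem_coe, Finset.mem_powerset]
          exact hT'.1
      have h14 : (T.card + 1 + d - 2).choose (d - 1) ≤ (d * r + 1 + d - 2).choose (d - 1) :=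
        Nat.choose_le_choose _ (by omega)
      rw [hK]
      exact_mod_cast h13.trans (Nat.mul_le_mul_right _ h14))
    X hX3 hqX κ hκ hκ1.le
  have e : {a : ℕ | (1 ≤ a ∧ a ≤ X) ∧
      Rel (Fin (k + 1)) d (Fin.cons (lam + ((Real.log (a : ℝ) : ℝ) : ℂ)) x)} =
      {a : ℕ | a ∈ {a : ℕ | Rel (Fin (k + 1)) d (Fin.cons (lam + ((Real.log (a : ℝ) : ℝ) : ℂ)) x)} ∧
        1 ≤ a ∧ a ≤ X} := by
    ext a
    constructor
    · rintro ⟨⟨h1, h2⟩, h3⟩
      exact ⟨h3, h1, h2⟩
    · rintro ⟨h3, h1, h2⟩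
      exact ⟨⟨h1, h2⟩, h3⟩
  rw [e]
  refine h.trans ?_
  have hS0 : 0 ≤ S := by linarith
  have hq0 : 1 / (q (r + 0) : ℝ) ≤ S / r := by
    have h12 : (r : ℝ) ≤ q (r + 0) := by
      have := q_strictMono.le_apply (x := r)
      exact_mod_cast this
    calc 1 / (q (r + 0) : ℝ) ≤ 1 / r := one_div_le_one_div_of_le hrr h12
      _ ≤ S / r := div_le_div_of_nonneg_right hS3 hrr.le
  have hterm1 : K * X * (1 / (q (r + 0) : ℝ) + S / r) ^ d ≤ X * Real.exp (-(2 * y)) := by
    have h13 : (1 / (q (r + 0) : ℝ) + S / r) ^ d ≤ (2 * S / r) ^ d := by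
      refine pow_le_pow_left₀ (by positivity) ?_ d
      calc 1 / (q (r + 0) : ℝ) + S / r ≤ S / r + S / r := by linarith
        _ = 2 * S / r := by ring
    have h14 := hy0 y a5 d r S hd1 hdy hrle hS0 hS2
    calc K * X * (1 / (q (r + 0) : ℝ) + S / r) ^ d ≤ K * X * (2 * S / r) ^ d :=
          mul_le_mul_of_nonneg_left h13 (by positivity)
      _ = X * (K * (2 * S / r) ^ d) := by ring
      _ ≤ _ := mul_le_mul_of_nonneg_left h14 hXpos.le
  have hterm2 := second_term (X := X) (u := d) (m := k + 1) hCR.le hXpos.le hκ hκ1.le hy1 hC1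
    (S := S) (y := y) (by push_cast; linarith)
  have hκd : (κ ^ d)⁻¹ * Real.exp (-((1 - κ) * y)) ≤
      Real.exp (-((1 - κ + κ * Real.log κ) * y)) := by
    have h1 : κ ^ d = Real.exp (d * Real.log κ) := by
      rw [mul_comm, Real.exp_mul, Real.exp_log hκ, Real.rpow_natCast]
    rw [h1, ← Real.exp_neg, ← Real.exp_add]
    refine Real.exp_le_exp.2 ?_
    have h2 : κ * y * Real.log κ ≤ d * Real.log κ :=
      mul_le_mul_of_nonpos_right hdle hlκ.le
    nlinarith
  have a2' : X * Real.exp (-(2 * y)) ≤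
      X * (1 / 2 * Real.exp (-((1 - κ + κ * Real.log κ - ε) * y))) := by
    refine mul_le_mul_of_nonneg_left ?_ hXpos.le
    rw [pow_zero, mul_one, one_mul] at a2
    exact a2
  have a3' : X * (CR * Real.exp C1 * y ^ (k + 1) * ((κ ^ d)⁻¹ * Real.exp (-((1 - κ) * y)))) ≤
      X * (1 / 2 * Real.exp (-((1 - κ + κ * Real.log κ - ε) * y))) := by
    refine mul_le_mul_of_nonneg_left (le_trans ?_ a3) hXpos.le
    exact mul_le_mul_of_nonneg_left hκd (by positivity)
  calc _ ≤ X * (1 / 2 * Real.exp (-((1 - κ + κ * Real.log κ - ε) * y))) +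
        X * (1 / 2 * Real.exp (-((1 - κ + κ * Real.log κ - ε) * y))) :=
        add_le_add (hterm1.trans a2') (hterm2.trans a3')
    _ = _ := by ring

end Pool.Agent.QDen
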