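import Mathlib

/-! # A real inequality for theorem D+ -/

set_option autoImplicit false

namespace Pool.Agent.QDen

theorem asym (k : ℕ) (ε : ℝ) (hε : 0 < ε) (hε1 : ε < 1) : ∃ y0 : ℝ, ∀ y : ℝ, y0 ≤ y →
    ∀ (d u r : ℕ) (L : ℝ), (d : ℝ) ≤ (1 - ε) * y → (1 - ε / 2) * y ≤ u → (u : ℝ) ≤ y →
      Real.exp (y ^ (k + 1)) ≤ r → 1 ≤ L → L ≤ 2 * y →
      (((u * r + 1 + d - 2).choose (d - 1) * 2 ^ ((k + d).choose d) : ℕ) : ℝ) *
        (2 * L / r) ^ u ≤ ε / 2 := by
  set c : ℝ := - Real.log (ε / 2) with hc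
  have hc0 : 0 ≤ c := by
    rw [hc, neg_nonneg]
    exact Real.log_nonpos (by positivity) (by linarith)
  set s0 : ℝ := 2 / ε * (8 + 2 ^ k + c) with hs0
  have hs00 : 0 ≤ s0 := by positivity
  refine ⟨max (max 1 k) (s0 ^ 2), fun y hy d u r L hd hu1 hu2 hr hL1 hL2 => ?_⟩
  have hy1 : 1 ≤ y := (le_max_left _ _).trans ((le_max_left _ _).trans hy)
  have hyk : (k : ℝ) ≤ y := (le_max_right _ _).trans ((le_max_left _ _).trans hy)
  have hys : s0 ^ 2 ≤ y := (le_max_right _ _).trans hy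
  set s : ℝ := √y with hs
  have hss : s ^ 2 = y := Real.sq_sqrt (by linarith)
  have hs1 : 1 ≤ s := by
    rw [hs]
    exact Real.one_le_sqrt.2 hy1
  have hs2 : s0 ≤ s := by
    rw [hs]
    exact Real.le_sqrt_of_sq_le hys
  -- the logarithm of `r`
  have hrpos : (0 : ℝ) < r := (Real.exp_pos _).trans_le hr
  set a : ℝ := Real.log r with ha
  have hra : (r : ℝ) = Real.exp a := (Real.exp_log hrpos).symm
  have hay : y ^ (k + 1) ≤ a := by
    rw [ha, Real.le_log_iff_exp_le hrpos]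
    exact hr
  have ha0 : 0 ≤ a := le_trans (by positivity) hay
  have hr1 : (1 : ℝ) ≤ r := by
    rw [hra]
    exact Real.one_le_exp ha0
  -- `4 y ≤ exp (4 s)`
  have h4 : 4 * y ≤ Real.exp (4 * s) := by
    have h1 : 2 * s + 1 ≤ Real.exp (2 * s) := Real.add_one_le_exp _
    have h2 : Real.exp (4 * s) = Real.exp (2 * s) ^ 2 := by
      rw [← Real.exp_nat_mul]
      congr 1
      push_cast
      ring
    rw [h2, ← hss]
    nlinarith
  have hd1 : (d : ℝ) ≤ y := by nlinarith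
  -- the first factor
  have hX1 : 1 ≤ 2 * y * r := by nlinarith
  have hX2 : 2 * y * r ≤ Real.exp (4 * s + a) := by
    rw [Real.exp_add, ← hra]
    exact mul_le_mul_of_nonneg_right (by linarith) hrpos.le
  have hN : ((u * r + 1 + d - 2 : ℕ) : ℝ) ≤ 2 * y * r := by
    have h1 : u * r + 1 + d - 2 ≤ u * r + d := by omega
    have h2 : ((u * r + 1 + d - 2 : ℕ) : ℝ) ≤ ((u * r + d : ℕ) : ℝ) := Nat.cast_le.2 h1
    push_cast at h2
    have h3 : (u : ℝ) * r ≤ y * r := mul_le_mul_of_nonneg_right hu2 hrpos.le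
    have h4 : y ≤ y * r := le_mul_of_one_le_right (by linarith) hr1
    linarith
  have hA : (((u * r + 1 + d - 2).choose (d - 1) : ℕ) : ℝ) ≤ Real.exp (d * (4 * s + a)) := by
    have h1 : (((u * r + 1 + d - 2).choose (d - 1) : ℕ) : ℝ) ≤
        ((u * r + 1 + d - 2 : ℕ) : ℝ) ^ (d - 1) := by
      exact_mod_cast Nat.choose_le_pow _ _
    refine h1.trans ((pow_le_pow_left₀ (Nat.cast_nonneg _) hN _).trans ?_)
    refine (pow_le_pow_right₀ hX1 (Nat.sub_le d 1)).trans ?_
    rw [Real.exp_nat_mul]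
    exact pow_le_pow_left₀ (by linarith) hX2 _
  -- the second factor
  have hB : ((2 ^ ((k + d).choose d) : ℕ) : ℝ) ≤ Real.exp ((2 * y) ^ k) := by
    have h1 : (((k + d).choose d : ℕ) : ℝ) ≤ (2 * y) ^ k := by
      have h2 : (k + d).choose d = (k + d).choose k := by
        rw [Nat.choose_symm_add]
      rw [h2]
      have h3 : (((k + d).choose k : ℕ) : ℝ) ≤ ((k + d : ℕ) : ℝ) ^ k := by
        exact_mod_cast Nat.choose_le_pow _ _
      refine h3.trans (pow_le_pow_left₀ (Nat.cast_nonneg _) ?_ _)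
      push_cast
      linarith
    have h2 : (2 : ℝ) ≤ Real.exp 1 := by
      have := Real.add_one_le_exp (1 : ℝ)
      linarith
    push_cast
    refine (pow_le_pow_left₀ (by norm_num) h2 _).trans ?_
    rw [← Real.exp_nat_mul, mul_one]
    exact Real.exp_le_exp.2 h1
  -- the third factor
  have hC : (2 * L / r) ^ u ≤ Real.exp (u * (4 * s - a)) := by
    rw [Real.exp_nat_mul]
    refine pow_le_pow_left₀ (by positivity) ?_ _
    rw [Real.exp_sub, ← hra]
    exact div_le_div_of_nonneg_right (by linarith) hrpos.le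
  -- the exponents
  have hE : d * (4 * s + a) + (2 * y) ^ k + u * (4 * s - a) ≤ - c := by
    have h1 : (ε / 2) * y ≤ (u : ℝ) - d := by nlinarith
    have h2 : ε / 2 * y * y ^ (k + 1) ≤ ((u : ℝ) - d) * a :=
      mul_le_mul h1 hay (by positivity) (le_trans (by positivity) h1)
    have h3 : (d : ℝ) + u ≤ 2 * y := by linarith
    have h4 : 4 * s * ((d : ℝ) + u) ≤ 4 * s * (2 * y) :=
      mul_le_mul_of_nonneg_left h3 (by positivity)
    have h5 : ε / 2 * y * y ^ (k + 1) = ε / 2 * s * s ^ (2 * k + 3) := by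
      rw [← hss, ← pow_mul]
      ring
    have h6 : 4 * s * (2 * y) = 8 * s ^ 3 := by
      rw [← hss]
      ring
    have h7 : (2 * y) ^ k = 2 ^ k * s ^ (2 * k) := by
      rw [← hss, mul_pow, ← pow_mul]
    have h8 : s ^ 3 ≤ s ^ (2 * k + 3) := pow_le_pow_right₀ hs1 (by omega)
    have h9 : s ^ (2 * k) ≤ s ^ (2 * k + 3) := pow_le_pow_right₀ hs1 (by omega)
    have h10 : 1 ≤ s ^ (2 * k + 3) := one_le_pow₀ hs1
    have h11 : 8 + 2 ^ k + c ≤ ε / 2 * s := by
      have : ε / 2 * s0 ≤ ε / 2 * s := mul_le_mul_of_nonneg_left hs2 (by positivity)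
      refine le_trans (le_of_eq ?_) this
      rw [hs0]
      field_simp
    have h12 : (8 + 2 ^ k + c) * s ^ (2 * k + 3) ≤ ε / 2 * s * s ^ (2 * k + 3) :=
      mul_le_mul_of_nonneg_right h11 (by linarith)
    have h13 : c ≤ c * s ^ (2 * k + 3) := le_mul_of_one_le_right hc0 h10
    have h14 : (2 : ℝ) ^ k * s ^ (2 * k) ≤ 2 ^ k * s ^ (2 * k + 3) :=
      mul_le_mul_of_nonneg_left h9 (by positivity)
    rw [h5] at h2
    rw [h6] at h4
    rw [h7]
    nlinarith
  have hprod : (((u * r + 1 + d - 2).choose (d - 1) * 2 ^ ((k + d).choose d) : ℕ) : ℝ) *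
      (2 * L / r) ^ u ≤ Real.exp (d * (4 * s + a)) * Real.exp ((2 * y) ^ k) *
        Real.exp (u * (4 * s - a)) := by
    rw [Nat.cast_mul]
    have h1 : 0 ≤ (2 * L / r) ^ u := by positivity
    exact mul_le_mul (mul_le_mul hA hB (Nat.cast_nonneg _) (Real.exp_pos _).le) hC h1
      (by positivity)
  refine hprod.trans ?_
  rw [← Real.exp_add, ← Real.exp_add]
  calc Real.exp (d * (4 * s + a) + (2 * y) ^ k + u * (4 * s - a)) ≤ Real.exp (-c) :=
        Real.exp_le_exp.2 hE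
    _ = ε / 2 := by
        rw [hc, neg_neg, Real.exp_log (by positivity)]

end Pool.Agent.QDen
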