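import Pool.Agent.QDen.Turan

/-!
# Sets of natural numbers which contain few of the products `b ∏ T` have density zero
-/

set_option autoImplicit false

open Finset

namespace Pool.Agent.QDen

theorem Dens_q_prime (i : ℕ) : (q i).Prime := Nat.prime_nth_prime i

theorem Dens_q_strictMono : StrictMono q := Nat.nth_strictMono Nat.infinite_setOf_prime

theorem Dens_q_inj : Function.Injective q := Dens_q_strictMono.injective

theorem Dens_q_pos (i : ℕ) : 0 < q i := (Dens_q_prime i).pos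

/-- the pieces in which the elements of `T` lie -/
noncomputable def Dens_tau (d r : ℕ) (T : Finset ℕ) : Fin d → ℕ := by
  classical
  exact if h : T.card = d then fun j => ((T.equivFinOfCardEq h).symm j : ℕ) / r else 0

theorem Dens_tau_apply {d r : ℕ} {T : Finset ℕ} (h : T.card = d) (j : Fin d) :
    Dens_tau d r T j = ((T.equivFinOfCardEq h).symm j : ℕ) / r := by
  unfold Dens_tau
  rw [dif_pos h]

theorem Dens_prod_eq {d : ℕ} {T : Finset ℕ} (h : T.card = d) (f : ℕ → ℕ) :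
    ∏ j : Fin d, f ((T.equivFinOfCardEq h).symm j : ℕ) = ∏ i ∈ T, f i := by
  rw [← Finset.prod_coe_sort T f]
  exact Fintype.prod_equiv (T.equivFinOfCardEq h).symm _ _ fun j => rfl

theorem Dens_prod_le {d r : ℕ} {T : Finset ℕ} (h : T.card = d) :
    ∏ j : Fin d, q (Dens_tau d r T j * r) ≤ ∏ i ∈ T, q i := by
  rw [← Dens_prod_eq h q]
  refine Finset.prod_le_prod' fun j _ => ?_
  rw [Dens_tau_apply h]
  exact Dens_q_strictMono.monotone (Nat.div_mul_le_self _ _)

theorem Dens_tau_mem {d r J : ℕ} {T : Finset ℕ} (h : T.card = d)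
    (hT : T ⊆ Finset.range (J * r)) :
    Dens_tau d r T ∈ Fintype.piFinset fun _ : Fin d => Finset.range J := by
  rw [Fintype.mem_piFinset]
  intro j
  rw [Dens_tau_apply h, Finset.mem_range]
  have := hT ((T.equivFinOfCardEq h).symm j).2
  rw [Finset.mem_range] at this
  exact Nat.div_lt_of_lt_mul (by rwa [mul_comm] at this)

theorem Dens_subset {d r : ℕ} (hr : 0 < r) {T : Finset ℕ} (h : T.card = d) {τ : Fin d → ℕ}
    (hτ : Dens_tau d r T = τ) :
    T ⊆ Finset.univ.biUnion fun j : Fin d => Finset.Ico (τ j * r) (τ j * r + r) := by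
  intro i hi
  rw [Finset.mem_biUnion]
  refine ⟨T.equivFinOfCardEq h ⟨i, hi⟩, Finset.mem_univ _, ?_⟩
  rw [← hτ, Dens_tau_apply h, Equiv.symm_apply_apply, Finset.mem_Ico]
  refine ⟨Nat.div_mul_le_self _ _, ?_⟩
  exact Nat.lt_div_mul_add hr

/-- **(M3c)** the fibre count -/
theorem Dens_fibre {d r : ℕ} (hr : 0 < r) {K : ℝ} {B : Set ℕ}
    (hB : ∀ b : ℕ, b ≠ 0 → ∀ S : Finset ℕ, (∀ p ∈ S, p.Prime) → S.card ≤ d * r →
      ({T : Finset ℕ | T ⊆ S ∧ T.card = d ∧ b * ∏ p ∈ T, p ∈ B}.ncard : ℝ) ≤ K)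
    {b : ℕ} (hb : b ≠ 0) (τ : Fin d → ℕ) (P : Finset (Finset ℕ))
    (hP : ∀ T ∈ P, T.card = d ∧ Dens_tau d r T = τ ∧ b * ∏ i ∈ T, q i ∈ B) :
    (P.card : ℝ) ≤ K := by
  classical
  set S : Finset ℕ :=
    (Finset.univ.biUnion fun j : Fin d => Finset.Ico (τ j * r) (τ j * r + r)).image q with hS
  have hSp : ∀ p ∈ S, p.Prime := by
    intro p hp
    rw [hS, Finset.mem_image] at hp
    obtain ⟨i, -, rfl⟩ := hp
    exact Dens_q_prime i
  have hSc : S.card ≤ d * r := by
    refine Finset.card_image_le.trans (Finset.card_biUnion_le.trans (le_of_eq ?_))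
    simp
  refine le_trans ?_ (hB b hb S hSp hSc)
  have e : {T : Finset ℕ | T ⊆ S ∧ T.card = d ∧ b * ∏ p ∈ T, p ∈ B} =
      ↑(S.powerset.filter fun T => T.card = d ∧ b * ∏ p ∈ T, p ∈ B) := by
    ext T
    simp
  rw [e, Set.ncard_coe_finset]
  refine Nat.cast_le.2 (Finset.card_le_card_of_injOn (fun T => T.image q) ?_ ?_)
  · intro T hT
    obtain ⟨h1, h2, h3⟩ := hP T hT
    rw [Finset.mem_coe, Finset.mem_filter, Finset.mem_powerset]
    refine ⟨Finset.image_subset_image (Dens_subset hr h1 h2), ?_, ?_⟩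
    · rw [Finset.card_image_of_injective _ Dens_q_inj, h1]
    · rwa [Finset.prod_image fun i _ j _ hij => Dens_q_inj hij]
  · intro T _ T' _ h
    exact Finset.image_injective Dens_q_inj h

/-- **(M3c)** the number of pairs -/
theorem Dens_pairs {d r : ℕ} (hr : 0 < r) (J : ℕ) {K : ℝ} (hK : 0 ≤ K) {B : Set ℕ}
    (hB : ∀ b : ℕ, b ≠ 0 → ∀ S : Finset ℕ, (∀ p ∈ S, p.Prime) → S.card ≤ d * r →
      ({T : Finset ℕ | T ⊆ S ∧ T.card = d ∧ b * ∏ p ∈ T, p ∈ B}.ncard : ℝ) ≤ K)
    [DecidablePred (· ∈ B)] (X : ℕ) :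
    ∑ T ∈ Finset.powersetCard d (Finset.range (J * r)),
      (((Finset.Icc 1 X).filter fun a => a ∈ B ∧ ∏ i ∈ T, q i ∣ a).card : ℝ) ≤
      K * X * (∑ t ∈ Finset.range J, 1 / (q (t * r) : ℝ)) ^ d := by
  classical
  set Q : (Fin d → ℕ) → ℕ := fun τ => ∏ j, q (τ j * r) with hQ
  have hQpos : ∀ τ, 0 < Q τ := fun τ => Finset.prod_pos fun j _ => Dens_q_pos _
  have hPpos : ∀ T : Finset ℕ, 0 < ∏ i ∈ T, q i := fun T => Finset.prod_pos fun j _ => Dens_q_pos _
  -- step 1
  have h1 : ∀ T ∈ Finset.powersetCard d (Finset.range (J * r)),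
      (((Finset.Icc 1 X).filter fun a => a ∈ B ∧ ∏ i ∈ T, q i ∣ a).card : ℝ) ≤
        ∑ b ∈ Finset.Icc 1 X,
          if b * ∏ i ∈ T, q i ∈ B ∧ b * Q (Dens_tau d r T) ≤ X then (1 : ℝ) else 0 := by
    intro T hT
    rw [Finset.mem_powersetCard] at hT
    rw [← Finset.sum_filter, Finset.sum_const, nsmul_eq_mul, mul_one]
    refine Nat.cast_le.2 (Finset.card_le_card_of_injOn (fun a => a / ∏ i ∈ T, q i) ?_ ?_)
    · intro a ha
      rw [Finset.mem_coe, Finset.mem_filter, Finset.mem_Icc] at ha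
      obtain ⟨⟨ha1, haX⟩, haB, c, rfl⟩ := ha
      have hc : 0 < c := by
        rcases Nat.eq_zero_or_pos c with h | h
        · rw [h, mul_zero] at ha1; omega
        · exact h
      have hq : (∏ i ∈ T, q i) * c / ∏ i ∈ T, q i = c := Nat.mul_div_cancel_left c (hPpos T)
      rw [Finset.mem_coe, Finset.mem_filter, Finset.mem_Icc]
      simp only [hq]
      refine ⟨⟨hc, ?_⟩, ?_, ?_⟩
      · exact (Nat.le_mul_of_pos_left c (hPpos T)).trans haX
      · rwa [mul_comm]
      · calc c * Q (Dens_tau d r T) ≤ c * ∏ i ∈ T, q i :=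
              Nat.mul_le_mul_left c (Dens_prod_le hT.2)
          _ = (∏ i ∈ T, q i) * c := mul_comm _ _
          _ ≤ X := haX
    · intro a ha a' ha' h
      rw [Finset.mem_coe, Finset.mem_filter] at ha ha'
      obtain ⟨c, rfl⟩ := ha.2.2
      obtain ⟨c', rfl⟩ := ha'.2.2
      simp only [Nat.mul_div_cancel_left _ (hPpos T)] at h
      rw [h]
  refine (Finset.sum_le_sum h1).trans ?_
  rw [Finset.sum_comm]
  -- step 2
  have h2 : ∀ b ∈ Finset.Icc 1 X, ∑ T ∈ Finset.powersetCard d (Finset.range (J * r)),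
      (if b * ∏ i ∈ T, q i ∈ B ∧ b * Q (Dens_tau d r T) ≤ X then (1 : ℝ) else 0) ≤
      ∑ τ ∈ Fintype.piFinset fun _ : Fin d => Finset.range J, if b * Q τ ≤ X then K else 0 := by
    intro b hb
    rw [Finset.mem_Icc] at hb
    rw [← Finset.sum_fiberwise_of_maps_to (g := Dens_tau d r)
      (t := Fintype.piFinset fun _ : Fin d => Finset.range J)
      (fun T hT => Dens_tau_mem (Finset.mem_powersetCard.1 hT).2 (Finset.mem_powersetCard.1 hT).1)]
    refine Finset.sum_le_sum fun τ _ => ?_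
    split_ifs with hX
    · rw [← Finset.sum_filter, Finset.sum_const, nsmul_eq_mul, mul_one]
      refine Dens_fibre hr hB (by omega : b ≠ 0) τ _ fun T hT => ?_
      rw [Finset.mem_filter, Finset.mem_filter] at hT
      exact ⟨(Finset.mem_powersetCard.1 hT.1.1).2, hT.1.2, hT.2.1⟩
    · refine le_of_eq (Finset.sum_eq_zero fun T hT => ?_)
      rw [Finset.mem_filter] at hT
      rw [if_neg]
      rw [hT.2]
      exact fun h => hX h.2
  refine (Finset.sum_le_sum h2).trans ?_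
  rw [Finset.sum_comm]
  -- step 3
  have h3 : ∀ τ ∈ Fintype.piFinset fun _ : Fin d => Finset.range J,
      ∑ b ∈ Finset.Icc 1 X, (if b * Q τ ≤ X then K else 0) ≤
        K * X * ∏ j, (1 / (q (τ j * r) : ℝ)) := by
    intro τ _
    rw [← Finset.sum_filter, Finset.sum_const, nsmul_eq_mul, mul_comm]
    have hc : (((Finset.Icc 1 X).filter fun b => b * Q τ ≤ X).card : ℝ) ≤ X / Q τ := by
      refine le_trans ?_ (Nat.cast_div_le (m := X) (n := Q τ))
      have : (Finset.Icc 1 X).filter (fun b => b * Q τ ≤ X) ⊆ Finset.Icc 1 (X / Q τ) := by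
        intro b hb
        rw [Finset.mem_filter, Finset.mem_Icc] at hb
        rw [Finset.mem_Icc]
        exact ⟨hb.1.1, (Nat.le_div_iff_mul_le (hQpos τ)).2 hb.2⟩
      have h4 := Finset.card_le_card this
      rw [Nat.card_Icc, Nat.add_sub_cancel] at h4
      exact Nat.cast_le.2 h4
    have e : ∏ j, (1 / (q (τ j * r) : ℝ)) = 1 / (Q τ : ℝ) := by
      rw [hQ]
      push_cast
      rw [Finset.prod_div_distrib, Finset.prod_const_one]
    rw [e]
    calc K * _ ≤ K * ((X : ℝ) / Q τ) := mul_le_mul_of_nonneg_left hc hK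
      _ = _ := by ring
  refine (Finset.sum_le_sum h3).trans (le_of_eq ?_)
  rw [← Finset.mul_sum]
  congr 1
  rw [← Finset.prod_univ_sum (fun _ : Fin d => Finset.range J)
    (fun _ t => 1 / (q (t * r) : ℝ)), Finset.prod_const, Finset.card_univ, Fintype.card_fin]

/-- the thinned sum -/
theorem Dens_thin {r : ℕ} (hr : 0 < r) (J : ℕ) :
    ∑ t ∈ Finset.range (J + 1), 1 / (q (t * r) : ℝ) ≤ 1 + L (J * r) / r := by
  have hr0 : (0 : ℝ) < r := Nat.cast_pos.2 hr
  induction J with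
  | zero =>
    rw [zero_add, Finset.sum_range_one, zero_mul]
    have h1 : (1 : ℝ) ≤ q 0 := by exact_mod_cast Dens_q_pos 0
    have h2 : 1 / (q 0 : ℝ) ≤ 1 := by
      rw [div_le_one (by linarith)]
      exact h1
    have h3 : L 0 = 0 := by simp [L]
    rw [h3, zero_div, add_zero]
    exact h2
  | succ J ih =>
    rw [Finset.sum_range_succ]
    have h1 : L ((J + 1) * r) = L (J * r) + ∑ i ∈ Finset.range r, 1 / (q (J * r + i) : ℝ) := by
      unfold L
      rw [add_mul, one_mul, Finset.sum_range_add]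
    have h2 : (r : ℝ) * (1 / (q ((J + 1) * r) : ℝ)) ≤
        ∑ i ∈ Finset.range r, 1 / (q (J * r + i) : ℝ) := by
      rw [← Finset.card_range r, ← nsmul_eq_mul, ← Finset.sum_const, Finset.card_range]
      refine Finset.sum_le_sum fun i hi => ?_
      rw [Finset.mem_range] at hi
      have h3 : 0 < q (J * r + i) := Dens_q_pos _
      refine one_div_le_one_div_of_le (by exact_mod_cast h3) ?_
      have h4 : q (J * r + i) ≤ q ((J + 1) * r) := by
        apply Dens_q_strictMono.monotone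
        rw [add_mul, one_mul]
        omega
      exact_mod_cast h4
    have h3 : 1 / (q ((J + 1) * r) : ℝ) ≤
        (∑ i ∈ Finset.range r, 1 / (q (J * r + i) : ℝ)) / r := by
      rw [le_div_iff₀ hr0, mul_comm]
      exact h2
    rw [h1, add_div]
    linarith

/-- many divisors -/
theorem Dens_many {d n : ℕ} {a : ℕ} (h1 : (2 * d : ℝ) ≤ L n / 2) (h2 : L n / 2 ≤ w n a) :
    (L n / 4) ^ d / (d.factorial : ℝ) ≤
      ((Finset.powersetCard d (Finset.range n)).filter fun T => ∏ i ∈ T, q i ∣ a).card := by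
  classical
  set W := (Finset.range n).filter fun i => q i ∣ a with hW
  have hsub : Finset.powersetCard d W ⊆
      (Finset.powersetCard d (Finset.range n)).filter fun T => ∏ i ∈ T, q i ∣ a := by
    intro T hT
    rw [Finset.mem_powersetCard] at hT
    rw [Finset.mem_filter, Finset.mem_powersetCard]
    refine ⟨⟨hT.1.trans (Finset.filter_subset _ _), hT.2⟩, ?_⟩
    refine Finset.prod_dvd_of_isRelPrime ?_ ?_
    · intro i _ j _ hij
      exact Nat.coprime_iff_isRelPrime.1 ((Nat.coprime_primes (Dens_q_prime i) (Dens_q_prime j)).2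
        fun h => hij (Dens_q_inj h))
    · intro i hi
      exact (Finset.mem_filter.1 (hT.1 hi)).2
  have hcard := Finset.card_le_card hsub
  rw [Finset.card_powersetCard] at hcard
  have hw : W.card = w n a := rfl
  rw [hw] at hcard
  refine le_trans ?_ (Nat.cast_le.2 hcard)
  have h3 : ((w n a + 1 - d : ℕ) ^ d : ℝ) / (d.factorial : ℝ) ≤ ((w n a).choose d : ℝ) :=
    Nat.pow_le_choose d (w n a)
  refine le_trans ?_ h3
  have h4 : L n / 4 ≤ ((w n a + 1 - d : ℕ) : ℝ) := by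
    have h5 : (2 * d : ℝ) ≤ w n a := h1.trans h2
    have h6 : 2 * d ≤ w n a := by exact_mod_cast h5
    rw [Nat.cast_sub (by omega)]
    push_cast
    linarith
  have h0 : 0 ≤ L n / 4 := by
    have : (0 : ℝ) ≤ 2 * d := by positivity
    linarith
  gcongr

/-- **(M3d)** sets of natural numbers which contain few of the multiples `b ∏ T` have density zero,
uniformly -/
theorem density (d : ℕ) (hd : 0 < d) (K0 ε : ℝ) (hε : 0 < ε) : ∃ r X0 : ℕ, 0 < r ∧
    ∀ B : Set ℕ, (∀ b : ℕ, b ≠ 0 → ∀ S : Finset ℕ, (∀ p ∈ S, p.Prime) → S.card ≤ d * r →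
      ({T : Finset ℕ | T ⊆ S ∧ T.card = d ∧ b * ∏ p ∈ T, p ∈ B}.ncard : ℝ) ≤
        K0 * (r : ℝ) ^ (d - 1)) →
    ∀ X : ℕ, X0 ≤ X → ({a : ℕ | a ∈ B ∧ 1 ≤ a ∧ a ≤ X}.ncard : ℝ) ≤ ε * X := by
  classical
  set K : ℝ := max K0 0 with hK
  have hK0 : 0 ≤ K := le_max_right _ _
  set A : ℝ := (d.factorial : ℝ) * 8 ^ d * K with hA
  have hA0 : 0 ≤ A := by positivity
  -- the choice of `r`
  set r : ℕ := ⌈3 * A / ε⌉₊ + 1 with hr
  have hr0 : 0 < r := by omega
  have hrr : (0 : ℝ) < r := Nat.cast_pos.2 hr0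
  have hrA : A / r ≤ ε / 3 := by
    rw [div_le_iff₀ hrr]
    have h1 : 3 * A / ε ≤ ⌈3 * A / ε⌉₊ := Nat.le_ceil _
    have h2 : (r : ℝ) = ⌈3 * A / ε⌉₊ + 1 := by rw [hr]; push_cast; ring
    have h3 : 3 * A / ε ≤ r := by rw [h2]; linarith
    rw [div_le_iff₀ hε] at h3
    linarith
  -- the choice of `J`
  obtain ⟨n0, hn0⟩ := (Filter.tendsto_atTop.1 tendsto_L
    (max (max (r : ℝ) (4 * d)) (12 / ε))).exists
  set n : ℕ := (n0 + 1) * r with hn
  have hn0n : n0 ≤ n := by
    rw [hn]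
    nlinarith
  have hLn := hn0.trans (L_mono hn0n)
  have hL1 : (r : ℝ) ≤ L n := (le_max_left _ _).trans ((le_max_left _ _).trans hLn)
  have hL2 : (4 * d : ℝ) ≤ L n := (le_max_right _ _).trans ((le_max_left _ _).trans hLn)
  have hL3 : 12 / ε ≤ L n := (le_max_right _ _).trans hLn
  have hLpos : 0 < L n := lt_of_lt_of_le hrr hL1
  refine ⟨r, ⌈24 * n / (ε * L n)⌉₊, hr0, fun B hB X hX => ?_⟩
  have hX0 : (0 : ℝ) ≤ X := Nat.cast_nonneg X
  have hB' : ∀ b : ℕ, b ≠ 0 → ∀ S : Finset ℕ, (∀ p ∈ S, p.Prime) → S.card ≤ d * r →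
      ({T : Finset ℕ | T ⊆ S ∧ T.card = d ∧ b * ∏ p ∈ T, p ∈ B}.ncard : ℝ) ≤
        K * (r : ℝ) ^ (d - 1) := fun b hb S h1 h2 =>
    (hB b hb S h1 h2).trans (mul_le_mul_of_nonneg_right (le_max_left _ _) (by positivity))
  have hp := Dens_pairs hr0 (n0 + 1) (by positivity) hB' X
  rw [← hn] at hp
  -- lower bound of the number of pairs
  set G := (Finset.Icc 1 X).filter fun a => a ∈ B ∧ L n / 2 ≤ w n a with hG
  have hlow : (G.card : ℝ) * ((L n / 4) ^ d / (d.factorial : ℝ)) ≤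
      ∑ T ∈ Finset.powersetCard d (Finset.range n),
        (((Finset.Icc 1 X).filter fun a => a ∈ B ∧ ∏ i ∈ T, q i ∣ a).card : ℝ) := by
    have e1 : ∑ T ∈ Finset.powersetCard d (Finset.range n),
        (((Finset.Icc 1 X).filter fun a => a ∈ B ∧ ∏ i ∈ T, q i ∣ a).card : ℝ) =
        ∑ a ∈ (Finset.Icc 1 X).filter (fun a => a ∈ B),
          (((Finset.powersetCard d (Finset.range n)).filter fun T => ∏ i ∈ T, q i ∣ a).card :
            ℝ) := by
      simp only [Finset.card_filter, Finset.sum_filter, Nat.cast_sum]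
      rw [Finset.sum_comm]
      refine Finset.sum_congr rfl fun a _ => ?_
      by_cases ha : a ∈ B
      · simp [ha]
      · simp [ha]
    rw [e1, ← nsmul_eq_mul, ← Finset.sum_const]
    refine le_trans (Finset.sum_le_sum fun a ha => ?_)
      (Finset.sum_le_sum_of_subset_of_nonneg (s := G) ?_ fun a _ _ => Nat.cast_nonneg _)
    · exact Dens_many (by linarith) (Finset.mem_filter.1 ha).2.2
    · intro a ha
      rw [hG, Finset.mem_filter] at ha
      rw [Finset.mem_filter]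
      exact ⟨ha.1, ha.2.1⟩
  -- upper bound of the thinned sum
  have hthin : ∑ t ∈ Finset.range (n0 + 1), 1 / (q (t * r) : ℝ) ≤ 2 * L n / r := by
    refine (Dens_thin hr0 n0).trans ?_
    have h1 : L (n0 * r) ≤ L n := L_mono (by rw [hn]; nlinarith)
    have h2 : 1 ≤ L n / r := by rw [one_le_div hrr]; exact hL1
    have h3 : L (n0 * r) / r ≤ L n / r := div_le_div_of_nonneg_right h1 hrr.le
    calc 1 + L (n0 * r) / r ≤ L n / r + L n / r := add_le_add h2 h3
      _ = _ := by ring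
  have hthin0 : 0 ≤ ∑ t ∈ Finset.range (n0 + 1), 1 / (q (t * r) : ℝ) :=
    Finset.sum_nonneg fun _ _ => by positivity
  have hGc : (G.card : ℝ) ≤ A * X / r := by
    have h1 : (G.card : ℝ) * ((L n / 4) ^ d / (d.factorial : ℝ)) ≤
        K * (r : ℝ) ^ (d - 1) * X * (2 * L n / r) ^ d := by
      refine hlow.trans (hp.trans ?_)
      gcongr
    have hf : (0 : ℝ) < d.factorial := by exact_mod_cast Nat.factorial_pos d
    have hpos : 0 < (L n / 4) ^ d / (d.factorial : ℝ) := by positivity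
    have h2 : A * X / r * ((L n / 4) ^ d / (d.factorial : ℝ)) =
        K * (r : ℝ) ^ (d - 1) * X * (2 * L n / r) ^ d := by
      have h3 : (r : ℝ) ^ d = r ^ (d - 1) * r := by
        rw [← pow_succ]; congr 1; omega
      rw [hA, div_pow, div_pow, mul_pow, h3]
      have h8 : (8 : ℝ) ^ d = 2 ^ d * 4 ^ d := by rw [← mul_pow]; norm_num
      rw [h8]
      field_simp
    rw [← h2] at h1
    exact le_of_mul_le_mul_right h1 hpos
  -- the other elements
  have hfew := few n X hLpos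
  have e : {a : ℕ | a ∈ B ∧ 1 ≤ a ∧ a ≤ X} =
      ↑((Finset.Icc 1 X).filter fun a => a ∈ B) := by
    ext a
    simp only [Set.mem_setOf_eq, Finset.coe_filter, Finset.mem_Icc]
    tauto
  rw [e, Set.ncard_coe_finset]
  have hsub : (Finset.Icc 1 X).filter (fun a => a ∈ B) ⊆
      G ∪ (Finset.Icc 1 X).filter fun a => (w n a : ℝ) < L n / 2 := by
    intro a ha
    rw [Finset.mem_filter] at ha
    rw [Finset.mem_union, hG, Finset.mem_filter, Finset.mem_filter]
    rcases lt_or_ge (w n a : ℝ) (L n / 2) with h | h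
    · exact Or.inr ⟨ha.1, h⟩
    · exact Or.inl ⟨ha.1, ha.2, h⟩
  have hc1 : (((Finset.Icc 1 X).filter fun a => a ∈ B).card : ℝ) ≤
      G.card + ((Finset.Icc 1 X).filter fun a => (w n a : ℝ) < L n / 2).card := by
    have := (Finset.card_le_card hsub).trans (Finset.card_union_le _ _)
    exact_mod_cast this
  have h4 : 4 * (X : ℝ) / L n ≤ ε / 3 * X := by
    rw [div_le_iff₀ hLpos]
    have h5 : 12 ≤ ε * L n := by
      rw [div_le_iff₀ hε] at hL3
      linarith
    nlinarith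
  have h5 : 8 * (n : ℝ) / L n ≤ ε / 3 * X := by
    have h6 : 24 * n / (ε * L n) ≤ (X : ℝ) := (Nat.le_ceil _).trans (by exact_mod_cast hX)
    rw [div_le_iff₀ (by positivity)] at h6
    rw [div_le_iff₀ hLpos]
    nlinarith
  have h6 : A * X / r ≤ ε / 3 * X := by
    calc A * X / r = A / r * X := by ring
      _ ≤ _ := mul_le_mul_of_nonneg_right hrA hX0
  linarith

end Pool.Agent.QDen
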