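import Pool.Agent.QDen.Dens

/-!
# The fibre count and Turán's inequality for a general increasing sequence of primes
-/

set_option autoImplicit false

open Finset

namespace Pool.Agent.QDen

theorem Gen_prod_le {p : ℕ → ℕ} (hm : StrictMono p) {d r : ℕ} {T : Finset ℕ} (h : T.card = d) :
    ∏ j : Fin d, p (Dens_tau d r T j * r) ≤ ∏ i ∈ T, p i := by
  rw [← Dens_prod_eq h p]
  refine Finset.prod_le_prod' fun j _ => ?_
  rw [Dens_tau_apply h]
  exact hm.monotone (Nat.div_mul_le_self _ _)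

/-- the fibre count -/
theorem Gen_fibre {p : ℕ → ℕ} (hp : ∀ i, (p i).Prime) (hm : StrictMono p) {d r : ℕ} (hr : 0 < r) {K : ℝ} {B : Set ℕ}
    (hB : ∀ b : ℕ, b ≠ 0 → ∀ S : Finset ℕ, (∀ s ∈ S, s.Prime) → S.card ≤ d * r →
      ({T : Finset ℕ | T ⊆ S ∧ T.card = d ∧ b * ∏ s ∈ T, s ∈ B}.ncard : ℝ) ≤ K)
    {b : ℕ} (hb : b ≠ 0) (τ : Fin d → ℕ) (P : Finset (Finset ℕ))
    (hP : ∀ T ∈ P, T.card = d ∧ Dens_tau d r T = τ ∧ b * ∏ i ∈ T, p i ∈ B) :
    (P.card : ℝ) ≤ K := by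
  classical
  set S : Finset ℕ :=
    (Finset.univ.biUnion fun j : Fin d => Finset.Ico (τ j * r) (τ j * r + r)).image p with hS
  have hSp : ∀ s ∈ S, s.Prime := by
    intro s hs
    rw [hS, Finset.mem_image] at hs
    obtain ⟨i, -, rfl⟩ := hs
    exact hp i
  have hSc : S.card ≤ d * r := by
    refine Finset.card_image_le.trans (Finset.card_biUnion_le.trans (le_of_eq ?_))
    simp
  refine le_trans ?_ (hB b hb S hSp hSc)
  have e : {T : Finset ℕ | T ⊆ S ∧ T.card = d ∧ b * ∏ s ∈ T, s ∈ B} =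
      ↑(S.powerset.filter fun T => T.card = d ∧ b * ∏ s ∈ T, s ∈ B) := by
    ext T
    simp
  rw [e, Set.ncard_coe_finset]
  refine Nat.cast_le.2 (Finset.card_le_card_of_injOn (fun T => T.image p) ?_ ?_)
  · intro T hT
    obtain ⟨h1, h2, h3⟩ := hP T hT
    rw [Finset.mem_coe, Finset.mem_filter, Finset.mem_powerset]
    refine ⟨Finset.image_subset_image (Dens_subset hr h1 h2), ?_, ?_⟩
    · rw [Finset.card_image_of_injective _ hm.injective, h1]
    · rwa [Finset.prod_image fun i _ j _ hij => hm.injective hij]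
  · intro T _ T' _ h
    exact Finset.image_injective hm.injective h

/-- the number of pairs -/
theorem Gen_pairs {p : ℕ → ℕ} (hp : ∀ i, (p i).Prime) (hm : StrictMono p) {d r : ℕ} (hr : 0 < r) (J : ℕ) {K : ℝ} (hK : 0 ≤ K) {B : Set ℕ}
    (hB : ∀ b : ℕ, b ≠ 0 → ∀ S : Finset ℕ, (∀ s ∈ S, s.Prime) → S.card ≤ d * r →
      ({T : Finset ℕ | T ⊆ S ∧ T.card = d ∧ b * ∏ s ∈ T, s ∈ B}.ncard : ℝ) ≤ K)
    [DecidablePred (· ∈ B)] (X : ℕ) :
    ∑ T ∈ Finset.powersetCard d (Finset.range (J * r)),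
      (((Finset.Icc 1 X).filter fun a => a ∈ B ∧ ∏ i ∈ T, p i ∣ a).card : ℝ) ≤
      K * X * (∑ t ∈ Finset.range J, 1 / (p (t * r) : ℝ)) ^ d := by
  classical
  set Q : (Fin d → ℕ) → ℕ := fun τ => ∏ j, p (τ j * r) with hQ
  have hQpos : ∀ τ, 0 < Q τ := fun τ => Finset.prod_pos fun j _ => (hp _).pos
  have hPpos : ∀ T : Finset ℕ, 0 < ∏ i ∈ T, p i := fun T => Finset.prod_pos fun j _ => (hp _).pos
  -- step 1
  have h1 : ∀ T ∈ Finset.powersetCard d (Finset.range (J * r)),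
      (((Finset.Icc 1 X).filter fun a => a ∈ B ∧ ∏ i ∈ T, p i ∣ a).card : ℝ) ≤
        ∑ b ∈ Finset.Icc 1 X,
          if b * ∏ i ∈ T, p i ∈ B ∧ b * Q (Dens_tau d r T) ≤ X then (1 : ℝ) else 0 := by
    intro T hT
    rw [Finset.mem_powersetCard] at hT
    rw [← Finset.sum_filter, Finset.sum_const, nsmul_eq_mul, mul_one]
    refine Nat.cast_le.2 (Finset.card_le_card_of_injOn (fun a => a / ∏ i ∈ T, p i) ?_ ?_)
    · intro a ha
      rw [Finset.mem_coe, Finset.mem_filter, Finset.mem_Icc] at ha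
      obtain ⟨⟨ha1, haX⟩, haB, c, rfl⟩ := ha
      have hc : 0 < c := by
        rcases Nat.eq_zero_or_pos c with h | h
        · rw [h, mul_zero] at ha1; omega
        · exact h
      have hq : (∏ i ∈ T, p i) * c / ∏ i ∈ T, p i = c := Nat.mul_div_cancel_left c (hPpos T)
      rw [Finset.mem_coe, Finset.mem_filter, Finset.mem_Icc]
      simp only [hq]
      refine ⟨⟨hc, ?_⟩, ?_, ?_⟩
      · exact (Nat.le_mul_of_pos_left c (hPpos T)).trans haX
      · rwa [mul_comm]
      · calc c * Q (Dens_tau d r T) ≤ c * ∏ i ∈ T, p i :=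
              Nat.mul_le_mul_left c (Gen_prod_le hm hT.2)
          _ = (∏ i ∈ T, p i) * c := mul_comm _ _
          _ ≤ X := haX
    · intro a ha a' ha' h
      rw [Finset.mem_coe, Finset.mem_filter] at ha ha'
      obtain ⟨c, rfl⟩ := ha.2.2
      obtain ⟨c', rfl⟩ := ha'.2.2
      simp only [Nat.mul_div_cancel_left _ (hPpos T)] at h
      rw [h]
  refine (Finset.sum_le_sum h1).trans ?_
  rw [Finset.sum_comm]
  -- step 2
  have h2 : ∀ b ∈ Finset.Icc 1 X, ∑ T ∈ Finset.powersetCard d (Finset.range (J * r)),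
      (if b * ∏ i ∈ T, p i ∈ B ∧ b * Q (Dens_tau d r T) ≤ X then (1 : ℝ) else 0) ≤
      ∑ τ ∈ Fintype.piFinset fun _ : Fin d => Finset.range J, if b * Q τ ≤ X then K else 0 := by
    intro b hb
    rw [Finset.mem_Icc] at hb
    rw [← Finset.sum_fiberwise_of_maps_to (g := Dens_tau d r)
      (t := Fintype.piFinset fun _ : Fin d => Finset.range J)
      (fun T hT => Dens_tau_mem (Finset.mem_powersetCard.1 hT).2 (Finset.mem_powersetCard.1 hT).1)]
    refine Finset.sum_le_sum fun τ _ => ?_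
    split_ifs with hX
    · rw [← Finset.sum_filter, Finset.sum_const, nsmul_eq_mul, mul_one]
      refine Gen_fibre hp hm hr hB (by omega : b ≠ 0) τ _ fun T hT => ?_
      rw [Finset.mem_filter, Finset.mem_filter] at hT
      exact ⟨(Finset.mem_powersetCard.1 hT.1.1).2, hT.1.2, hT.2.1⟩
    · refine le_of_eq (Finset.sum_eq_zero fun T hT => ?_)
      rw [Finset.mem_filter] at hT
      rw [if_neg]
      rw [hT.2]
      exact fun h => hX h.2
  refine (Finset.sum_le_sum h2).trans ?_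
  rw [Finset.sum_comm]
  -- step 3
  have h3 : ∀ τ ∈ Fintype.piFinset fun _ : Fin d => Finset.range J,
      ∑ b ∈ Finset.Icc 1 X, (if b * Q τ ≤ X then K else 0) ≤
        K * X * ∏ j, (1 / (p (τ j * r) : ℝ)) := by
    intro τ _
    rw [← Finset.sum_filter, Finset.sum_const, nsmul_eq_mul, mul_comm]
    have hc : (((Finset.Icc 1 X).filter fun b => b * Q τ ≤ X).card : ℝ) ≤ X / Q τ := by
      refine le_trans ?_ (Nat.cast_div_le (m := X) (n := Q τ))
      have : (Finset.Icc 1 X).filter (fun b => b * Q τ ≤ X) ⊆ Finset.Icc 1 (X / Q τ) := by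
        intro b hb
        rw [Finset.mem_filter, Finset.mem_Icc] at hb
        rw [Finset.mem_Icc]
        exact ⟨hb.1.1, (Nat.le_div_iff_mul_le (hQpos τ)).2 hb.2⟩
      have h4 := Finset.card_le_card this
      rw [Nat.card_Icc, Nat.add_sub_cancel] at h4
      exact Nat.cast_le.2 h4
    have e : ∏ j, (1 / (p (τ j * r) : ℝ)) = 1 / (Q τ : ℝ) := by
      rw [hQ]
      push_cast
      rw [Finset.prod_div_distrib, Finset.prod_const_one]
    rw [e]
    calc K * _ ≤ K * ((X : ℝ) / Q τ) := mul_le_mul_of_nonneg_left hc hK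
      _ = _ := by ring
  refine (Finset.sum_le_sum h3).trans (le_of_eq ?_)
  rw [← Finset.mul_sum]
  congr 1
  rw [← Finset.prod_univ_sum (fun _ : Fin d => Finset.range J)
    (fun _ t => 1 / (p (t * r) : ℝ)), Finset.prod_const, Finset.card_univ, Fintype.card_fin]

/-- the thinned sum -/
theorem Gen_thin {p : ℕ → ℕ} (hp : ∀ i, (p i).Prime) (hm : StrictMono p) {r : ℕ} (hr : 0 < r)
    (J : ℕ) :
    ∑ t ∈ Finset.range (J + 1), 1 / (p (t * r) : ℝ) ≤
      1 / (p 0 : ℝ) + (∑ i ∈ Finset.range (J * r), 1 / (p i : ℝ)) / r := by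
  have hr0 : (0 : ℝ) < r := Nat.cast_pos.2 hr
  induction J with
  | zero => simp
  | succ J ih =>
    rw [Finset.sum_range_succ]
    have h1 : ∑ i ∈ Finset.range ((J + 1) * r), 1 / (p i : ℝ) =
        ∑ i ∈ Finset.range (J * r), 1 / (p i : ℝ) +
          ∑ i ∈ Finset.range r, 1 / (p (J * r + i) : ℝ) := by
      rw [add_mul, one_mul, Finset.sum_range_add]
    have h2 : (r : ℝ) * (1 / (p ((J + 1) * r) : ℝ)) ≤
        ∑ i ∈ Finset.range r, 1 / (p (J * r + i) : ℝ) := by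
      rw [← Finset.card_range r, ← nsmul_eq_mul, ← Finset.sum_const, Finset.card_range]
      refine Finset.sum_le_sum fun i hi => ?_
      rw [Finset.mem_range] at hi
      have h3 : 0 < p (J * r + i) := (hp _).pos
      refine one_div_le_one_div_of_le (by exact_mod_cast h3) ?_
      have h4 : p (J * r + i) ≤ p ((J + 1) * r) := by
        apply hm.monotone
        rw [add_mul, one_mul]
        omega
      exact_mod_cast h4
    have h3 : 1 / (p ((J + 1) * r) : ℝ) ≤
        (∑ i ∈ Finset.range r, 1 / (p (J * r + i) : ℝ)) / r := by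
      rw [le_div_iff₀ hr0, mul_comm]
      exact h2
    rw [h1, add_div]
    linarith

theorem Gen_thin' {p : ℕ → ℕ} (hp : ∀ i, (p i).Prime) (hm : StrictMono p) {r : ℕ} (hr : 0 < r)
    (J : ℕ) :
    ∑ t ∈ Finset.range J, 1 / (p (t * r) : ℝ) ≤
      1 / (p 0 : ℝ) + (∑ i ∈ Finset.range (J * r), 1 / (p i : ℝ)) / r := by
  refine le_trans ?_ (Gen_thin hp hm hr J)
  rw [Finset.sum_range_succ]
  have : 0 ≤ 1 / (p (J * r) : ℝ) := by positivity
  linarith

/-- the number of the `p i`, `i < n`, that divide `a` -/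
noncomputable def wG (p : ℕ → ℕ) (n a : ℕ) : ℕ := ((Finset.range n).filter fun i => p i ∣ a).card

/-- the sum of the reciprocals of the `p i`, `i < n` -/
noncomputable def LG (p : ℕ → ℕ) (n : ℕ) : ℝ := ∑ i ∈ Finset.range n, 1 / (p i : ℝ)

theorem LG_nonneg (p : ℕ → ℕ) (n : ℕ) : 0 ≤ LG p n := Finset.sum_nonneg fun i _ => by positivity

theorem wG_eq (p : ℕ → ℕ) (n a : ℕ) :
    (wG p n a : ℝ) = ∑ i ∈ Finset.range n, if p i ∣ a then (1 : ℝ) else 0 := by
  rw [wG, Finset.sum_boole]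

theorem sum_wG {p : ℕ → ℕ} (hp : ∀ i, (p i).Prime) (n X : ℕ) : (X : ℝ) * LG p n - n ≤ ∑ a ∈ Finset.Icc 1 X, (wG p n a : ℝ) := by
  simp only [wG_eq]
  rw [Finset.sum_comm]
  have h1 : ∀ i ∈ Finset.range n, (X : ℝ) * (1 / (p i : ℝ)) - 1 ≤
      ∑ a ∈ Finset.Icc 1 X, if p i ∣ a then (1 : ℝ) else 0 := by
    intro i _
    rw [Finset.sum_boole, card_dvd]
    have h2 : (X : ℝ) / p i < (X / p i : ℕ) + 1 := by
      rw [div_lt_iff₀ (Nat.cast_pos.2 (hp i).pos : (0 : ℝ) < p i)]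
      have := Nat.lt_mul_div_succ X (hp i).pos
      have h3 : (X : ℝ) < ((p i * (X / p i + 1) : ℕ) : ℝ) := by exact_mod_cast this
      push_cast at h3
      rw [mul_comm]
      exact h3
    rw [mul_one_div]
    linarith
  refine le_trans (le_of_eq ?_) (Finset.sum_le_sum h1)
  rw [Finset.sum_sub_distrib, ← Finset.mul_sum, LG]
  simp

theorem sum_sqG {p : ℕ → ℕ} (hp : ∀ i, (p i).Prime) (hm : StrictMono p) (n X : ℕ) :
    ∑ a ∈ Finset.Icc 1 X, (wG p n a : ℝ) ^ 2 ≤ (X : ℝ) * LG p n ^ 2 + X * LG p n := by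
  have h1 : ∀ a, (wG p n a : ℝ) ^ 2 = ∑ i ∈ Finset.range n, ∑ j ∈ Finset.range n,
      if p i ∣ a ∧ p j ∣ a then (1 : ℝ) else 0 := by
    intro a
    rw [sq, wG_eq, Finset.sum_mul_sum]
    refine Finset.sum_congr rfl fun i _ => Finset.sum_congr rfl fun j _ => ?_
    rw [ite_and]
    split_ifs <;> simp
  simp only [h1]
  rw [Finset.sum_comm]
  have h2 : ∀ i ∈ Finset.range n, ∑ a ∈ Finset.Icc 1 X, ∑ j ∈ Finset.range n,
      (if p i ∣ a ∧ p j ∣ a then (1 : ℝ) else 0) ≤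
        ∑ j ∈ Finset.range n, (X : ℝ) * ((1 / (p i : ℝ)) * (1 / (p j : ℝ))) + X * (1 / (p i : ℝ)) := by
    intro i hi
    rw [Finset.sum_comm]
    have h3 : ∀ j ∈ Finset.range n, ∑ a ∈ Finset.Icc 1 X,
        (if p i ∣ a ∧ p j ∣ a then (1 : ℝ) else 0) ≤
          (X : ℝ) * ((1 / (p i : ℝ)) * (1 / (p j : ℝ))) +
            if j = i then (X : ℝ) * (1 / (p i : ℝ)) else 0 := by
      intro j _
      rw [Finset.sum_boole]
      by_cases hij : j = i
      · subst hij
        rw [if_pos rfl]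
        have h4 : ((Finset.Icc 1 X).filter fun a => p j ∣ a ∧ p j ∣ a) =
            (Finset.Icc 1 X).filter fun a => p j ∣ a := by
          simp
        rw [h4, card_dvd]
        have h5 : ((X / p j : ℕ) : ℝ) ≤ (X : ℝ) / p j := Nat.cast_div_le
        have h6 : 0 ≤ (X : ℝ) * ((1 / (p j : ℝ)) * (1 / (p j : ℝ))) := by positivity
        have h7 : (X : ℝ) * (1 / (p j : ℝ)) = (X : ℝ) / p j := mul_one_div _ _
        rw [h7]
        linarith
      · rw [if_neg hij, add_zero]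
        have hco : Nat.Coprime (p i) (p j) :=
          (Nat.coprime_primes (hp i) (hp j)).2 fun h => hij (hm.injective h).symm
        have h4 : ((Finset.Icc 1 X).filter fun a => p i ∣ a ∧ p j ∣ a) =
            (Finset.Icc 1 X).filter fun a => p i * p j ∣ a := by
          refine Finset.filter_congr fun a _ => ?_
          exact ⟨fun h => hco.mul_dvd_of_dvd_of_dvd h.1 h.2,
            fun h => ⟨(Dvd.intro _ rfl).trans h, (Dvd.intro_left _ rfl).trans h⟩⟩
        rw [h4, card_dvd]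
        refine Nat.cast_div_le.trans (le_of_eq ?_)
        push_cast
        field_simp
    refine (Finset.sum_le_sum h3).trans (le_of_eq ?_)
    rw [Finset.sum_add_distrib, Finset.sum_ite_eq' , if_pos hi]
  refine (Finset.sum_le_sum h2).trans (le_of_eq ?_)
  rw [Finset.sum_add_distrib, ← Finset.mul_sum]
  have h3 : ∑ i ∈ Finset.range n, ∑ j ∈ Finset.range n,
      (X : ℝ) * ((1 / (p i : ℝ)) * (1 / (p j : ℝ))) = X * LG p n ^ 2 := by
    rw [LG, sq, Finset.sum_mul_sum, Finset.mul_sum]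
    exact Finset.sum_congr rfl fun i _ => by rw [Finset.mul_sum]
  rw [h3, LG]

/-- Turán's inequality -/
theorem turanG {p : ℕ → ℕ} (hp : ∀ i, (p i).Prime) (hm : StrictMono p) (n X : ℕ) :
    ∑ a ∈ Finset.Icc 1 X, ((wG p n a : ℝ) - LG p n) ^ 2 ≤ X * LG p n + 2 * LG p n * n := by
  have h1 : ∑ a ∈ Finset.Icc 1 X, ((wG p n a : ℝ) - LG p n) ^ 2 =
      ∑ a ∈ Finset.Icc 1 X, (wG p n a : ℝ) ^ 2 - 2 * LG p n * ∑ a ∈ Finset.Icc 1 X, (wG p n a : ℝ) +
        X * LG p n ^ 2 := by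
    have h2 : ∀ a ∈ Finset.Icc 1 X, ((wG p n a : ℝ) - LG p n) ^ 2 =
        (wG p n a : ℝ) ^ 2 - 2 * LG p n * (wG p n a : ℝ) + LG p n ^ 2 := fun a _ => by ring
    rw [Finset.sum_congr rfl h2, Finset.sum_add_distrib, Finset.sum_sub_distrib, Finset.mul_sum,
      Finset.sum_const, Nat.card_Icc, nsmul_eq_mul, Nat.add_sub_cancel]
  have h2 := sum_sqG hp hm n X
  have h3 := sum_wG hp n X
  have h4 := LG_nonneg p n
  have h5 : 2 * LG p n * ((X : ℝ) * LG p n - n) ≤ 2 * LG p n * ∑ a ∈ Finset.Icc 1 X, (wG p n a : ℝ) :=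
    mul_le_mul_of_nonneg_left h3 (by positivity)
  rw [h1]
  nlinarith

/-- **the combined inequality** -/
theorem gen (p : ℕ → ℕ) (hp : ∀ i, (p i).Prime) (hm : StrictMono p) (u r J : ℕ) (hr : 0 < r)
    (K : ℝ) (hK : 0 ≤ K) (B : Set ℕ)
    (hB : ∀ b : ℕ, b ≠ 0 → ∀ S : Finset ℕ, (∀ s ∈ S, s.Prime) → S.card ≤ u * r →
      ({T : Finset ℕ | T ⊆ S ∧ T.card = u ∧ b * ∏ s ∈ T, s ∈ B}.ncard : ℝ) ≤ K)
    (hu : (u : ℝ) < ∑ i ∈ Finset.range (J * r), 1 / (p i : ℝ)) (X : ℕ) :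
    ({a : ℕ | a ∈ B ∧ 1 ≤ a ∧ a ≤ X}.ncard : ℝ) ≤
      K * X * (1 / (p 0 : ℝ) + (∑ i ∈ Finset.range (J * r), 1 / (p i : ℝ)) / r) ^ u +
      (X * (∑ i ∈ Finset.range (J * r), 1 / (p i : ℝ)) +
        2 * (∑ i ∈ Finset.range (J * r), 1 / (p i : ℝ)) * (J * r)) /
        ((∑ i ∈ Finset.range (J * r), 1 / (p i : ℝ)) - u) ^ 2 := by
  classical
  set n : ℕ := J * r with hn
  have hΛ : ∑ i ∈ Finset.range n, 1 / (p i : ℝ) = LG p n := rfl
  rw [hΛ] at hu ⊢
  have e : {a : ℕ | a ∈ B ∧ 1 ≤ a ∧ a ≤ X} = ↑((Finset.Icc 1 X).filter fun a => a ∈ B) := by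
    ext a
    simp only [Set.mem_setOf_eq, Finset.coe_filter, Finset.mem_Icc]
    tauto
  rw [e, Set.ncard_coe_finset]
  set G := (Finset.Icc 1 X).filter fun a => a ∈ B ∧ u ≤ wG p n a with hG
  set H := (Finset.Icc 1 X).filter fun a => wG p n a < u with hH
  have hsub : (Finset.Icc 1 X).filter (fun a => a ∈ B) ⊆ G ∪ H := by
    intro a ha
    rw [Finset.mem_filter] at ha
    rw [Finset.mem_union, hG, hH, Finset.mem_filter, Finset.mem_filter]
    rcases lt_or_ge (wG p n a) u with h | h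
    · exact Or.inr ⟨ha.1, h⟩
    · exact Or.inl ⟨ha.1, ha.2, h⟩
  have hc1 : (((Finset.Icc 1 X).filter fun a => a ∈ B).card : ℝ) ≤ G.card + H.card := by
    have := (Finset.card_le_card hsub).trans (Finset.card_union_le _ _)
    exact_mod_cast this
  -- the integers with many prime factors
  have hlow : (G.card : ℝ) ≤ ∑ T ∈ Finset.powersetCard u (Finset.range n),
      (((Finset.Icc 1 X).filter fun a => a ∈ B ∧ ∏ i ∈ T, p i ∣ a).card : ℝ) := by
    have h1 : G ⊆ (Finset.powersetCard u (Finset.range n)).biUnion fun T =>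
        (Finset.Icc 1 X).filter fun a => a ∈ B ∧ ∏ i ∈ T, p i ∣ a := by
      intro a ha
      rw [hG, Finset.mem_filter] at ha
      obtain ⟨haX, haB, hau⟩ := ha
      obtain ⟨T, hT, hTc⟩ := Finset.exists_subset_card_eq
        (show u ≤ ((Finset.range n).filter fun i => p i ∣ a).card from hau)
      rw [Finset.mem_biUnion]
      refine ⟨T, Finset.mem_powersetCard.2 ⟨hT.trans (Finset.filter_subset _ _), hTc⟩, ?_⟩
      rw [Finset.mem_filter]
      refine ⟨haX, haB, Finset.prod_dvd_of_isRelPrime ?_ ?_⟩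
      · intro i _ j _ hij
        exact Nat.coprime_iff_isRelPrime.1 ((Nat.coprime_primes (hp i) (hp j)).2
          fun h => hij (hm.injective h))
      · intro i hi
        exact (Finset.mem_filter.1 (hT hi)).2
    have h2 := (Finset.card_le_card h1).trans Finset.card_biUnion_le
    exact_mod_cast h2
  have hG1 : (G.card : ℝ) ≤ K * X * (1 / (p 0 : ℝ) + LG p n / r) ^ u := by
    have h1 := Gen_pairs hp hm hr J hK hB X
    rw [← hn] at h1
    refine (hlow.trans h1).trans ?_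
    have h2 := Gen_thin' hp hm hr J
    rw [← hn, hΛ] at h2
    have h3 : 0 ≤ ∑ t ∈ Finset.range J, 1 / (p (t * r) : ℝ) :=
      Finset.sum_nonneg fun _ _ => by positivity
    gcongr
  -- the integers with few prime factors
  have hpos : 0 < (LG p n - u) ^ 2 := by
    have : 0 < LG p n - u := by linarith
    positivity
  have hH1 : (H.card : ℝ) ≤ (X * LG p n + 2 * LG p n * (J * r)) / (LG p n - u) ^ 2 := by
    rw [le_div_iff₀ hpos]
    have h1 := turanG hp hm n X
    have h2 : (n : ℝ) = J * r := by rw [hn]; push_cast; ring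
    rw [h2] at h1
    refine le_trans ?_ h1
    rw [← nsmul_eq_mul, ← Finset.sum_const]
    refine le_trans (Finset.sum_le_sum (g := fun a => ((wG p n a : ℝ) - LG p n) ^ 2)
      fun a ha => ?_)
      (Finset.sum_le_sum_of_subset_of_nonneg (Finset.filter_subset _ _) fun a _ _ => sq_nonneg _)
    have h3 : (wG p n a : ℝ) ≤ u := by
      have := (Finset.mem_filter.1 ha).2
      exact_mod_cast this.le
    nlinarith
  linarith

end Pool.Agent.QDen
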