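import Pool.Agent.QDen.Rank

set_option autoImplicit false

/-! # The combined inequality with Rankin's bound -/

namespace Pool.Agent.QDen

open Finset

theorem gen_rank : ∃ C : ℝ, 0 < C ∧ ∀ p : ℕ → ℕ, (∀ i, (p i).Prime) → StrictMono p →
    ∀ u r J : ℕ, 0 < r → ∀ K : ℝ, 0 ≤ K → ∀ B : Set ℕ,
    (∀ b : ℕ, b ≠ 0 → ∀ S : Finset ℕ, (∀ s ∈ S, s.Prime) → S.card ≤ u * r →
      ({T : Finset ℕ | T ⊆ S ∧ T.card = u ∧ b * ∏ s ∈ T, s ∈ B}.ncard : ℝ) ≤ K) →
    ∀ X : ℕ, 3 ≤ X → (∀ i < J * r, p i ≤ X) → ∀ v : ℝ, 0 < v → v ≤ 1 →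
    ({a : ℕ | a ∈ B ∧ 1 ≤ a ∧ a ≤ X}.ncard : ℝ) ≤
      K * X * (1 / (p 0 : ℝ) + (∑ i ∈ Finset.range (J * r), 1 / (p i : ℝ)) / r) ^ u +
      C * X * ((v ^ u)⁻¹ * Real.exp (-(1 - v) * ∑ i ∈ Finset.range (J * r), 1 / (p i : ℝ))) := by
  classical
  obtain ⟨C, hC, hR⟩ := rankin
  refine ⟨C, hC, fun p hp hm u r J hr K hK B hB X hX hpX v hv hv1 => ?_⟩
  set n : ℕ := J * r with hn
  have hΛ : ∑ i ∈ Finset.range n, 1 / (p i : ℝ) = LG p n := rfl
  rw [hΛ]
  have e : {a : ℕ | a ∈ B ∧ 1 ≤ a ∧ a ≤ X} = ↑((Finset.Icc 1 X).filter fun a => a ∈ B) := by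
    ext a
    simp only [Set.mem_setOf_eq, Finset.coe_filter, Finset.mem_Icc]
    tauto
  rw [e, Set.ncard_coe_finset]
  set G := (Finset.Icc 1 X).filter fun a => a ∈ B ∧ u ≤ wG p n a with hG
  set H := (Finset.Icc 1 X).filter fun a => wG p n a < u with hH
  have hsub : (Finset.Icc 1 X).filter (fun a => a ∈ B) ⊆ G ∪ H := by
    intro a ha
    rw [Finset.mem_filter] at ha
    rw [Finset.mem_union, hG, hH, Finset.mem_filter, Finset.mem_filter]
    rcases lt_or_ge (wG p n a) u with h | h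
    · exact Or.inr ⟨ha.1, h⟩
    · exact Or.inl ⟨ha.1, ha.2, h⟩
  have hc1 : (((Finset.Icc 1 X).filter fun a => a ∈ B).card : ℝ) ≤ G.card + H.card := by
    have := (Finset.card_le_card hsub).trans (Finset.card_union_le _ _)
    exact_mod_cast this
  -- the integers with many prime factors
  have hlow : (G.card : ℝ) ≤ ∑ T ∈ Finset.powersetCard u (Finset.range n),
      (((Finset.Icc 1 X).filter fun a => a ∈ B ∧ ∏ i ∈ T, p i ∣ a).card : ℝ) := by
    have h1 : G ⊆ (Finset.powersetCard u (Finset.range n)).biUnion fun T =>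
        (Finset.Icc 1 X).filter fun a => a ∈ B ∧ ∏ i ∈ T, p i ∣ a := by
      intro a ha
      rw [hG, Finset.mem_filter] at ha
      obtain ⟨haX, haB, hau⟩ := ha
      obtain ⟨T, hT, hTc⟩ := Finset.exists_subset_card_eq
        (show u ≤ ((Finset.range n).filter fun i => p i ∣ a).card from hau)
      rw [Finset.mem_biUnion]
      refine ⟨T, Finset.mem_powersetCard.2 ⟨hT.trans (Finset.filter_subset _ _), hTc⟩, ?_⟩
      rw [Finset.mem_filter]
      refine ⟨haX, haB, Finset.prod_dvd_of_isRelPrime ?_ ?_⟩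
      · intro i _ j _ hij
        exact Nat.coprime_iff_isRelPrime.1 ((Nat.coprime_primes (hp i) (hp j)).2
          fun h => hij (hm.injective h))
      · intro i hi
        exact (Finset.mem_filter.1 (hT hi)).2
    have h2 := (Finset.card_le_card h1).trans Finset.card_biUnion_le
    exact_mod_cast h2
  have hG1 : (G.card : ℝ) ≤ K * X * (1 / (p 0 : ℝ) + LG p n / r) ^ u := by
    have h1 := Gen_pairs hp hm hr J hK hB X
    rw [← hn] at h1
    refine (hlow.trans h1).trans ?_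
    have h2 := Gen_thin' hp hm hr J
    rw [← hn, hΛ] at h2
    have h3 : 0 ≤ ∑ t ∈ Finset.range J, 1 / (p (t * r) : ℝ) :=
      Finset.sum_nonneg fun _ _ => by positivity
    gcongr
  -- the integers with few prime factors
  have hH1 : (H.card : ℝ) ≤ C * X * ((v ^ u)⁻¹ * Real.exp (-(1 - v) * LG p n)) := by
    have h1 := hR p hp hm n X hX hpX v hv hv1
    have h2 : (H.card : ℝ) * v ^ u ≤ C * X * Real.exp (-(1 - v) * LG p n) := by
      refine le_trans ?_ h1
      rw [← nsmul_eq_mul, ← Finset.sum_const]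
      refine le_trans (Finset.sum_le_sum (g := fun a => v ^ wG p n a) fun a ha => ?_)
        (Finset.sum_le_sum_of_subset_of_nonneg (Finset.filter_subset _ _)
          fun a _ _ => by positivity)
      exact pow_le_pow_of_le_one hv.le hv1 (Finset.mem_filter.1 ha).2.le
    have h3 : 0 < v ^ u := by positivity
    calc (H.card : ℝ) ≤ C * X * Real.exp (-(1 - v) * LG p n) / v ^ u := by
          rw [le_div_iff₀ h3]; exact h2
      _ = _ := by rw [div_eq_mul_inv]; ring
  linarith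

end Pool.Agent.QDen
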