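import Mathlib

/-! # Turán's inequality for the number of small prime divisors, and the divergence of `∑ 1/p` -/

set_option autoImplicit false

namespace Pool.Agent.QDen

/-- the primes -/
noncomputable def q (i : ℕ) : ℕ := Nat.nth Nat.Prime i

/-- the number of the first `n` primes that divide `a` -/
noncomputable def w (n a : ℕ) : ℕ := ((Finset.range n).filter fun i => q i ∣ a).card

/-- the sum of the reciprocals of the first `n` primes -/
noncomputable def L (n : ℕ) : ℝ := ∑ i ∈ Finset.range n, 1 / (q i : ℝ)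

theorem q_prime (i : ℕ) : (q i).Prime := Nat.prime_nth_prime i

theorem q_strictMono : StrictMono q := Nat.nth_strictMono Nat.infinite_setOf_prime

theorem q_injective : Function.Injective q := q_strictMono.injective

theorem q_pos (i : ℕ) : (0 : ℝ) < q i := Nat.cast_pos.2 (q_prime i).pos

theorem L_mono : Monotone L := by
  intro m n h
  exact Finset.sum_le_sum_of_subset_of_nonneg (Finset.range_mono h) fun i _ _ =>
    div_nonneg zero_le_one (q_pos i).le

theorem L_nonneg (n : ℕ) : 0 ≤ L n := Finset.sum_nonneg fun i _ => div_nonneg zero_le_one (q_pos i).le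

theorem exists_L (M : ℝ) : ∃ n, M ≤ L n := by
  by_contra hcon
  push Not at hcon
  have h1 : Summable fun i => 1 / (q i : ℝ) :=
    summable_of_sum_range_le (fun i => div_nonneg zero_le_one (q_pos i).le) fun n => (hcon n).le
  have h2 : Function.Injective fun p : Nat.Primes => Nat.count Nat.Prime (p : ℕ) := by
    intro a b hab
    have ha := Nat.nth_count a.2
    have hb := Nat.nth_count b.2
    apply Subtype.ext
    rw [← ha, ← hb]
    exact congrArg (Nat.nth Nat.Prime) hab
  refine Nat.Primes.not_summable_one_div ?_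
  have h3 := h1.comp_injective h2
  refine h3.congr fun p => ?_
  have : q (Nat.count Nat.Prime (p : ℕ)) = p := Nat.nth_count p.2
  simp [Function.comp_apply, this]

theorem tendsto_L : Filter.Tendsto L Filter.atTop Filter.atTop :=
  Filter.tendsto_atTop_atTop_of_monotone L_mono exists_L

theorem card_dvd (X m : ℕ) : ((Finset.Icc 1 X).filter fun a => m ∣ a).card = X / m := by
  have h : Finset.Icc 1 X = Finset.Ioc 0 X := rfl
  rw [h]
  exact Nat.Ioc_filter_dvd_card_eq_div X m

theorem w_eq (n a : ℕ) : (w n a : ℝ) = ∑ i ∈ Finset.range n, if q i ∣ a then (1 : ℝ) else 0 := by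
  rw [w, Finset.sum_boole]

theorem sum_w (n X : ℕ) : (X : ℝ) * L n - n ≤ ∑ a ∈ Finset.Icc 1 X, (w n a : ℝ) := by
  simp only [w_eq]
  rw [Finset.sum_comm]
  have h1 : ∀ i ∈ Finset.range n, (X : ℝ) * (1 / (q i : ℝ)) - 1 ≤
      ∑ a ∈ Finset.Icc 1 X, if q i ∣ a then (1 : ℝ) else 0 := by
    intro i _
    rw [Finset.sum_boole, card_dvd]
    have h2 : (X : ℝ) / q i < (X / q i : ℕ) + 1 := by
      rw [div_lt_iff₀ (q_pos i)]
      have := Nat.lt_mul_div_succ X (q_prime i).pos
      have h3 : (X : ℝ) < ((q i * (X / q i + 1) : ℕ) : ℝ) := by exact_mod_cast this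
      push_cast at h3
      rw [mul_comm]
      exact h3
    rw [mul_one_div]
    linarith
  refine le_trans (le_of_eq ?_) (Finset.sum_le_sum h1)
  rw [Finset.sum_sub_distrib, ← Finset.mul_sum, L]
  simp

theorem sum_sq (n X : ℕ) :
    ∑ a ∈ Finset.Icc 1 X, (w n a : ℝ) ^ 2 ≤ (X : ℝ) * L n ^ 2 + X * L n := by
  have h1 : ∀ a, (w n a : ℝ) ^ 2 = ∑ i ∈ Finset.range n, ∑ j ∈ Finset.range n,
      if q i ∣ a ∧ q j ∣ a then (1 : ℝ) else 0 := by
    intro a
    rw [sq, w_eq, Finset.sum_mul_sum]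
    refine Finset.sum_congr rfl fun i _ => Finset.sum_congr rfl fun j _ => ?_
    rw [ite_and]
    split_ifs <;> simp
  simp only [h1]
  rw [Finset.sum_comm]
  have h2 : ∀ i ∈ Finset.range n, ∑ a ∈ Finset.Icc 1 X, ∑ j ∈ Finset.range n,
      (if q i ∣ a ∧ q j ∣ a then (1 : ℝ) else 0) ≤
        ∑ j ∈ Finset.range n, (X : ℝ) * ((1 / (q i : ℝ)) * (1 / (q j : ℝ))) + X * (1 / (q i : ℝ)) := by
    intro i hi
    rw [Finset.sum_comm]
    have h3 : ∀ j ∈ Finset.range n, ∑ a ∈ Finset.Icc 1 X,
        (if q i ∣ a ∧ q j ∣ a then (1 : ℝ) else 0) ≤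
          (X : ℝ) * ((1 / (q i : ℝ)) * (1 / (q j : ℝ))) +
            if j = i then (X : ℝ) * (1 / (q i : ℝ)) else 0 := by
      intro j _
      rw [Finset.sum_boole]
      by_cases hij : j = i
      · subst hij
        rw [if_pos rfl]
        have h4 : ((Finset.Icc 1 X).filter fun a => q j ∣ a ∧ q j ∣ a) =
            (Finset.Icc 1 X).filter fun a => q j ∣ a := by
          simp
        rw [h4, card_dvd]
        have h5 : ((X / q j : ℕ) : ℝ) ≤ (X : ℝ) / q j := Nat.cast_div_le
        have h6 : 0 ≤ (X : ℝ) * ((1 / (q j : ℝ)) * (1 / (q j : ℝ))) := by positivity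
        have h7 : (X : ℝ) * (1 / (q j : ℝ)) = (X : ℝ) / q j := mul_one_div _ _
        rw [h7]
        linarith
      · rw [if_neg hij, add_zero]
        have hco : Nat.Coprime (q i) (q j) :=
          (Nat.coprime_primes (q_prime i) (q_prime j)).2 fun h => hij (q_injective h).symm
        have h4 : ((Finset.Icc 1 X).filter fun a => q i ∣ a ∧ q j ∣ a) =
            (Finset.Icc 1 X).filter fun a => q i * q j ∣ a := by
          refine Finset.filter_congr fun a _ => ?_
          exact ⟨fun h => hco.mul_dvd_of_dvd_of_dvd h.1 h.2,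
            fun h => ⟨(Dvd.intro _ rfl).trans h, (Dvd.intro_left _ rfl).trans h⟩⟩
        rw [h4, card_dvd]
        refine Nat.cast_div_le.trans (le_of_eq ?_)
        push_cast
        field_simp
    refine (Finset.sum_le_sum h3).trans (le_of_eq ?_)
    rw [Finset.sum_add_distrib, Finset.sum_ite_eq' , if_pos hi]
  refine (Finset.sum_le_sum h2).trans (le_of_eq ?_)
  rw [Finset.sum_add_distrib, ← Finset.mul_sum]
  have h3 : ∑ i ∈ Finset.range n, ∑ j ∈ Finset.range n,
      (X : ℝ) * ((1 / (q i : ℝ)) * (1 / (q j : ℝ))) = X * L n ^ 2 := by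
    rw [L, sq, Finset.sum_mul_sum, Finset.mul_sum]
    exact Finset.sum_congr rfl fun i _ => by rw [Finset.mul_sum]
  rw [h3, L]

/-- **Turán's inequality** -/
theorem turan (n X : ℕ) :
    ∑ a ∈ Finset.Icc 1 X, ((w n a : ℝ) - L n) ^ 2 ≤ X * L n + 2 * L n * n := by
  have h1 : ∑ a ∈ Finset.Icc 1 X, ((w n a : ℝ) - L n) ^ 2 =
      ∑ a ∈ Finset.Icc 1 X, (w n a : ℝ) ^ 2 - 2 * L n * ∑ a ∈ Finset.Icc 1 X, (w n a : ℝ) +
        X * L n ^ 2 := by
    have h2 : ∀ a ∈ Finset.Icc 1 X, ((w n a : ℝ) - L n) ^ 2 =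
        (w n a : ℝ) ^ 2 - 2 * L n * (w n a : ℝ) + L n ^ 2 := fun a _ => by ring
    rw [Finset.sum_congr rfl h2, Finset.sum_add_distrib, Finset.sum_sub_distrib, Finset.mul_sum,
      Finset.sum_const, Nat.card_Icc, nsmul_eq_mul, Nat.add_sub_cancel]
  have h2 := sum_sq n X
  have h3 := sum_w n X
  have h4 := L_nonneg n
  have h5 : 2 * L n * ((X : ℝ) * L n - n) ≤ 2 * L n * ∑ a ∈ Finset.Icc 1 X, (w n a : ℝ) :=
    mul_le_mul_of_nonneg_left h3 (by positivity)
  rw [h1]
  nlinarith

/-- few integers have fewer than half the expected number of prime divisors -/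
theorem few (n X : ℕ) (hL : 0 < L n) :
    (((Finset.Icc 1 X).filter fun a => (w n a : ℝ) < L n / 2).card : ℝ) ≤
      4 * X / L n + 8 * n / L n := by
  set S := (Finset.Icc 1 X).filter fun a => (w n a : ℝ) < L n / 2 with hS
  have h1 : (S.card : ℝ) * (L n ^ 2 / 4) ≤ X * L n + 2 * L n * n := by
    refine le_trans ?_ (turan n X)
    rw [← nsmul_eq_mul, ← Finset.sum_const]
    refine le_trans (Finset.sum_le_sum (g := fun a => ((w n a : ℝ) - L n) ^ 2) fun a ha => ?_)
      (Finset.sum_le_sum_of_subset_of_nonneg (Finset.filter_subset _ _) fun a _ _ => sq_nonneg _)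
    have h2 : (w n a : ℝ) < L n / 2 := (Finset.mem_filter.1 ha).2
    nlinarith
  have h2 : 4 * (X : ℝ) / L n + 8 * n / L n = (X * L n + 2 * L n * n) / (L n ^ 2 / 4) := by
    field_simp
    ring
  rw [h2, le_div_iff₀ (by positivity)]
  exact h1

/-- the primes with index a multiple of `r` -/
theorem sum_block (r J : ℕ) (hr : 0 < r) :
    ∑ j ∈ Finset.range J, 1 / (q (j * r) : ℝ) ≤ 1 + L (J * r) / r := by
  have hr' : (0 : ℝ) < r := Nat.cast_pos.2 hr
  have key : ∀ J : ℕ, (r : ℝ) * ∑ j ∈ Finset.range (J + 1), 1 / (q (j * r) : ℝ) ≤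
      r * (1 / (q 0 : ℝ)) + ∑ i ∈ Finset.range (J * r), 1 / (q (i + 1) : ℝ) := by
    intro J
    induction J with
    | zero => simp
    | succ J ih =>
      have h0 : ∑ i ∈ Finset.range ((J + 1) * r), 1 / (q (i + 1) : ℝ) =
          ∑ i ∈ Finset.range (J * r), 1 / (q (i + 1) : ℝ) +
            ∑ i ∈ Finset.range r, 1 / (q (J * r + i + 1) : ℝ) := by
        rw [add_mul, one_mul]
        exact Finset.sum_range_add (fun i => 1 / (q (i + 1) : ℝ)) (J * r) r
      rw [Finset.sum_range_succ, mul_add, h0]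
      have h1 : (r : ℝ) * (1 / (q ((J + 1) * r) : ℝ)) ≤
          ∑ i ∈ Finset.range r, 1 / (q (J * r + i + 1) : ℝ) := by
        rw [← nsmul_eq_mul, ← Finset.card_range r, ← Finset.sum_const, Finset.card_range]
        refine Finset.sum_le_sum fun i hi => ?_
        refine one_div_le_one_div_of_le (q_pos _) ?_
        rw [Nat.cast_le]
        refine q_strictMono.monotone ?_
        rw [Finset.mem_range] at hi
        rw [add_mul, one_mul]
        omega
      linarith
  rcases Nat.eq_zero_or_pos J with hJ | hJ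
  · subst hJ
    have := L_nonneg (0 * r)
    simp only [Finset.range_zero, Finset.sum_empty]
    positivity
  obtain ⟨J, rfl⟩ : ∃ J', J = J' + 1 := ⟨J - 1, by omega⟩
  have h1 := key J
  have h2 : ∑ i ∈ Finset.range (J * r), 1 / (q (i + 1) : ℝ) ≤ L ((J + 1) * r) := by
    have h3 : ∑ i ∈ Finset.range (J * r), 1 / (q (i + 1) : ℝ) ≤
        ∑ i ∈ Finset.range (J * r + 1), 1 / (q i : ℝ) := by
      rw [Finset.sum_range_succ']
      have := div_nonneg zero_le_one (q_pos 0).le
      linarith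
    refine h3.trans (L_mono ?_)
    rw [add_mul, one_mul]
    omega
  have h3 : 1 / (q 0 : ℝ) ≤ 1 := by
    rw [div_le_one (q_pos 0)]
    exact_mod_cast (q_prime 0).pos
  rw [← mul_le_mul_iff_right₀ hr', mul_add, mul_one, mul_div_cancel₀ _ hr'.ne']
  nlinarith

end Pool.Agent.QDen
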