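import Mathlib
import Pool.Agent.QDen.Turan
import Pool.Agent.UnitFrac.Primes
import Pool.Agent.PnPoly.NC.Mert

/-! # The sum of the reciprocals of the first `n` primes is `log log n + O(1)` -/

set_option autoImplicit false

namespace Pool.Agent.QDen

open Finset

theorem L_lower (n : ℕ) (hn : 3 ≤ n) : Real.log (Real.log n) ≤ L n + 1 := by
  have h1 := UnitFrac.log_le_exp_PS n (by omega)
  have hlog : 0 < Real.log n := Real.log_pos (by exact_mod_cast (by omega : 1 < n))
  have h2 : Real.log (Real.log n) ≤ UnitFrac.PS n + 1 := by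
    rw [← Real.log_exp (UnitFrac.PS n + 1)]
    exact Real.log_le_log hlog h1
  have h3 : UnitFrac.PS n ≤ L n := by
    unfold UnitFrac.PS L
    have e : ∑ i ∈ range n, 1 / (q i : ℝ) = ∑ p ∈ (range n).image q, 1 / (p : ℝ) :=
      (sum_image (f := fun p : ℕ => 1 / (p : ℝ)) fun a _ b _ h => q_injective h).symm
    rw [e]
    refine sum_le_sum_of_subset_of_nonneg (fun p hp => ?_) fun p _ _ => by positivity
    rw [Nat.mem_primesBelow] at hp
    rw [mem_image]
    exact ⟨Nat.count Nat.Prime p, mem_range.2 (lt_of_le_of_lt (Nat.count_le Nat.Prime) hp.1),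
      Nat.nth_count hp.2⟩
  linarith

theorem L_upper (n : ℕ) (hn : 3 ≤ n) : L n ≤ Real.log (Real.log n) + 6 := by
  have hn0 : (3 : ℝ) ≤ n := by exact_mod_cast hn
  have h1 : L n ≤ ∑ p ∈ HL26.PPy (n ^ 2), 1 / (p : ℝ) + ∑ _i ∈ range n, 1 / (n : ℝ) ^ 2 := by
    unfold L
    rw [← sum_filter_add_sum_filter_not (range n) (fun i => q i ≤ n ^ 2)]
    refine add_le_add ?_ ?_
    · have e : ∑ i ∈ (range n).filter (fun i => q i ≤ n ^ 2), 1 / (q i : ℝ) =
          ∑ p ∈ ((range n).filter (fun i => q i ≤ n ^ 2)).image q, 1 / (p : ℝ) :=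
        (sum_image (f := fun p : ℕ => 1 / (p : ℝ)) fun a _ b _ h => q_injective h).symm
      rw [e]
      refine sum_le_sum_of_subset_of_nonneg (fun p hp => ?_) fun p _ _ => by positivity
      obtain ⟨i, hi, rfl⟩ := mem_image.1 hp
      unfold HL26.PPy
      rw [mem_filter, mem_range]
      exact ⟨Nat.lt_succ_of_le (mem_filter.1 hi).2, q_prime i⟩
    · refine (sum_le_sum fun i hi => ?_).trans
        (sum_le_sum_of_subset_of_nonneg (filter_subset _ _) fun i _ _ => by positivity)
      have h2 : n ^ 2 < q i := not_le.1 (mem_filter.1 hi).2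
      have h3 : (n : ℝ) ^ 2 ≤ q i := by exact_mod_cast h2.le
      exact one_div_le_one_div_of_le (by positivity) h3
  have h2 := PnPoly.NC.sum_inv_le (n ^ 2) (by nlinarith)
  have hlog : 0 < Real.log n := Real.log_pos (by linarith)
  have h3 : Real.log (Real.log ((n ^ 2 : ℕ) : ℝ)) ≤ Real.log (Real.log n) + 1 := by
    push_cast
    rw [Real.log_pow, Real.log_mul (by norm_num) hlog.ne']
    have h4 : Real.log ((2 : ℕ) : ℝ) ≤ 1 := by
      have := Real.log_two_lt_d9
      push_cast
      linarith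
    linarith
  have h5 : ∑ _i ∈ range n, 1 / (n : ℝ) ^ 2 ≤ 1 := by
    rw [sum_const, card_range, nsmul_eq_mul, mul_one_div, div_le_one (by positivity)]
    nlinarith
  linarith

theorem L_mertens : ∃ C : ℝ, 0 < C ∧ ∀ n : ℕ, 3 ≤ n → |L n - Real.log (Real.log n)| ≤ C := by
  refine ⟨6, by norm_num, fun n hn => ?_⟩
  have h1 := L_lower n hn
  have h2 := L_upper n hn
  rw [abs_le]
  constructor <;> linarith

end Pool.Agent.QDen
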