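import Pool.Agent.QDen.One
import Pool.Agent.QDen.Gen
import Pool.Agent.QDen.Mert
import Pool.Agent.QDen.Asym

/-!
# Relations of growing degree: for almost all `a ≤ X` there is no relation of degree
`≤ (1 - ε) log log X` between `log a` and given algebraically independent numbers
-/

namespace Pool.Agent.QDen

open Filter

theorem L_shift (r n : ℕ) : ∑ i ∈ Finset.range n, 1 / (q (r + i) : ℝ) = L (r + n) - L r := by
  unfold L
  rw [Finset.sum_range_add_sub_sum_range]

theorem tendsto_loglog : Tendsto (fun X : ℕ => Real.log (Real.log X)) atTop atTop :=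
  Real.tendsto_log_atTop.comp (Real.tendsto_log_atTop.comp tendsto_natCast_atTop_atTop)

/-- the real inequalities needed for `X`, `y = log log X` -/
theorem grow_params (k : ℕ) (ε C y0 : ℝ) (hε : 0 < ε) (hε1 : ε < 1) :
    ∀ᶠ X : ℕ in atTop, ∀ y : ℝ, y = Real.log (Real.log X) →
      y0 ≤ y ∧ 1 ≤ y ∧ 1 ≤ (1 - ε) * y ∧ C ≤ y ∧
      2 * Real.log 2 + 2 * C + (k + 1) * Real.log y ≤ ε / 4 * y ∧ 1 ≤ ε / 8 * y ∧
      768 ≤ ε ^ 3 * y ∧ 2 * y ^ (k + 1) ≤ Real.log (X / 2) ∧ 3 ≤ Real.sqrt X ∧ 4 ≤ (X : ℝ) ∧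
      3 ≤ Real.exp (y ^ (k + 1)) := by
  have hev : ∀ᶠ y : ℝ in atTop, y0 ≤ y ∧ 1 ≤ y ∧ 1 ≤ (1 - ε) * y ∧ C ≤ y ∧
      2 * Real.log 2 + 2 * C + (k + 1) * Real.log y ≤ ε / 4 * y ∧ 1 ≤ ε / 8 * y ∧
      768 ≤ ε ^ 3 * y ∧ 4 * y ^ (k + 1) ≤ Real.exp y ∧ 2 ≤ y := by
    have h1 : ∀ᶠ y : ℝ in atTop, ((k : ℝ) + 1) * Real.log y ≤ ε / 8 * y := by
      have h2 : 0 < ε / 8 / ((k : ℝ) + 1) := by positivity
      filter_upwards [Real.isLittleO_log_id_atTop.bound h2, eventually_ge_atTop (1 : ℝ)]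
        with y hy hy1
      rw [Real.norm_of_nonneg (Real.log_nonneg hy1), id, Real.norm_of_nonneg (by linarith)] at hy
      have hk : (0 : ℝ) < (k : ℝ) + 1 := by positivity
      calc ((k : ℝ) + 1) * Real.log y ≤ ((k : ℝ) + 1) * (ε / 8 / ((k : ℝ) + 1) * y) :=
            mul_le_mul_of_nonneg_left hy hk.le
        _ = ε / 8 * y := by field_simp
    have h3 : ∀ᶠ y : ℝ in atTop, 4 * y ^ (k + 1) ≤ Real.exp y := by
      have h4 := (Real.isLittleO_pow_exp_atTop (n := k + 1)).bound (show (0 : ℝ) < 1 / 4 by norm_num)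
      filter_upwards [h4, eventually_ge_atTop (0 : ℝ)] with y hy hy0
      rw [Real.norm_of_nonneg (by positivity), Real.norm_of_nonneg (Real.exp_pos _).le] at hy
      linarith
    have hε3 : 0 < ε ^ 3 := by positivity
    filter_upwards [h1, h3, eventually_ge_atTop y0, eventually_ge_atTop (2 : ℝ),
      eventually_ge_atTop (1 / (1 - ε)), eventually_ge_atTop C,
      eventually_ge_atTop (8 / ε * (2 * Real.log 2 + 2 * C)), eventually_ge_atTop (8 / ε),
      eventually_ge_atTop (768 / ε ^ 3)] with y a1 a2 a3 a4 a5 a6 a7 a8 a9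
    have hε1' : 0 < 1 - ε := by linarith
    rw [div_le_iff₀ hε1'] at a5
    rw [div_le_iff₀ hε] at a8
    rw [div_le_iff₀ hε3] at a9
    have a10 : 2 * Real.log 2 + 2 * C ≤ ε / 8 * y := by
      have := mul_le_mul_of_nonneg_left a7 (show 0 ≤ ε / 8 by positivity)
      calc 2 * Real.log 2 + 2 * C = ε / 8 * (8 / ε * (2 * Real.log 2 + 2 * C)) := by field_simp
        _ ≤ _ := this
    refine ⟨a3, by linarith, by linarith, a6, by linarith, by linarith, by linarith, a2, a4⟩
  have hX := tendsto_loglog.eventually hev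
  filter_upwards [hX, eventually_ge_atTop 100] with X hX1 hX2 y hy
  subst hy
  obtain ⟨b1, b2, b3, b4, b5, b6, b7, b8, b9⟩ := hX1
  have hX3 : (100 : ℝ) ≤ X := by exact_mod_cast hX2
  have hl : 1 < Real.log X := by
    rw [Real.lt_log_iff_exp_lt (by linarith)]
    linarith [Real.exp_one_lt_d9]
  refine ⟨b1, b2, b3, b4, b5, b6, b7, ?_, ?_, by linarith, ?_⟩
  · rw [Real.exp_log (by linarith)] at b8
    rw [Real.log_div (by linarith) (by norm_num)]
    have h2 : Real.log 2 ≤ Real.log X / 2 := by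
      have h3 : Real.log 4 ≤ Real.log X := Real.log_le_log (by norm_num) (by linarith)
      have h4 : Real.log 4 = 2 * Real.log 2 := by
        rw [show (4 : ℝ) = 2 ^ 2 by norm_num, Real.log_pow]
        norm_num
      linarith
    linarith
  · rw [Real.le_sqrt (by norm_num) (by linarith)]
    linarith
  · set y := Real.log (Real.log X)
    have h2 : y ≤ y ^ (k + 1) := le_self_pow₀ b2 (by omega)
    have h3 : y + 1 ≤ Real.exp y := Real.add_one_le_exp y
    have h4 : Real.exp y ≤ Real.exp (y ^ (k + 1)) := Real.exp_le_exp.2 h2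
    linarith

theorem grow (k : ℕ) (hk : 0 < k) (ε : ℝ) (hε : 0 < ε) (hε1 : ε < 1) : ∃ X0 : ℕ,
    ∀ x : Fin k → ℂ, AlgebraicIndependent ℚ x → ∀ X : ℕ, X0 ≤ X →
      ({a : ℕ | (1 ≤ a ∧ a ≤ X) ∧
        Rel (Fin (k + 1)) ⌊(1 - ε) * Real.log (Real.log X)⌋₊
          (Fin.cons ((Real.log (a : ℝ) : ℝ) : ℂ) x)}.ncard : ℝ) ≤ ε * X := by
  classical
  obtain ⟨C, hC, hM⟩ := L_mertens
  obtain ⟨y0, hy0⟩ := asym k ε hε hε1
  obtain ⟨X0, hX0⟩ := eventually_atTop.1 (grow_params k ε C y0 hε hε1)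
  refine ⟨X0, fun x hx X hX => ?_⟩
  obtain ⟨h1, h2, h3, h4, h5, h6, h7, h8, h9, h10, h11⟩ := hX0 X hX _ rfl
  set y : ℝ := Real.log (Real.log X) with hy
  set d : ℕ := ⌊(1 - ε) * y⌋₊ with hd
  set u : ℕ := ⌈(1 - ε / 2) * y⌉₊ with hu
  set r : ℕ := ⌈Real.exp (y ^ (k + 1))⌉₊ with hr
  set J : ℕ := Nat.sqrt X / r with hJ
  have hypos : 0 < y := by linarith
  have hXpos : (0 : ℝ) < X := by linarith
  have hd1 : 0 < d := Nat.floor_pos.2 h3
  have hdle : (d : ℝ) ≤ (1 - ε) * y := Nat.floor_le (by linarith)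
  have hule : (1 - ε / 2) * y ≤ u := Nat.le_ceil _
  have hulta : (u : ℝ) < (1 - ε / 2) * y + 1 :=
    Nat.ceil_lt_add_one (mul_nonneg (by linarith) hypos.le)
  have huy : (u : ℝ) ≤ y := by
    have h12 : (1 - ε / 2) * y + 4 * (ε / 8 * y) = y := by ring
    linarith
  have hrle : Real.exp (y ^ (k + 1)) ≤ r := Nat.le_ceil _
  have hr3 : (3 : ℝ) ≤ r := h11.trans hrle
  have hr3' : 3 ≤ r := by exact_mod_cast hr3
  have hrpos : 0 < r := by omega
  have hrub : (r : ℝ) ≤ Real.exp (2 * y ^ (k + 1)) := by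
    have h12 : (r : ℝ) < Real.exp (y ^ (k + 1)) + 1 :=
      Nat.ceil_lt_add_one (Real.exp_pos _).le
    have h13 : Real.exp (2 * y ^ (k + 1)) = Real.exp (y ^ (k + 1)) * Real.exp (y ^ (k + 1)) := by
      rw [← Real.exp_add]
      ring_nf
    rw [h13]
    nlinarith
  have hrX : (r : ℝ) ≤ X / 2 := by
    refine hrub.trans ?_
    rw [← Real.le_log_iff_exp_le (by positivity)]
    exact h8
  -- the sum
  set S : ℝ := ∑ i ∈ Finset.range (J * r), 1 / (q (r + i) : ℝ) with hS
  have hSeq : S = L (r + J * r) - L r := L_shift r (J * r)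
  have hsq : Nat.sqrt X ≤ X := Nat.sqrt_le_self X
  have hJr : J * r ≤ Nat.sqrt X := Nat.div_mul_le_self _ _
  have hsq2 : (Nat.sqrt X : ℝ) ≤ X / 2 := by
    have h12 : Nat.sqrt X * Nat.sqrt X ≤ X := Nat.sqrt_le X
    have h13 : (Nat.sqrt X : ℝ) * Nat.sqrt X ≤ X := by exact_mod_cast h12
    by_contra hcon
    push Not at hcon
    nlinarith
  have hge : Nat.sqrt X + 1 ≤ r + J * r := by
    have := Nat.lt_mul_div_succ (Nat.sqrt X) hrpos
    rw [← hJ] at this
    nlinarith
  have hlogX : 0 < Real.log X := by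
    by_contra hcon
    push Not at hcon
    have : 0 ≤ Real.log X := Real.log_nonneg (by linarith)
    have h12 : Real.log X = 0 := le_antisymm hcon this
    rw [hy, h12, Real.log_zero] at h2
    linarith
  have hhalf : Real.log X / 2 ≤ Real.log ((r + J * r : ℕ) : ℝ) := by
    have h12 : X < (Nat.sqrt X + 1) * (Nat.sqrt X + 1) := Nat.lt_succ_sqrt X
    have h13 : (X : ℝ) ≤ ((r + J * r : ℕ) : ℝ) ^ 2 := by
      have h14 : X ≤ (r + J * r) ^ 2 := by nlinarith
      exact_mod_cast h14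
    have h14 := Real.log_le_log hXpos h13
    rw [Real.log_pow] at h14
    push_cast at h14 ⊢
    linarith
  have hle : ((r + J * r : ℕ) : ℝ) ≤ X := by
    have h12 : ((J * r : ℕ) : ℝ) ≤ Nat.sqrt X := by exact_mod_cast hJr
    push_cast at h12 ⊢
    linarith
  have hlow : y - Real.log 2 - C ≤ L (r + J * r) := by
    have h12 := (abs_le.1 (hM (r + J * r) (by omega))).1
    have h13 : y - Real.log 2 ≤ Real.log (Real.log ((r + J * r : ℕ) : ℝ)) := by
      rw [hy, ← Real.log_div hlogX.ne' (by norm_num)]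
      exact Real.log_le_log (by positivity) hhalf
    linarith
  have hupp : L (r + J * r) ≤ y + C := by
    have h12 := (abs_le.1 (hM (r + J * r) (by omega))).2
    have h13 : Real.log (Real.log ((r + J * r : ℕ) : ℝ)) ≤ y := by
      have h14 : (0 : ℝ) < Real.log ((r + J * r : ℕ) : ℝ) := by linarith
      exact Real.log_le_log h14 (Real.log_le_log (by
        have : 0 < r + J * r := by omega
        exact_mod_cast this) hle)
    linarith
  have hLr : L r ≤ Real.log 2 + (k + 1) * Real.log y + C := by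
    have h12 := (abs_le.1 (hM r hr3')).2
    have h13 : Real.log (Real.log (r : ℝ)) ≤ Real.log 2 + (k + 1) * Real.log y := by
      have h14 : Real.log (r : ℝ) ≤ 2 * y ^ (k + 1) := by
        rw [Real.log_le_iff_le_exp (by linarith)]
        exact hrub
      have h15 : 0 < Real.log (r : ℝ) := Real.log_pos (by linarith)
      have h16 := Real.log_le_log h15 h14
      rw [Real.log_mul (by norm_num) (pow_pos hypos _).ne', Real.log_pow] at h16
      push_cast at h16
      linarith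
    linarith
  have hSlow : (1 - ε / 4) * y ≤ S := by
    rw [hSeq]
    have h12 : (1 - ε / 4) * y = y - ε / 4 * y := by ring
    linarith
  have hL0 : 0 ≤ L r := L_nonneg r
  have hSupp : S ≤ 2 * y := by
    rw [hSeq]
    linarith
  have hey : (1 - ε / 4) * y = (1 - ε) * y + 3 / 4 * (ε * y) := by ring
  have heyp : 0 < ε * y := mul_pos hε hypos
  have hS1 : 1 ≤ S := by linarith
  have hgap : ε / 8 * y ≤ S - u := by
    have h12 : (1 - ε / 4) * y - (1 - ε / 2) * y - ε / 8 * y = ε / 8 * y := by ring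
    linarith
  -- the theorem `gen`
  have hgen := gen (fun i => q (r + i)) (fun i => q_prime _)
    (fun i j hij => q_strictMono (by omega)) u r J hrpos
    (((u * r + 1 + d - 2).choose (d - 1) * 2 ^ ((k + d).choose d) : ℕ) : ℝ) (by positivity)
    {a : ℕ | Rel (Fin (k + 1)) d (Fin.cons ((Real.log (a : ℝ) : ℝ) : ℂ) x)}
    (fun b hb T hT hTc => by
      have h12 := hered hk hd1 x T hT (not_rel_of_algInd hx _) b hb
      have h13 : {T' : Finset ℕ | T' ⊆ T ∧ T'.card = u ∧ b * ∏ p ∈ T', p ∈ {a : ℕ |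
          Rel (Fin (k + 1)) d (Fin.cons ((Real.log (a : ℝ) : ℝ) : ℂ) x)}}.ncard ≤
          (T.card + 1 + d - 2).choose (d - 1) * 2 ^ ((k + d).choose d) := by
        refine le_trans (Set.ncard_le_ncard ?_ ?_) h12
        · rintro T' ⟨h1, -, h3⟩
          exact ⟨h1, h3⟩
        · refine (Finset.finite_toSet T.powerset).subset fun T' hT' => ?_
          rw [Finset.mem_coe, Finset.mem_powerset]
          exact hT'.1
      have h14 : (T.card + 1 + d - 2).choose (d - 1) ≤ (u * r + 1 + d - 2).choose (d - 1) :=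
        Nat.choose_le_choose _ (by omega)
      exact_mod_cast h13.trans (Nat.mul_le_mul_right _ h14))
    (by
      show (u : ℝ) < S
      have h12 : ε / 8 * y = 1 / 8 * (ε * y) := by ring
      linarith) X
  rw [← hS] at hgen
  have e : {a : ℕ | (1 ≤ a ∧ a ≤ X) ∧
      Rel (Fin (k + 1)) d (Fin.cons ((Real.log (a : ℝ) : ℝ) : ℂ) x)} =
      {a : ℕ | a ∈ {a : ℕ | Rel (Fin (k + 1)) d (Fin.cons ((Real.log (a : ℝ) : ℝ) : ℂ) x)} ∧
        1 ≤ a ∧ a ≤ X} := by
    ext a
    constructor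
    · rintro ⟨⟨h1, h2⟩, h3⟩
      exact ⟨h3, h1, h2⟩
    · rintro ⟨h3, h1, h2⟩
      exact ⟨⟨h1, h2⟩, h3⟩
  rw [e]
  refine hgen.trans ?_
  have ha := hy0 y h1 d u r S hdle hule huy hrle hS1 hSupp
  set K : ℝ := (((u * r + 1 + d - 2).choose (d - 1) * 2 ^ ((k + d).choose d) : ℕ) : ℝ) with hK
  have hK0 : 0 ≤ K := by positivity
  have hrr : (0 : ℝ) < r := by linarith
  have hq0 : 1 / (q (r + 0) : ℝ) ≤ S / r := by
    have h12 : (r : ℝ) ≤ q (r + 0) := by
      have := q_strictMono.le_apply (x := r)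
      exact_mod_cast this
    calc 1 / (q (r + 0) : ℝ) ≤ 1 / r := one_div_le_one_div_of_le hrr h12
      _ ≤ S / r := div_le_div_of_nonneg_right hS1 hrr.le
  have hterm1 : K * X * (1 / (q (r + 0) : ℝ) + S / r) ^ u ≤ ε / 2 * X := by
    calc K * X * (1 / (q (r + 0) : ℝ) + S / r) ^ u ≤ K * X * (2 * S / r) ^ u := by
          refine mul_le_mul_of_nonneg_left ?_ (by positivity)
          refine pow_le_pow_left₀ (by positivity) ?_ u
          calc 1 / (q (r + 0) : ℝ) + S / r ≤ S / r + S / r := by linarith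
            _ = 2 * S / r := by ring
      _ = K * (2 * S / r) ^ u * X := by ring
      _ ≤ ε / 2 * X := mul_le_mul_of_nonneg_right ha hXpos.le
  have hterm2 : (X * S + 2 * S * (J * r)) / (S - u) ^ 2 ≤ ε / 2 * X := by
    have h12 : ((J : ℝ) * r) ≤ X := by
      have h13 : ((J * r : ℕ) : ℝ) ≤ Nat.sqrt X := by exact_mod_cast hJr
      push_cast at h13
      linarith
    have h13 : X * S + 2 * S * (J * r) ≤ 6 * X * y := by
      have h16 : 2 * S * (J * r) ≤ 2 * S * X :=
        mul_le_mul_of_nonneg_left h12 (by linarith)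
      have h17 : X * S ≤ X * (2 * y) := mul_le_mul_of_nonneg_left hSupp hXpos.le
      calc X * S + 2 * S * (J * r) ≤ X * S + 2 * S * X := by linarith
        _ = 3 * (X * S) := by ring
        _ ≤ 3 * (X * (2 * y)) := by linarith
        _ = 6 * X * y := by ring
    have h14 : (ε / 8 * y) ^ 2 ≤ (S - u) ^ 2 := pow_le_pow_left₀ (by positivity) hgap 2
    rw [div_le_iff₀ (lt_of_lt_of_le (by positivity) h14)]
    have h15 : 6 * X * y ≤ ε / 2 * X * (ε / 8 * y) ^ 2 := by
      have h16 : ε / 2 * X * (ε / 8 * y) ^ 2 = (ε ^ 3 * y) * (X * y) / 128 := by ring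
      rw [h16, le_div_iff₀ (by norm_num)]
      have h17 : 0 < (X : ℝ) * y := by positivity
      calc 6 * X * y * 128 = 768 * (X * y) := by ring
        _ ≤ ε ^ 3 * y * (X * y) := mul_le_mul_of_nonneg_right h7 h17.le
    calc _ ≤ 6 * X * y := h13
      _ ≤ ε / 2 * X * (ε / 8 * y) ^ 2 := h15
      _ ≤ _ := mul_le_mul_of_nonneg_left h14 (by positivity)
  calc _ ≤ ε / 2 * X + ε / 2 * X := add_le_add hterm1 hterm2
    _ = ε * X := by ring

end Pool.Agent.QDen
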