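import Pool.Agent.QDen.Hered
import Pool.Agent.QDen.Dens
import Mathlib.RingTheory.AlgebraicIndependent.AlgebraicClosure

/-!
# The integers whose logarithm satisfies a relation of degree `≤ d` with given numbers have
density zero
-/

namespace Pool.Agent.QDen

open MvPolynomial

theorem not_rel_of_algInd {σ : Type} {z : σ → ℂ} (hz : AlgebraicIndependent ℚ z) (d : ℕ) :
    ¬ Rel σ d z := by
  rintro ⟨P, h0, -, h2, h3⟩
  have h4 := hz.algebraicClosure
  have h5 : P ∈ Set.range (MvPolynomial.map (σ := σ) (algebraMap (algebraicClosure ℚ ℂ) ℂ)) := by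
    rw [mem_range_map_iff_coeffs_subset]
    intro c hc
    obtain ⟨e, -, rfl⟩ := mem_coeffs_iff.1 (Finset.mem_coe.1 hc)
    exact ⟨⟨P.coeff e, mem_algebraicClosure_iff.2 (h2 e)⟩, rfl⟩
  obtain ⟨Q, rfl⟩ := h5
  rw [eval_map, ← aeval_def] at h3
  refine h0 ?_
  rw [(algebraicIndependent_iff.1 h4) Q h3, map_zero]

theorem rel_mono {σ : Type} {z : σ → ℂ} {d e : ℕ} (h : d ≤ e) (hz : Rel σ d z) : Rel σ e z := by
  obtain ⟨P, h0, h1, h2, h3⟩ := hz
  exact ⟨P, h0, h1.trans h, h2, h3⟩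

theorem not_rel_zero {σ : Type} {z : σ → ℂ} : ¬ Rel σ 0 z := by
  rintro ⟨P, h0, h1, -, h3⟩
  rw [Nat.le_zero, totalDegree_eq_zero_iff_eq_C] at h1
  rw [h1, eval_C] at h3
  rw [h3, map_zero] at h1
  exact h0 h1

theorem transcendental_log {a : ℕ} (ha : 2 ≤ a) :
    Transcendental ℚ ((Real.log (a : ℝ) : ℝ) : ℂ) := by
  intro hal
  have ha1 : (1 : ℝ) < a := by exact_mod_cast ha
  have hne : ((Real.log (a : ℝ) : ℝ) : ℂ) ≠ 0 := by
    exact_mod_cast (Real.log_pos ha1).ne'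
  have h := Pool.Agent.BKR.baker (ι := Unit) (fun _ => ((Real.log (a : ℝ) : ℝ) : ℂ))
    (by
      rw [Fintype.linearIndependent_iff]
      intro g hg i
      have hg' : g () • ((Real.log (a : ℝ) : ℝ) : ℂ) = 0 := by simpa using hg
      exact (smul_eq_zero.1 hg').resolve_right hne)
    (fun _ => by
      rw [← Complex.ofReal_exp, Real.exp_log (by linarith)]
      exact_mod_cast isAlgebraic_natCast (R := ℚ) (A := ℂ) a)
    (fun _ => 1) (-((Real.log (a : ℝ) : ℝ) : ℂ)) (fun _ => isAlgebraic_one) hal.neg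
    (by simp)
  exact one_ne_zero (h.2 ())

theorem one (k d : ℕ) (ε : ℝ) (hε : 0 < ε) : ∃ D X0 : ℕ, ∀ x : Fin k → ℂ, ¬ Rel (Fin k) D x →
    ∀ X : ℕ, X0 ≤ X →
      ({a : ℕ | (1 ≤ a ∧ a ≤ X) ∧
        Rel (Fin (k + 1)) d (Fin.cons ((Real.log (a : ℝ) : ℝ) : ℂ) x)}.ncard : ℝ) ≤ ε * X := by
  classical
  rcases Nat.eq_zero_or_pos d with rfl | hd
  · refine ⟨0, 0, fun x _ X _ => ?_⟩
    rw [show {a : ℕ | (1 ≤ a ∧ a ≤ X) ∧
        Rel (Fin (k + 1)) 0 (Fin.cons ((Real.log (a : ℝ) : ℝ) : ℂ) x)} = ∅ from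
      Set.eq_empty_iff_forall_notMem.2 fun a ha => not_rel_zero ha.2]
    simp only [Set.ncard_empty, Nat.cast_zero]
    positivity
  rcases Nat.eq_zero_or_pos k with rfl | hk
  · obtain ⟨X0, hX0⟩ := exists_nat_ge (1 / ε)
    refine ⟨0, X0, fun x _ X hX => ?_⟩
    have h1 : {a : ℕ | (1 ≤ a ∧ a ≤ X) ∧
        Rel (Fin (0 + 1)) d (Fin.cons ((Real.log (a : ℝ) : ℝ) : ℂ) x)} ⊆ {1} := by
      rintro a ⟨⟨ha1, -⟩, ha⟩
      by_contra h
      have ha2 : 2 ≤ a := by
        have : a ≠ 1 := h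
        omega
      refine not_rel_of_algInd (σ := Fin 1) ?_ d ha
      exact algebraicIndependent_unique_type_iff.2 (transcendental_log ha2)
    have h2 : ({a : ℕ | (1 ≤ a ∧ a ≤ X) ∧
        Rel (Fin (0 + 1)) d (Fin.cons ((Real.log (a : ℝ) : ℝ) : ℂ) x)}.ncard : ℝ) ≤ 1 := by
      have := Set.ncard_le_ncard h1 (Set.finite_singleton 1)
      rw [Set.ncard_singleton] at this
      exact_mod_cast this
    refine h2.trans ?_
    have h3 : (X0 : ℝ) ≤ X := by exact_mod_cast hX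
    have h4 : 1 / ε ≤ X := hX0.trans h3
    rw [div_le_iff₀ hε] at h4
    linarith
  · obtain ⟨r, X0, hr, h⟩ := density d hd ((2 * d : ℝ) ^ (d - 1) * 2 ^ ((k + d).choose d)) ε hε
    refine ⟨d ^ (d * r + 2), X0, fun x hx X hX => ?_⟩
    have h1 := h {a : ℕ | Rel (Fin (k + 1)) d (Fin.cons ((Real.log (a : ℝ) : ℝ) : ℂ) x)}
      (fun b hb S hS hSc => ?_) X hX
    · refine le_trans (le_of_eq ?_) h1
      congr 2
      ext a
      constructor
      · rintro ⟨⟨h1, h2⟩, h3⟩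
        exact ⟨h3, h1, h2⟩
      · rintro ⟨h3, h1, h2⟩
        exact ⟨⟨h1, h2⟩, h3⟩
    · have h2 := hered hk hd x S hS (fun h3 => hx (rel_mono (Nat.pow_le_pow_right hd
        (by omega)) h3)) b hb
      have h3 : {T : Finset ℕ | T ⊆ S ∧ T.card = d ∧ b * ∏ p ∈ T, p ∈ {a : ℕ |
          Rel (Fin (k + 1)) d (Fin.cons ((Real.log (a : ℝ) : ℝ) : ℂ) x)}}.ncard ≤
          (S.card + 1 + d - 2).choose (d - 1) * 2 ^ ((k + d).choose d) := by
        refine le_trans (Set.ncard_le_ncard ?_ ?_) h2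
        · rintro T ⟨h1, -, h3⟩
          exact ⟨h1, h3⟩
        · refine (Finset.finite_toSet S.powerset).subset fun T hT => ?_
          rw [Finset.mem_coe, Finset.mem_powerset]
          exact hT.1
      have h4 : (S.card + 1 + d - 2).choose (d - 1) ≤ (2 * d * r) ^ (d - 1) := by
        refine (Nat.choose_le_pow _ _).trans (Nat.pow_le_pow_left ?_ _)
        have : d ≤ d * r := Nat.le_mul_of_pos_right d hr
        have h5 : 2 * d * r = d * r + d * r := by ring
        omega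
      calc _ ≤ (((S.card + 1 + d - 2).choose (d - 1) * 2 ^ ((k + d).choose d) : ℕ) : ℝ) := by
            exact_mod_cast h3
        _ ≤ (((2 * d * r) ^ (d - 1) * 2 ^ ((k + d).choose d) : ℕ) : ℝ) := by
            exact_mod_cast Nat.mul_le_mul_right _ h4
        _ = _ := by
            push_cast
            rw [mul_pow]
            ring

end Pool.Agent.QDen
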