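import Pool.Agent.QDen.Hered
import Pool.Agent.QDen.One
import Pool.Agent.QDen.Box

set_option autoImplicit false

/-! # A power saving for the number of bad sets of primes, with a fixed degree `D` -/

namespace Pool.Agent.QDen

open Module Submodule

/-- At most `binom(R + d - 2, d - 1) 2 ^ binom(k + d, d)` subsets `T` of `S` (`R = |S| + 1`) have
the property that `log (b ∏ T)` and the numbers `x` satisfy a relation of degree `≤ d`. -/
theorem heredS {k d : ℕ} (hk : 0 < k) (hd : 0 < d) (x : Fin k → ℂ) (lam : ℂ)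
    (hlam : IsAlgebraic ℚ (Complex.exp lam)) (S : Finset ℕ)
    (hS : ∀ p ∈ S, p.Prime) (hx : ¬ Rel (Fin k) (d ^ (S.card + 2)) x) (b : ℕ) (hb : b ≠ 0) :
    {T : Finset ℕ | T ⊆ S ∧
      Rel (Fin (k + 1)) d
        (Fin.cons (lam + ((Real.log ((b * ∏ p ∈ T, p : ℕ) : ℝ) : ℝ) : ℂ)) x)}.ncard ≤
      (S.card + 1 + d - 2).choose (d - 1) * 2 ^ ((k + d).choose d) := by
  classical
  let t : Fin (S.card + 1) → ℂ :=
    Fin.cons (lam + ((Real.log (b : ℝ) : ℝ) : ℂ))
      (fun i => ((Real.log ((S.equivFin.symm i : ℕ) : ℝ) : ℝ) : ℂ))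
  have hexp : ∀ n : ℕ, n ≠ 0 → IsAlgebraic ℚ (Complex.exp ((Real.log (n : ℝ) : ℝ) : ℂ)) := by
    intro n hn
    rw [← Complex.ofReal_exp, Real.exp_log (by exact_mod_cast Nat.pos_of_ne_zero hn)]
    exact_mod_cast isAlgebraic_natCast (R := ℚ) (A := ℂ) n
  have ht : ∀ i, IsAlgebraic ℚ (Complex.exp (t i)) := by
    intro i
    refine Fin.cases ?_ (fun i => ?_) i
    · show IsAlgebraic ℚ (Complex.exp (lam + ((Real.log (b : ℝ) : ℝ) : ℂ)))
      rw [Complex.exp_add]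
      exact hlam.mul (hexp b hb)
    · exact hexp _ (hS _ (S.equivFin.symm i).2).ne_zero
  obtain ⟨n, U, hn, _, hU, hUeq⟩ := Pool.Agent.QN.main QF (fun c hc => by
      obtain ⟨q, rfl⟩ := (mem_QF c).1 hc
      exact isAlgebraic_ratCast ℚ q) hk hd (Nat.succ_pos _) x
    (fun P h1 h2 h3 => by
      by_contra h0
      exact hx ⟨P, h0, h2, h1, h3⟩) t
    (Pool.Agent.QR.free_logF (fun _ _ t ht he b b0 hb hb0 h =>
      Pool.Agent.BKR.baker t ht he b b0 hb hb0 h) QF mem_QF ht)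
  let w : S → ℂ := fun i => ((Real.log ((i : ℕ) : ℝ) : ℝ) : ℂ)
  have hw : LinearIndependent QF w := logs_indep S hS
  let c : ℂ := lam + ((Real.log (b : ℝ) : ℝ) : ℂ)
  have hval : ∀ T : Finset S, lam + (((Real.log ((b * ∏ p ∈ T.map (Function.Embedding.subtype _),
      p : ℕ) : ℝ) : ℝ)) : ℂ) = c + ∑ i ∈ T, w i := by
    intro T
    have h0 : ∀ i ∈ T, ((i : ℕ) : ℝ) ≠ 0 := fun i _ => by
      exact_mod_cast (hS i i.2).ne_zero
    rw [Finset.prod_map]
    simp only [Function.Embedding.coe_subtype]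
    push_cast
    rw [Real.log_mul (by exact_mod_cast hb) (by
      exact Finset.prod_ne_zero_iff.2 h0), Real.log_prod h0, Complex.ofReal_add,
      Complex.ofReal_sum, ← add_assoc]
  have hspan : ∀ T : Finset S, c + ∑ i ∈ T, w i ∈ span QF (Set.range t) := by
    intro T
    refine add_mem (subset_span ⟨0, rfl⟩) (sum_mem fun i _ => subset_span ?_)
    refine ⟨(S.equivFin i).succ, ?_⟩
    simp [t, w]
  have hcov : {T : Finset ℕ | T ⊆ S ∧
      Rel (Fin (k + 1)) d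
        (Fin.cons (lam + ((Real.log ((b * ∏ p ∈ T, p : ℕ) : ℝ) : ℝ) : ℂ)) x)} ⊆
      ⋃ i ∈ (Finset.univ : Finset (Fin n)), (fun T : Finset S =>
        T.map (Function.Embedding.subtype _)) '' {T : Finset S | c + ∑ i ∈ T, w i ∈ U i} := by
    rintro T ⟨hT, hrel⟩
    obtain ⟨T', rfl⟩ : ∃ T' : Finset S, T'.map (Function.Embedding.subtype _) = T :=
      ⟨T.subtype (· ∈ S), by
        rw [Finset.subtype_map]
        exact Finset.filter_true_of_mem hT⟩
    rw [hval] at hrel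
    have h1 : c + ∑ i ∈ T', w i ∈ ⋃ i, (U i : Set ℂ) := by
      rw [← hUeq]
      obtain ⟨P, h1, h2, h3, h4⟩ := hrel
      exact ⟨hspan T', P, h1, h2, h3, h4⟩
    obtain ⟨i, hi⟩ := Set.mem_iUnion.1 h1
    simp only [Finset.mem_univ, Set.iUnion_true, Set.mem_iUnion]
    exact ⟨i, T', hi, rfl⟩
  have hUi : ∀ i, {T : Finset S | c + ∑ i ∈ T, w i ∈ U i}.ncard ≤ 2 ^ ((k + d).choose d) := by
    intro i
    have : FiniteDimensional QF (span QF (Set.range t)) :=
      FiniteDimensional.span_of_finite QF (Set.finite_range t)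
    have : FiniteDimensional QF (U i) := Submodule.finiteDimensional_of_le (hU i).1
    exact (cube w hw c (U i)).trans (Nat.pow_le_pow_right (by norm_num) (hU i).2.le)
  refine (Set.ncard_le_ncard hcov (Set.toFinite _)).trans ?_
  refine (Finset.set_ncard_biUnion_le _ _).trans ?_
  refine (Finset.sum_le_card_nsmul _ _ (2 ^ ((k + d).choose d)) fun i _ => ?_).trans ?_
  · exact (Set.ncard_image_le (Set.toFinite _)).trans (hUi i)
  · rw [Finset.card_univ, Fintype.card_fin, smul_eq_mul]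
    exact Nat.mul_le_mul_right _ (by simpa using hn)


theorem hered_power {k d : ℕ} (hk : 0 < k) (hd : 0 < d) : ∃ (D : ℕ) (C c : ℝ), 0 < C ∧ 0 < c ∧
    c ≤ 1 ∧ ∀ x : Fin k → ℂ, ¬ Rel (Fin k) D x → ∀ lam : ℂ,
      IsAlgebraic ℚ (Complex.exp lam) → ∀ b : ℕ, b ≠ 0 → ∀ S : Finset ℕ,
      (∀ p ∈ S, p.Prime) → S.Nonempty →
      ({T : Finset ℕ | T ⊆ S ∧ T.card = d ∧
        Rel (Fin (k + 1)) d
          (Fin.cons (lam + ((Real.log ((b * ∏ p ∈ T, p : ℕ) : ℝ) : ℝ) : ℂ)) x)}.ncard :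
          ℝ) ≤ C * (S.card : ℝ) ^ ((d : ℝ) - c) := by
  classical
  set M : ℕ := 2 ^ ((k + d).choose d) with hM
  set t : ℕ := (2 * d) ^ (d - 1) * M + 1 with ht
  obtain ⟨C, c, hC, hc, hc1, hbox⟩ := box_sets d t
  refine ⟨d ^ (d * t + 2), C, c, hC, hc, hc1, fun x hx lam hlam b hb S hS hSne => ?_⟩
  set H : Finset (Finset ℕ) := S.powerset.filter fun T => T.card = d ∧
    Rel (Fin (k + 1)) d
          (Fin.cons (lam + ((Real.log ((b * ∏ p ∈ T, p : ℕ) : ℝ) : ℝ) : ℂ)) x) with hH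
  have e : {T : Finset ℕ | T ⊆ S ∧ T.card = d ∧
      Rel (Fin (k + 1)) d
          (Fin.cons (lam + ((Real.log ((b * ∏ p ∈ T, p : ℕ) : ℝ) : ℝ) : ℂ)) x)} = ↑H := by
    ext T
    simp [hH]
  rw [e, Set.ncard_coe_finset]
  by_contra hcon
  push Not at hcon
  obtain ⟨S', hS', hS'c, hS't⟩ := hbox S hSne H (fun T hT => by
    rw [hH, Finset.mem_filter, Finset.mem_powerset] at hT
    exact ⟨hT.1, hT.2.1⟩) hcon
  have hfin : {T : Finset ℕ | T ⊆ S' ∧
      Rel (Fin (k + 1)) d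
        (Fin.cons (lam + ((Real.log ((b * ∏ p ∈ T, p : ℕ) : ℝ) : ℝ) : ℂ)) x)}.Finite := by
    refine (Finset.finite_toSet S'.powerset).subset fun T hT => ?_
    rw [Finset.mem_coe, Finset.mem_powerset]
    exact hT.1
  have h1 := heredS hk hd x lam hlam S' (fun p hp => hS p (hS' hp)) (fun h3 => hx (rel_mono
    (Nat.pow_le_pow_right hd (by omega)) h3)) b hb
  have h2 : (H.filter (· ⊆ S')).card ≤ (S'.card + 1 + d - 2).choose (d - 1) * M := by
    refine le_trans ?_ h1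
    rw [← Set.ncard_coe_finset]
    refine Set.ncard_le_ncard ?_ hfin
    intro T hT
    rw [Finset.mem_coe, Finset.mem_filter, hH, Finset.mem_filter] at hT
    exact ⟨hT.2, hT.1.2.2⟩
  have ht1 : 1 ≤ t := by omega
  have h3 : (S'.card + 1 + d - 2).choose (d - 1) ≤ (2 * d * t) ^ (d - 1) := by
    refine (Nat.choose_le_pow _ _).trans (Nat.pow_le_pow_left ?_ _)
    have : d ≤ d * t := Nat.le_mul_of_pos_right d ht1
    have h5 : 2 * d * t = d * t + d * t := by ring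
    omega
  have h4 : t ^ d ≤ (2 * d * t) ^ (d - 1) * M :=
    hS't.trans (h2.trans (Nat.mul_le_mul_right _ h3))
  have h5 : t ^ d = t ^ (d - 1) * t := by
    rw [← pow_succ]
    congr 1
    omega
  have h6 : (2 * d * t) ^ (d - 1) * M = t ^ (d - 1) * ((2 * d) ^ (d - 1) * M) := by
    rw [mul_pow]
    ring
  rw [h5, h6] at h4
  have h7 : t ≤ (2 * d) ^ (d - 1) * M := Nat.le_of_mul_le_mul_left h4 (by positivity)
  omega

end Pool.Agent.QDen
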