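import Pool.Agent.QDen.Hered

/-!
# Induction on the number of integers: almost all tuples of logarithms have no relation of
degree `≤ d` together with given numbers
-/

namespace Pool.Agent.QDen

/-- A relation between some of the numbers `z i` is a relation between all of them. -/
theorem rel_of_injective {σ τ : Type} (f : σ → τ) (hf : Function.Injective f) {d : ℕ} {z : τ → ℂ}
    (h : Rel σ d (z ∘ f)) : Rel τ d z := by
  obtain ⟨P, hP0, hPd, hPa, hPe⟩ := h
  refine ⟨MvPolynomial.rename f P, ?_, ?_, ?_, ?_⟩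
  · intro h0
    exact hP0 (MvPolynomial.rename_injective f hf (by simpa using h0))
  · exact (MvPolynomial.totalDegree_rename_le f P).trans hPd
  · intro m
    by_cases hm : ∃ u : σ →₀ ℕ, u.mapDomain f = m
    · obtain ⟨u, rfl⟩ := hm
      rw [MvPolynomial.coeff_rename_mapDomain f hf]
      exact hPa u
    · rw [MvPolynomial.coeff_rename_eq_zero f P m fun u hu => absurd ⟨u, hu⟩ hm]
      exact isAlgebraic_zero
  · rw [MvPolynomial.eval_rename]
    exact hPe

/-- the finite set of the bad tuples has the expected cardinality -/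
theorem ncard_box {l : ℕ} (X : Fin l → ℕ) (p : (Fin l → ℕ) → Prop) [DecidablePred p] :
    {a : Fin l → ℕ | (∀ i, 1 ≤ a i ∧ a i ≤ X i) ∧ p a}.ncard =
      ((Fintype.piFinset fun i => Finset.Icc 1 (X i)).filter p).card := by
  rw [← Set.ncard_coe_finset]
  congr 1
  ext a
  simp [Fintype.mem_piFinset, Finset.mem_Icc]

/-- the change of the index set -/
def reidx (k l : ℕ) : Fin k ⊕ Fin (l + 1) → Fin (k + l + 1) :=
  Sum.elim (fun j => (finSumFinEquiv (Sum.inl j)).succ)
    (Fin.cons 0 fun j => (finSumFinEquiv (Sum.inr j)).succ)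

theorem reidx_injective (k l : ℕ) : Function.Injective (reidx k l) := by
  have h1 : ∀ (u : Fin k ⊕ Fin (l + 1)), reidx k l u = 0 ∨ ∃ v : Fin k ⊕ Fin l,
      reidx k l u = (finSumFinEquiv v).succ ∧ u = Sum.map id Fin.succ v := by
    rintro (i | i)
    · exact Or.inr ⟨Sum.inl i, rfl, rfl⟩
    · refine Fin.cases ?_ (fun i => ?_) i
      · exact Or.inl rfl
      · exact Or.inr ⟨Sum.inr i, rfl, rfl⟩
  have h2 : ∀ (u : Fin k ⊕ Fin (l + 1)), reidx k l u = 0 → u = Sum.inr 0 := by
    rintro (i | i) h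
    · exact absurd h (Fin.succ_ne_zero _)
    · revert h
      refine Fin.cases ?_ (fun i => ?_) i
      · exact fun _ => rfl
      · exact fun h => absurd h (Fin.succ_ne_zero _)
  intro u v huv
  rcases h1 u with hu | ⟨u', hu, rfl⟩
  · rw [h2 u hu, h2 v (huv ▸ hu)]
  · rcases h1 v with hv | ⟨v', hv, rfl⟩
    · rw [h2 _ hv, h2 _ (huv.trans hv)]
    · rw [hu, hv] at huv
      rw [finSumFinEquiv.injective (Fin.succ_injective _ huv)]

open Classical in
/-- Almost all tuples of positive integers: the logarithms have no relation of degree `≤ d` with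
given numbers `x` that have no relation of degree `≤ D`. -/
theorem tuples_of (one : ∀ (k d : ℕ) (ε : ℝ), 0 < ε → ∃ D X0 : ℕ, ∀ x : Fin k → ℂ,
      ¬ Rel (Fin k) D x → ∀ X : ℕ, X0 ≤ X →
      ({a : ℕ | (1 ≤ a ∧ a ≤ X) ∧
        Rel (Fin (k + 1)) d (Fin.cons ((Real.log (a : ℝ) : ℝ) : ℂ) x)}.ncard : ℝ) ≤ ε * X)
    (k l d : ℕ) (ε : ℝ) (hε : 0 < ε) : ∃ D X0 : ℕ, ∀ x : Fin k → ℂ,
    ¬ Rel (Fin k) D x → ∀ X : Fin l → ℕ, (∀ i, X0 ≤ X i) →
    ({a : Fin l → ℕ | (∀ i, 1 ≤ a i ∧ a i ≤ X i) ∧
      Rel (Fin k ⊕ Fin l) d (Sum.elim x fun i => ((Real.log (a i : ℝ) : ℝ) : ℂ))}.ncard : ℝ) ≤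
      ε * ∏ i, (X i : ℝ) := by
  induction l generalizing d ε with
  | zero =>
    refine ⟨d, 0, fun x hx X _ => ?_⟩
    have h0 : {a : Fin 0 → ℕ | (∀ i, 1 ≤ a i ∧ a i ≤ X i) ∧
        Rel (Fin k ⊕ Fin 0) d (Sum.elim x fun i => ((Real.log (a i : ℝ) : ℝ) : ℂ))} = ∅ := by
      rw [Set.eq_empty_iff_forall_notMem]
      rintro a ⟨-, ha⟩
      refine hx (rel_of_injective (Sum.elim id fun i : Fin 0 => i.elim0) ?_ ?_)
      · rintro (i | i) (j | j) h
        · simpa using h
        · exact j.elim0
        · exact i.elim0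
        · exact i.elim0
      · convert ha using 1
        funext i
        rcases i with i | i
        · rfl
        · exact i.elim0
    rw [h0]
    simp [hε.le]
  | succ l ih =>
    obtain ⟨D1, X1, h1⟩ := one (k + l) d (ε / 2) (half_pos hε)
    obtain ⟨D2, X2, h2⟩ := ih D1 (ε / 2) (half_pos hε)
    refine ⟨D2, max X1 X2, fun x hx X hX => ?_⟩
    set X' : Fin l → ℕ := fun i => X i.succ with hX'
    have hb := h2 x hx X' fun i => (le_max_right _ _).trans (hX _)
    rw [ncard_box X'] at hb
    rw [ncard_box X]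
    set Bx' := Fintype.piFinset fun i => Finset.Icc 1 (X' i) with hBx'
    set Bd' := Bx'.filter fun a' => Rel (Fin k ⊕ Fin l) D1
      (Sum.elim x fun i => ((Real.log (a' i : ℝ) : ℝ) : ℂ)) with hBd'
    set S := (Fintype.piFinset fun i => Finset.Icc 1 (X i)).filter fun a =>
      Rel (Fin k ⊕ Fin (l + 1)) d (Sum.elim x fun i => ((Real.log (a i : ℝ) : ℝ) : ℂ)) with hS
    have hmem : ∀ a ∈ S, Fin.tail a ∈ Bx' := by
      intro a ha
      rw [hS, Finset.mem_filter, Fintype.mem_piFinset] at ha
      rw [hBx', Fintype.mem_piFinset]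
      exact fun i => ha.1 i.succ
    have hcard : S.card = ∑ a' ∈ Bx', (S.filter fun a => Fin.tail a = a').card :=
      Finset.card_eq_sum_card_fiberwise hmem
    -- the fibres
    have hfib0 : ∀ a' : Fin l → ℕ, (S.filter fun a => Fin.tail a = a').card ≤
        ((Finset.Icc 1 (X 0)).filter fun a0 => Rel (Fin k ⊕ Fin (l + 1)) d (Sum.elim x fun i =>
          ((Real.log (((Fin.cons a0 a' : Fin (l + 1) → ℕ) i : ℕ) : ℝ) : ℝ) : ℂ))).card := by
      intro a'
      refine Finset.card_le_card_of_injOn (fun a => a 0) ?_ ?_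
      · intro a ha
        simp only [Finset.coe_filter, Set.mem_ofPred_eq] at ha
        obtain ⟨haS, rfl⟩ := ha
        rw [hS, Finset.mem_filter, Fintype.mem_piFinset] at haS
        simp only [Finset.coe_filter, Set.mem_ofPred_eq]
        refine ⟨haS.1 0, ?_⟩
        have h := haS.2
        rw [show a = (Fin.cons (a 0) (Fin.tail a) : Fin (l + 1) → ℕ) from
          (Fin.cons_self_tail a).symm] at h
        exact h
      · intro a ha b hb hab
        simp only [Finset.coe_filter, Set.mem_ofPred_eq] at ha hb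
        rw [← Fin.cons_self_tail a, ← Fin.cons_self_tail b, ha.2, hb.2]
        exact congrArg (fun t : ℕ => (Fin.cons t a' : Fin (l + 1) → ℕ)) hab
    have hfib1 : ∀ a' : Fin l → ℕ, ((S.filter fun a => Fin.tail a = a').card : ℝ) ≤ X 0 := by
      intro a'
      have h := (hfib0 a').trans (Finset.card_filter_le _ _)
      rw [Nat.card_Icc, Nat.add_sub_cancel] at h
      exact_mod_cast h
    have hfib2 : ∀ a' ∈ Bx', a' ∉ Bd' →
        ((S.filter fun a => Fin.tail a = a').card : ℝ) ≤ ε / 2 * X 0 := by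
      intro a' ha' hn
      have hnr : ¬ Rel (Fin k ⊕ Fin l) D1
          (Sum.elim x fun i => ((Real.log (a' i : ℝ) : ℝ) : ℂ)) := fun h =>
        hn (by rw [hBd', Finset.mem_filter]; exact ⟨ha', h⟩)
      have hnr' : ¬ Rel (Fin (k + l)) D1
          ((Sum.elim x fun i => ((Real.log (a' i : ℝ) : ℝ) : ℂ)) ∘ finSumFinEquiv.symm) :=
        fun h => hnr (rel_of_injective _ finSumFinEquiv.symm.injective h)
      have h := h1 _ hnr' (X 0) ((le_max_left _ _).trans (hX 0))
      refine le_trans ?_ h
      have h3 : ((S.filter fun a => Fin.tail a = a').card) ≤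
          ({a : ℕ | (1 ≤ a ∧ a ≤ X 0) ∧ Rel (Fin (k + l + 1)) d
            (Fin.cons ((Real.log (a : ℝ) : ℝ) : ℂ)
              ((Sum.elim x fun i => ((Real.log (a' i : ℝ) : ℝ) : ℂ)) ∘
                finSumFinEquiv.symm))}.ncard) := by
        refine (hfib0 a').trans ?_
        rw [← Set.ncard_coe_finset]
        refine Set.ncard_le_ncard ?_ ((Set.finite_Icc 1 (X 0)).subset fun a ha => ha.1)
        intro a ha
        simp only [Finset.coe_filter, Set.mem_ofPred_eq, Finset.mem_Icc] at ha
        refine ⟨ha.1, ?_⟩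
        refine rel_of_injective (reidx k l) ?_ ?_
        · exact reidx_injective k l
        · convert ha.2 using 1
          funext i
          rcases i with i | i
          · simp [reidx]
          · refine Fin.cases ?_ (fun i => ?_) i
            · simp [reidx]
            · simp [reidx]
      exact_mod_cast h3
    -- the sum
    have hprod : (∏ i, (X i : ℝ)) = X 0 * ∏ i, (X' i : ℝ) := Fin.prod_univ_succ _
    have hBxc : (Bx'.card : ℝ) = ∏ i, (X' i : ℝ) := by
      rw [hBx', Fintype.card_piFinset]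
      push_cast
      refine Finset.prod_congr rfl fun i _ => ?_
      rw [Nat.card_Icc, Nat.add_sub_cancel]
    have hX0 : (0 : ℝ) ≤ X 0 := Nat.cast_nonneg _
    calc (S.card : ℝ) = ∑ a' ∈ Bx', ((S.filter fun a => Fin.tail a = a').card : ℝ) := by
          rw [hcard]; push_cast; rfl
      _ ≤ ∑ a' ∈ Bx', ((if a' ∈ Bd' then (X 0 : ℝ) else 0) + ε / 2 * X 0) := by
          refine Finset.sum_le_sum fun a' ha' => ?_
          by_cases h : a' ∈ Bd'
          · rw [if_pos h]
            have := hfib1 a'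
            nlinarith
          · rw [if_neg h, zero_add]
            exact hfib2 a' ha' h
      _ = Bd'.card * X 0 + Bx'.card * (ε / 2 * X 0) := by
          rw [Finset.sum_add_distrib, ← Finset.sum_filter, Finset.sum_const, Finset.sum_const,
            nsmul_eq_mul, nsmul_eq_mul]
          congr 3
          rw [Finset.filter_mem_eq_inter]
          exact congrArg Finset.card (Finset.inter_eq_right.2 (Finset.filter_subset _ _))
      _ ≤ ε * ∏ i, (X i : ℝ) := by
          rw [hprod, hBxc]
          nlinarith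

end Pool.Agent.QDen
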