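import Pool.Agent.QDen.Sbd
import Pool.Agent.QDen.HerP

set_option autoImplicit false

/-!
# The integers `a ≤ X` whose logarithm satisfies a relation of degree `≤ d` with given numbers:
there are at most `X / (log X) ^ (1 - ε)` of them
-/

namespace Pool.Agent.QDen

open Filter

theorem ev_poly_exp (A : ℝ) (m : ℕ) {a b : ℝ} (h : b < a) :
    ∀ᶠ y : ℝ in atTop, A * y ^ m * Real.exp (-(a * y)) ≤ 1 / 2 * Real.exp (-(b * y)) := by
  have h1 : 0 < 1 / 2 / (|A| + 1) := by positivity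
  filter_upwards [(isLittleO_pow_exp_pos_mul_atTop m (sub_pos.2 h)).bound h1,
    eventually_ge_atTop (0 : ℝ)] with y hy hy0
  rw [Real.norm_of_nonneg (by positivity), Real.norm_of_nonneg (Real.exp_pos _).le] at hy
  have h2 : A * y ^ m ≤ 1 / 2 * Real.exp ((a - b) * y) := by
    calc A * y ^ m ≤ (|A| + 1) * y ^ m := by
          have : A ≤ |A| + 1 := by linarith [le_abs_self A]
          exact mul_le_mul_of_nonneg_right this (by positivity)
      _ ≤ (|A| + 1) * (1 / 2 / (|A| + 1) * Real.exp ((a - b) * y)) :=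
          mul_le_mul_of_nonneg_left hy (by positivity)
      _ = 1 / 2 * Real.exp ((a - b) * y) := by
          have : (|A| + 1) ≠ 0 := by positivity
          field_simp
  calc A * y ^ m * Real.exp (-(a * y)) ≤ 1 / 2 * Real.exp ((a - b) * y) * Real.exp (-(a * y)) :=
        mul_le_mul_of_nonneg_right h2 (Real.exp_pos _).le
    _ = 1 / 2 * Real.exp (-(b * y)) := by
        rw [mul_assoc, ← Real.exp_add]
        ring_nf

/-- the second term -/
theorem second_term {C X v S y C1 : ℝ} (m u : ℕ) (hC : 0 ≤ C) (hX : 0 ≤ X) (hv : 0 < v)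
    (hv1 : v ≤ 1) (hy : 1 ≤ y) (hC1 : 0 ≤ C1) (hS : y - m * Real.log y - C1 ≤ S) :
    C * X * ((v ^ u)⁻¹ * Real.exp (-(1 - v) * S)) ≤
      X * (C * Real.exp C1 * y ^ m * ((v ^ u)⁻¹ * Real.exp (-((1 - v) * y)))) := by
  have hlog : 0 ≤ Real.log y := Real.log_nonneg hy
  have h1 : Real.exp (-(1 - v) * S) ≤ Real.exp C1 * y ^ m * Real.exp (-((1 - v) * y)) := by
    have h2 : y ^ m = Real.exp (m * Real.log y) := by
      rw [mul_comm, Real.exp_mul, Real.exp_log (by linarith), Real.rpow_natCast]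
    rw [h2, ← Real.exp_add, ← Real.exp_add]
    refine Real.exp_le_exp.2 ?_
    have h3 : 0 ≤ (m : ℝ) * Real.log y + C1 := by positivity
    have h4 : (1 - v) * (y - (m * Real.log y + C1)) ≤ (1 - v) * S :=
      mul_le_mul_of_nonneg_left (by linarith) (by linarith)
    nlinarith
  have hvu : 0 ≤ (v ^ u)⁻¹ := by positivity
  calc C * X * ((v ^ u)⁻¹ * Real.exp (-(1 - v) * S)) ≤
        C * X * ((v ^ u)⁻¹ * (Real.exp C1 * y ^ m * Real.exp (-((1 - v) * y)))) := by gcongr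
    _ = _ := by ring

theorem oneS_main (k d : ℕ) (hk : 0 < k) (hd : 0 < d) (ε : ℝ) (hε : 0 < ε) (hε1 : ε ≤ 1) :
    ∃ D X0 : ℕ, ∀ x : Fin k → ℂ, ¬ Rel (Fin k) D x → ∀ lam : ℂ,
      IsAlgebraic ℚ (Complex.exp lam) → ∀ X : ℕ, X0 ≤ X →
      ({a : ℕ | (1 ≤ a ∧ a ≤ X) ∧
        Rel (Fin (k + 1)) d (Fin.cons (lam + ((Real.log (a : ℝ) : ℝ) : ℂ)) x)}.ncard : ℝ) ≤
        X * Real.exp (-((1 - ε) * Real.log (Real.log X))) := by
  classical
  obtain ⟨D, C, c, hC, hc, hc1, hher⟩ := hered_power hk hd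
  obtain ⟨CR, hCR, hgen⟩ := gen_rank
  obtain ⟨C1, hC1, hSb⟩ := S_bounds 1
  set A : ℝ := 2 / c with hA
  have hA2 : 2 ≤ A := by
    rw [hA, le_div_iff₀ hc]
    linarith
  have hAc : A * c = 2 := by
    rw [hA]
    field_simp
  set v : ℝ := ε / 4 with hv
  have hv0 : 0 < v := by positivity
  have hv1 : v ≤ 1 := by linarith
  have e1 := tendsto_loglog.eventually (ev_poly_exp (C * (d : ℝ) ^ ((d : ℝ) - c) * 4 ^ d) d
    (show 1 - ε < 2 by linarith))
  have e2 := tendsto_loglog.eventually (ev_poly_exp (CR * Real.exp C1 * (v ^ d)⁻¹) 2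
    (show 1 - ε < 1 - v by linarith))
  obtain ⟨X0, hX0⟩ := eventually_atTop.1 (hSb.and (e1.and (e2.and
    (tendsto_loglog.eventually (eventually_ge_atTop (A + 1))))))
  refine ⟨D, X0, fun x hx lam hlam X hX => ?_⟩
  obtain ⟨a1, a2, a3, a4⟩ := hX0 X hX
  obtain ⟨hy1, hX4, hS⟩ := a1 _ rfl
  set y : ℝ := Real.log (Real.log X) with hy
  have hypos : 0 < y := by linarith
  have hXpos : (0 : ℝ) < X := by linarith
  set r : ℕ := ⌈Real.exp (A * y)⌉₊ with hr
  have hrle : Real.exp (A * y) ≤ r := Nat.le_ceil _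
  have hAy : 2 ≤ A * y := by nlinarith
  have hr3 : (3 : ℝ) ≤ r := by
    have := Real.add_one_le_exp (A * y)
    linarith
  have hr3' : 3 ≤ r := by exact_mod_cast hr3
  have hrpos : 0 < r := by omega
  have hrr : (0 : ℝ) < r := by linarith
  have hrub : (r : ℝ) ≤ Real.exp (2 * y ^ (1 + 1)) := by
    have h12 : (r : ℝ) < Real.exp (A * y) + 1 := Nat.ceil_lt_add_one (Real.exp_pos _).le
    have h13 : Real.exp (A * y) + 1 ≤ Real.exp (A * y + 1) := by
      rw [Real.exp_add]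
      have h14 : 1 ≤ Real.exp (A * y) := Real.one_le_exp (by linarith)
      have h15 := Real.add_one_le_exp (1 : ℝ)
      nlinarith
    refine h12.le.trans (h13.trans (Real.exp_le_exp.2 ?_))
    have h16 : A + 1 ≤ y := a4
    have h17 : A * y ≤ (y - 1) * y := mul_le_mul_of_nonneg_right (by linarith) hypos.le
    have h18 : y ^ (1 + 1) = y * y := by ring
    rw [h18]
    nlinarith
  obtain ⟨hS1, hS2, hS3, hqX⟩ := hS r hr3' hrub
  set J : ℕ := Nat.sqrt X / r with hJ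
  set S : ℝ := ∑ i ∈ Finset.range (J * r), 1 / (q (r + i) : ℝ) with hSdef
  set K : ℝ := C * ((d * r : ℕ) : ℝ) ^ ((d : ℝ) - c) with hK
  have hK0 : 0 ≤ K := by positivity
  have hdc : 0 ≤ (d : ℝ) - c := by
    have : (1 : ℝ) ≤ d := by exact_mod_cast hd
    linarith
  have hX3 : 3 ≤ X := by
    have : (3 : ℝ) ≤ X := by linarith
    exact_mod_cast this
  have h := hgen (fun i => q (r + i)) (fun i => q_prime _)
    (fun i j hij => q_strictMono (by omega)) d r J hrpos K hK0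
    {a : ℕ | Rel (Fin (k + 1)) d (Fin.cons (lam + ((Real.log (a : ℝ) : ℝ) : ℂ)) x)}
    (fun b hb T hT hTc => by
      rcases T.eq_empty_or_nonempty with rfl | hTne
      · have : {T' : Finset ℕ | T' ⊆ ∅ ∧ T'.card = d ∧ b * ∏ s ∈ T', s ∈ {a : ℕ |
            Rel (Fin (k + 1)) d (Fin.cons (lam + ((Real.log (a : ℝ) : ℝ) : ℂ)) x)}} = ∅ := by
          rw [Set.eq_empty_iff_forall_notMem]
          rintro T' ⟨h1, h2, -⟩
          rw [Finset.subset_empty.1 h1, Finset.card_empty] at h2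
          omega
        rw [this]
        simpa using hK0
      · refine (hher x hx lam hlam b hb T hT hTne).trans ?_
        have h5 : (T.card : ℝ) ≤ ((d * r : ℕ) : ℝ) := by exact_mod_cast hTc
        exact mul_le_mul_of_nonneg_left (Real.rpow_le_rpow (Nat.cast_nonneg _) h5 hdc) hC.le)
    X hX3 hqX v hv0 hv1
  have e : {a : ℕ | (1 ≤ a ∧ a ≤ X) ∧
      Rel (Fin (k + 1)) d (Fin.cons (lam + ((Real.log (a : ℝ) : ℝ) : ℂ)) x)} =
      {a : ℕ | a ∈ {a : ℕ | Rel (Fin (k + 1)) d (Fin.cons (lam + ((Real.log (a : ℝ) : ℝ) : ℂ)) x)} ∧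
        1 ≤ a ∧ a ≤ X} := by
    ext a
    constructor
    · rintro ⟨⟨h1, h2⟩, h3⟩
      exact ⟨h3, h1, h2⟩
    · rintro ⟨h3, h1, h2⟩
      exact ⟨⟨h1, h2⟩, h3⟩
  rw [e]
  refine h.trans ?_
  have hS0 : 0 ≤ S := by linarith
  have hq0 : 1 / (q (r + 0) : ℝ) ≤ S / r := by
    have h12 : (r : ℝ) ≤ q (r + 0) := by
      have := q_strictMono.le_apply (x := r)
      exact_mod_cast this
    calc 1 / (q (r + 0) : ℝ) ≤ 1 / r := one_div_le_one_div_of_le hrr h12
      _ ≤ S / r := div_le_div_of_nonneg_right hS3 hrr.le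
  have hterm1 : K * X * (1 / (q (r + 0) : ℝ) + S / r) ^ d ≤
      X * (C * (d : ℝ) ^ ((d : ℝ) - c) * 4 ^ d * y ^ d * Real.exp (-(2 * y))) := by
    have h13 : (1 / (q (r + 0) : ℝ) + S / r) ^ d ≤ (4 * y / r) ^ d := by
      refine pow_le_pow_left₀ (by positivity) ?_ d
      calc 1 / (q (r + 0) : ℝ) + S / r ≤ S / r + S / r := by linarith
        _ = 2 * S / r := by ring
        _ ≤ 4 * y / r := div_le_div_of_nonneg_right (by linarith) hrr.le
    have h14 : K * (4 * y / r) ^ d = C * (d : ℝ) ^ ((d : ℝ) - c) * 4 ^ d * y ^ d *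
        (r : ℝ) ^ (-c) := by
      rw [hK, Nat.cast_mul, Real.mul_rpow (Nat.cast_nonneg _) hrr.le,
        show (d : ℝ) - c = (d : ℝ) + (-c) by ring, Real.rpow_add hrr, Real.rpow_natCast, div_pow,
        mul_pow]
      have : (r : ℝ) ^ d ≠ 0 := by positivity
      field_simp
    have h15 : (r : ℝ) ^ (-c) ≤ Real.exp (-(2 * y)) := by
      rw [Real.rpow_neg hrr.le, Real.exp_neg]
      refine inv_anti₀ (Real.exp_pos _) ?_
      calc Real.exp (2 * y) = Real.exp (A * y) ^ c := by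
            rw [← Real.exp_mul]
            congr 1
            rw [← hAc]
            ring
        _ ≤ (r : ℝ) ^ c := Real.rpow_le_rpow (Real.exp_pos _).le hrle hc.le
    calc K * X * (1 / (q (r + 0) : ℝ) + S / r) ^ d ≤ K * X * (4 * y / r) ^ d :=
          mul_le_mul_of_nonneg_left h13 (by positivity)
      _ = X * (K * (4 * y / r) ^ d) := by ring
      _ ≤ _ := by
          rw [h14]
          refine mul_le_mul_of_nonneg_left ?_ hXpos.le
          exact mul_le_mul_of_nonneg_left h15 (by positivity)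
  have hterm2 := second_term (X := X) (u := d) (m := 2) hCR.le hXpos.le hv0 hv1 hy1 hC1
    (S := S) (y := y) (by push_cast at hS1 ⊢; linarith)
  have a2' : X * (C * (d : ℝ) ^ ((d : ℝ) - c) * 4 ^ d * y ^ d * Real.exp (-(2 * y))) ≤
      X * (1 / 2 * Real.exp (-((1 - ε) * y))) := mul_le_mul_of_nonneg_left a2 hXpos.le
  have a3' : X * (CR * Real.exp C1 * y ^ 2 * ((v ^ d)⁻¹ * Real.exp (-((1 - v) * y)))) ≤
      X * (1 / 2 * Real.exp (-((1 - ε) * y))) := by
    refine mul_le_mul_of_nonneg_left (le_trans (le_of_eq ?_) a3) hXpos.le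
    ring
  calc _ ≤ X * (1 / 2 * Real.exp (-((1 - ε) * y))) + X * (1 / 2 * Real.exp (-((1 - ε) * y))) :=
        add_le_add (hterm1.trans a2') (hterm2.trans a3')
    _ = _ := by ring

theorem transcendental_lam {lam : ℂ} (hlam : IsAlgebraic ℚ (Complex.exp lam)) {a : ℕ}
    (ha : 1 ≤ a) (hne : lam + ((Real.log (a : ℝ) : ℝ) : ℂ) ≠ 0) :
    Transcendental ℚ (lam + ((Real.log (a : ℝ) : ℝ) : ℂ)) := by
  intro hal
  have ha1 : (0 : ℝ) < a := by exact_mod_cast ha
  have h := Pool.Agent.BKR.baker (ι := Unit) (fun _ => lam + ((Real.log (a : ℝ) : ℝ) : ℂ))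
    (by
      rw [Fintype.linearIndependent_iff]
      intro g hg i
      have hg' : g () • (lam + ((Real.log (a : ℝ) : ℝ) : ℂ)) = 0 := by simpa using hg
      exact (smul_eq_zero.1 hg').resolve_right hne)
    (fun _ => by
      rw [Complex.exp_add, ← Complex.ofReal_exp, Real.exp_log ha1]
      exact hlam.mul (by exact_mod_cast isAlgebraic_natCast (R := ℚ) (A := ℂ) a))
    (fun _ => 1) (-(lam + ((Real.log (a : ℝ) : ℝ) : ℂ))) (fun _ => isAlgebraic_one) hal.neg
    (by simp)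
  exact one_ne_zero (h.2 ())

theorem oneS (k d : ℕ) (ε : ℝ) (hε : 0 < ε) (hε1 : ε ≤ 1) :
    ∃ D X0 : ℕ, ∀ x : Fin k → ℂ, ¬ Rel (Fin k) D x → ∀ lam : ℂ,
      IsAlgebraic ℚ (Complex.exp lam) → ∀ X : ℕ, X0 ≤ X →
      ({a : ℕ | (1 ≤ a ∧ a ≤ X) ∧
        Rel (Fin (k + 1)) d (Fin.cons (lam + ((Real.log (a : ℝ) : ℝ) : ℂ)) x)}.ncard : ℝ) ≤
        X * Real.exp (-((1 - ε) * Real.log (Real.log X))) := by
  classical
  rcases Nat.eq_zero_or_pos d with rfl | hd
  · refine ⟨0, 0, fun x _ lam _ X _ => ?_⟩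
    rw [show {a : ℕ | (1 ≤ a ∧ a ≤ X) ∧
        Rel (Fin (k + 1)) 0 (Fin.cons (lam + ((Real.log (a : ℝ) : ℝ) : ℂ)) x)} = ∅ from
      Set.eq_empty_iff_forall_notMem.2 fun a ha => not_rel_zero ha.2]
    simp only [Set.ncard_empty, Nat.cast_zero]
    positivity
  rcases Nat.eq_zero_or_pos k with rfl | hk
  · refine ⟨0, 3, fun x _ lam hlam X hX => ?_⟩
    have h1 : {a : ℕ | (1 ≤ a ∧ a ≤ X) ∧
        Rel (Fin (0 + 1)) d (Fin.cons (lam + ((Real.log (a : ℝ) : ℝ) : ℂ)) x)}.Subsingleton := by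
      have h3 : ∀ a : ℕ, 1 ≤ a →
          Rel (Fin (0 + 1)) d (Fin.cons (lam + ((Real.log (a : ℝ) : ℝ) : ℂ)) x) →
          lam + ((Real.log (a : ℝ) : ℝ) : ℂ) = 0 := by
        intro a ha1 ha
        by_contra h
        refine not_rel_of_algInd (σ := Fin 1) ?_ d ha
        exact algebraicIndependent_unique_type_iff.2 (transcendental_lam hlam ha1 h)
      rintro a ⟨⟨ha1, -⟩, ha⟩ a' ⟨⟨ha1', -⟩, ha'⟩
      have h4 : ((Real.log (a : ℝ) : ℝ) : ℂ) = ((Real.log (a' : ℝ) : ℝ) : ℂ) :=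
        add_left_cancel ((h3 a ha1 ha).trans (h3 a' ha1' ha').symm)
      have h5 : Real.log (a : ℝ) = Real.log (a' : ℝ) := by exact_mod_cast h4
      have h6 : (a : ℝ) = a' := Real.log_injOn_pos (Set.mem_Ioi.2 (by exact_mod_cast ha1))
        (Set.mem_Ioi.2 (by exact_mod_cast ha1')) h5
      exact_mod_cast h6
    have h2 : ({a : ℕ | (1 ≤ a ∧ a ≤ X) ∧
        Rel (Fin (0 + 1)) d
          (Fin.cons (lam + ((Real.log (a : ℝ) : ℝ) : ℂ)) x)}.ncard : ℝ) ≤ 1 := by
      have h7 := (Set.ncard_le_one ((Set.finite_Icc 1 X).subset fun a ha => ha.1)).2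
        (fun a ha b hb => h1 ha hb)
      exact_mod_cast h7
    refine h2.trans ?_
    have hX3 : (3 : ℝ) ≤ X := by exact_mod_cast hX
    have hlog : 1 < Real.log X := by
      rw [Real.lt_log_iff_exp_lt (by linarith)]
      linarith [Real.exp_one_lt_d9]
    have hll : 0 ≤ Real.log (Real.log X) := Real.log_nonneg hlog.le
    have h3 : Real.exp (-(1 * Real.log (Real.log X))) ≤
        Real.exp (-((1 - ε) * Real.log (Real.log X))) := by
      refine Real.exp_le_exp.2 ?_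
      nlinarith
    rw [one_mul, Real.exp_neg, Real.exp_log (by linarith)] at h3
    have h4 : Real.log X ≤ X := by
      have := Real.log_le_sub_one_of_pos (show (0 : ℝ) < X by linarith)
      linarith
    calc (1 : ℝ) ≤ X * (Real.log X)⁻¹ := by
          rw [← div_eq_mul_inv, le_div_iff₀ (by linarith)]
          linarith
      _ ≤ _ := mul_le_mul_of_nonneg_left h3 (by linarith)
  · exact oneS_main k d hk hd ε hε hε1

end Pool.Agent.QDen
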