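import Pool.Agent.QDen.TupS
import Pool.Agent.QDen.GrowS

set_option autoImplicit false

/-!
# The integers `a ≤ X` whose logarithm satisfies a relation of degree `≤ d` with given numbers:
there are at most `C X (log log X) ^ C / log X` of them; those with at least `d` prime factors of
medium size are at most `C X (log log X) ^ C / (log X) ^ 2`
-/

namespace Pool.Agent.QDen

open Filter

/-- `y ^ m e ^ (-y)` decreases for `y ≥ m` -/
theorem pow_exp_anti {m : ℕ} {y z : ℝ} (hm : (m : ℝ) ≤ y) (hy : 0 < y) (hyz : y ≤ z) :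
    z ^ m * Real.exp (-z) ≤ y ^ m * Real.exp (-y) := by
  have h1 : z ≤ y * Real.exp ((z - y) / y) := by
    have h2 := Real.add_one_le_exp ((z - y) / y)
    have h3 : (z - y) / y + 1 = z / y := by field_simp; ring
    rw [h3, div_le_iff₀ hy] at h2
    linarith
  have h4 : z ^ m ≤ y ^ m * Real.exp (z - y) := by
    calc z ^ m ≤ (y * Real.exp ((z - y) / y)) ^ m := pow_le_pow_left₀ (by linarith) h1 m
      _ = y ^ m * Real.exp (m * ((z - y) / y)) := by rw [mul_pow, Real.exp_nat_mul]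
      _ ≤ y ^ m * Real.exp (z - y) := by
          refine mul_le_mul_of_nonneg_left (Real.exp_le_exp.2 ?_) (by positivity)
          rw [← mul_div_assoc, div_le_iff₀ hy]
          nlinarith
  calc z ^ m * Real.exp (-z) ≤ y ^ m * Real.exp (z - y) * Real.exp (-z) :=
        mul_le_mul_of_nonneg_right h4 (Real.exp_pos _).le
    _ = y ^ m * Real.exp (-y) := by
        rw [mul_assoc, ← Real.exp_add]
        ring_nf

/-- the integers with many prime factors -/
theorem gen_many {p : ℕ → ℕ} (hp : ∀ i, (p i).Prime) (hm : StrictMono p) (u r J : ℕ) (hr : 0 < r)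
    (K : ℝ) (hK : 0 ≤ K) (B : Set ℕ)
    (hB : ∀ b : ℕ, b ≠ 0 → ∀ S : Finset ℕ, (∀ s ∈ S, s.Prime) → S.card ≤ u * r →
      ({T : Finset ℕ | T ⊆ S ∧ T.card = u ∧ b * ∏ s ∈ T, s ∈ B}.ncard : ℝ) ≤ K) (X : ℕ) :
    ({a : ℕ | (1 ≤ a ∧ a ≤ X) ∧ a ∉ {a : ℕ | wG p (J * r) a < u} ∧ a ∈ B}.ncard : ℝ) ≤
      K * X * (1 / (p 0 : ℝ) + (∑ i ∈ Finset.range (J * r), 1 / (p i : ℝ)) / r) ^ u := by
  classical
  set n : ℕ := J * r with hn
  have hΛ : ∑ i ∈ Finset.range n, 1 / (p i : ℝ) = LG p n := rfl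
  rw [hΛ]
  set G := (Finset.Icc 1 X).filter fun a => a ∈ B ∧ u ≤ wG p n a with hG
  have e : {a : ℕ | (1 ≤ a ∧ a ≤ X) ∧ a ∉ {a : ℕ | wG p n a < u} ∧ a ∈ B} = ↑G := by
    ext a
    rw [hG, Finset.coe_filter]
    constructor
    · rintro ⟨h1, h2, h3⟩
      exact ⟨Finset.mem_Icc.2 h1, h3, not_lt.1 h2⟩
    · rintro ⟨h1, h2, h3⟩
      exact ⟨Finset.mem_Icc.1 h1, not_lt.2 h3, h2⟩
  rw [e, Set.ncard_coe_finset]
  have hlow : (G.card : ℝ) ≤ ∑ T ∈ Finset.powersetCard u (Finset.range n),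
      (((Finset.Icc 1 X).filter fun a => a ∈ B ∧ ∏ i ∈ T, p i ∣ a).card : ℝ) := by
    have h1 : G ⊆ (Finset.powersetCard u (Finset.range n)).biUnion fun T =>
        (Finset.Icc 1 X).filter fun a => a ∈ B ∧ ∏ i ∈ T, p i ∣ a := by
      intro a ha
      rw [hG, Finset.mem_filter] at ha
      obtain ⟨haX, haB, hau⟩ := ha
      obtain ⟨T, hT, hTc⟩ := Finset.exists_subset_card_eq
        (show u ≤ ((Finset.range n).filter fun i => p i ∣ a).card from hau)
      rw [Finset.mem_biUnion]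
      refine ⟨T, Finset.mem_powersetCard.2 ⟨hT.trans (Finset.filter_subset _ _), hTc⟩, ?_⟩
      rw [Finset.mem_filter]
      refine ⟨haX, haB, Finset.prod_dvd_of_isRelPrime ?_ ?_⟩
      · intro i _ j _ hij
        exact Nat.coprime_iff_isRelPrime.1 ((Nat.coprime_primes (hp i) (hp j)).2
          fun h => hij (hm.injective h))
      · intro i hi
        exact (Finset.mem_filter.1 (hT hi)).2
    have h2 := (Finset.card_le_card h1).trans Finset.card_biUnion_le
    exact_mod_cast h2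
  have h1 := Gen_pairs hp hm hr J hK hB X
  rw [← hn] at h1
  refine (hlow.trans h1).trans ?_
  have h2 := Gen_thin' hp hm hr J
  rw [← hn, hΛ] at h2
  have h3 : 0 ≤ ∑ t ∈ Finset.range J, 1 / (p (t * r) : ℝ) :=
    Finset.sum_nonneg fun _ _ => by positivity
  gcongr

/-- the integers with few prime factors -/
theorem gen_few : ∃ C : ℝ, 0 < C ∧ ∀ p : ℕ → ℕ, (∀ i, (p i).Prime) → StrictMono p →
    ∀ n X : ℕ, 3 ≤ X → (∀ i < n, p i ≤ X) → ∀ u : ℕ, ∀ v : ℝ, 0 < v → v ≤ 1 →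
    ({a : ℕ | (1 ≤ a ∧ a ≤ X) ∧ a ∈ {a : ℕ | wG p n a < u}}.ncard : ℝ) ≤
      C * X * ((v ^ u)⁻¹ * Real.exp (-(1 - v) * ∑ i ∈ Finset.range n, 1 / (p i : ℝ))) := by
  classical
  obtain ⟨C, hC, hR⟩ := rankin
  refine ⟨C, hC, fun p hp hm n X hX hpX u v hv hv1 => ?_⟩
  have hΛ : ∑ i ∈ Finset.range n, 1 / (p i : ℝ) = LG p n := rfl
  rw [hΛ]
  set H := (Finset.Icc 1 X).filter fun a => wG p n a < u with hH
  have e : {a : ℕ | (1 ≤ a ∧ a ≤ X) ∧ a ∈ {a : ℕ | wG p n a < u}} = ↑H := by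
    ext a
    rw [hH, Finset.coe_filter]
    constructor
    · rintro ⟨h1, h2⟩
      exact ⟨Finset.mem_Icc.2 h1, h2⟩
    · rintro ⟨h1, h2⟩
      exact ⟨Finset.mem_Icc.1 h1, h2⟩
  rw [e, Set.ncard_coe_finset]
  have h1 := hR p hp hm n X hX hpX v hv hv1
  have h2 : (H.card : ℝ) * v ^ u ≤ C * X * Real.exp (-(1 - v) * LG p n) := by
    refine le_trans ?_ h1
    rw [← nsmul_eq_mul, ← Finset.sum_const]
    refine le_trans (Finset.sum_le_sum (g := fun a => v ^ wG p n a) fun a ha => ?_)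
      (Finset.sum_le_sum_of_subset_of_nonneg (Finset.filter_subset _ _)
        fun a _ _ => by positivity)
    exact pow_le_pow_of_le_one hv.le hv1 (Finset.mem_filter.1 ha).2.le
  have h3 : 0 < v ^ u := by positivity
  calc (H.card : ℝ) ≤ C * X * Real.exp (-(1 - v) * LG p n) / v ^ u := by
        rw [le_div_iff₀ h3]; exact h2
    _ = _ := by rw [div_eq_mul_inv]; ring

/-- the set `F X` of the integers with few prime factors of medium size -/
theorem oneF (k d : ℕ) (hk : 0 < k) (hd : 0 < d) : ∃ (D : ℕ) (F : ℕ → Set ℕ) (C : ℝ) (m X0 : ℕ),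
    0 < C ∧ ∀ X : ℕ, X0 ≤ X →
      ({a : ℕ | (1 ≤ a ∧ a ≤ X) ∧ a ∈ F X}.ncard : ℝ) ≤
        X * (C * Real.log (Real.log X) ^ m * Real.exp (-Real.log (Real.log X))) ∧
      ∀ x : Fin k → ℂ, ¬ Rel (Fin k) D x → ∀ lam : ℂ, IsAlgebraic ℚ (Complex.exp lam) →
        ({a : ℕ | (1 ≤ a ∧ a ≤ X) ∧ a ∉ F X ∧
          Rel (Fin (k + 1)) d (Fin.cons (lam + ((Real.log (a : ℝ) : ℝ) : ℂ)) x)}.ncard : ℝ) ≤
          X * (C * Real.log (Real.log X) ^ m * Real.exp (-(2 * Real.log (Real.log X)))) := by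
  classical
  obtain ⟨D, C, c, hC, hc, hc1, hher⟩ := hered_power hk hd
  obtain ⟨CR, hCR, hfew⟩ := gen_few
  obtain ⟨C1, hC1, hSb⟩ := S_bounds 1
  set A : ℝ := 2 / c with hA
  have hA2 : 2 ≤ A := by
    rw [hA, le_div_iff₀ hc]
    linarith
  have hAc : A * c = 2 := by
    rw [hA]
    field_simp
  obtain ⟨X0, hX0⟩ := eventually_atTop.1 (hSb.and
    (tendsto_loglog.eventually (eventually_ge_atTop (A + 1))))
  set C2 : ℝ := C * (d : ℝ) ^ ((d : ℝ) - c) * 4 ^ d with hC2
  set C3 : ℝ := CR * Real.exp C1 * Real.exp 1 with hC3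
  have hdpos : (0 : ℝ) < d := by exact_mod_cast hd
  have hC20 : 0 < C2 := by positivity
  have hC30 : 0 < C3 := by positivity
  refine ⟨D, fun X => {a : ℕ | wG (fun i => q (⌈Real.exp (A * Real.log (Real.log X))⌉₊ + i))
    (Nat.sqrt X / ⌈Real.exp (A * Real.log (Real.log X))⌉₊ *
      ⌈Real.exp (A * Real.log (Real.log X))⌉₊) a < d}, C2 + C3, d + 2, X0, by positivity,
    fun X hX => ?_⟩
  obtain ⟨a1, a4⟩ := hX0 X hX
  obtain ⟨hy1, hX4, hS⟩ := a1 _ rfl
  set y : ℝ := Real.log (Real.log X) with hy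
  have hypos : 0 < y := by linarith
  have hXpos : (0 : ℝ) < X := by linarith
  set r : ℕ := ⌈Real.exp (A * y)⌉₊ with hr
  have hrle : Real.exp (A * y) ≤ r := Nat.le_ceil _
  have hAy : 2 ≤ A * y := by nlinarith
  have hr3 : (3 : ℝ) ≤ r := by
    have := Real.add_one_le_exp (A * y)
    linarith
  have hr3' : 3 ≤ r := by exact_mod_cast hr3
  have hrpos : 0 < r := by omega
  have hrr : (0 : ℝ) < r := by linarith
  have hrub : (r : ℝ) ≤ Real.exp (2 * y ^ (1 + 1)) := by
    have h12 : (r : ℝ) < Real.exp (A * y) + 1 := Nat.ceil_lt_add_one (Real.exp_pos _).le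
    have h13 : Real.exp (A * y) + 1 ≤ Real.exp (A * y + 1) := by
      rw [Real.exp_add]
      have h14 : 1 ≤ Real.exp (A * y) := Real.one_le_exp (by linarith)
      have h15 := Real.add_one_le_exp (1 : ℝ)
      nlinarith
    refine h12.le.trans (h13.trans (Real.exp_le_exp.2 ?_))
    have h16 : A + 1 ≤ y := a4
    have h17 : A * y ≤ (y - 1) * y := mul_le_mul_of_nonneg_right (by linarith) hypos.le
    have h18 : y ^ (1 + 1) = y * y := by ring
    rw [h18]
    nlinarith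
  obtain ⟨hS1, hS2, hS3, hqX⟩ := hS r hr3' hrub
  set J : ℕ := Nat.sqrt X / r with hJ
  set S : ℝ := ∑ i ∈ Finset.range (J * r), 1 / (q (r + i) : ℝ) with hSdef
  have hX3 : 3 ≤ X := by
    have : (3 : ℝ) ≤ X := by linarith
    exact_mod_cast this
  have hS0 : 0 ≤ S := by linarith
  have hym : y ^ d ≤ y ^ (d + 2) := pow_le_pow_right₀ hy1 (by omega)
  constructor
  · have h := hfew (fun i => q (r + i)) (fun i => q_prime _)
      (fun i j hij => q_strictMono (by omega)) (J * r) X hX3 hqX d (1 / y) (by positivity)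
      (by rw [div_le_one hypos]; exact hy1)
    refine h.trans ((second_term (X := X) (u := d) (m := 2) hCR.le hXpos.le
      (show 0 < 1 / y by positivity) (by rw [div_le_one hypos]; exact hy1) hy1 hC1
      (S := S) (y := y) (by push_cast at hS1 ⊢; linarith)).trans ?_)
    refine mul_le_mul_of_nonneg_left ?_ hXpos.le
    have h1 : ((1 / y) ^ d)⁻¹ = y ^ d := by
      rw [one_div, inv_pow, inv_inv]
    have h2 : (1 - 1 / y) * y = y - 1 := by field_simp
    have h3 : Real.exp (-(y - 1)) = Real.exp 1 * Real.exp (-y) := by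
      rw [← Real.exp_add]
      ring_nf
    rw [h1, h2, h3]
    calc CR * Real.exp C1 * y ^ 2 * (y ^ d * (Real.exp 1 * Real.exp (-y))) =
        C3 * y ^ (d + 2) * Real.exp (-y) := by rw [hC3]; ring
      _ ≤ (C2 + C3) * y ^ (d + 2) * Real.exp (-y) := by
        have : C3 ≤ C2 + C3 := by linarith
        gcongr
  · intro x hx lam hlam
    set K : ℝ := C * ((d * r : ℕ) : ℝ) ^ ((d : ℝ) - c) with hK
    have hK0 : 0 ≤ K := by positivity
    have hdc : 0 ≤ (d : ℝ) - c := by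
      have : (1 : ℝ) ≤ d := by exact_mod_cast hd
      linarith
    have h := gen_many (p := fun i => q (r + i)) (fun i => q_prime _)
      (fun i j hij => q_strictMono (by omega)) d r J hrpos K hK0
      {a : ℕ | Rel (Fin (k + 1)) d (Fin.cons (lam + ((Real.log (a : ℝ) : ℝ) : ℂ)) x)}
      (fun b hb T hT hTc => by
        rcases T.eq_empty_or_nonempty with rfl | hTne
        · have : {T' : Finset ℕ | T' ⊆ ∅ ∧ T'.card = d ∧ b * ∏ s ∈ T', s ∈ {a : ℕ |
              Rel (Fin (k + 1)) d (Fin.cons (lam + ((Real.log (a : ℝ) : ℝ) : ℂ)) x)}} = ∅ := by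
            rw [Set.eq_empty_iff_forall_notMem]
            rintro T' ⟨h1, h2, -⟩
            rw [Finset.subset_empty.1 h1, Finset.card_empty] at h2
            omega
          rw [this]
          simpa using hK0
        · refine (hher x hx lam hlam b hb T hT hTne).trans ?_
          have h5 : (T.card : ℝ) ≤ ((d * r : ℕ) : ℝ) := by exact_mod_cast hTc
          exact mul_le_mul_of_nonneg_left (Real.rpow_le_rpow (Nat.cast_nonneg _) h5 hdc) hC.le)
      X
    refine h.trans ?_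
    have hq0 : 1 / (q (r + 0) : ℝ) ≤ S / r := by
      have h12 : (r : ℝ) ≤ q (r + 0) := by
        have := q_strictMono.le_apply (x := r)
        exact_mod_cast this
      calc 1 / (q (r + 0) : ℝ) ≤ 1 / r := one_div_le_one_div_of_le hrr h12
        _ ≤ S / r := div_le_div_of_nonneg_right hS3 hrr.le
    have h13 : (1 / (q (r + 0) : ℝ) + S / r) ^ d ≤ (4 * y / r) ^ d := by
      refine pow_le_pow_left₀ (by positivity) ?_ d
      calc 1 / (q (r + 0) : ℝ) + S / r ≤ S / r + S / r := by linarith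
        _ = 2 * S / r := by ring
        _ ≤ 4 * y / r := div_le_div_of_nonneg_right (by linarith) hrr.le
    have h14 : K * (4 * y / r) ^ d = C2 * y ^ d * (r : ℝ) ^ (-c) := by
      rw [hK, hC2, Nat.cast_mul, Real.mul_rpow (Nat.cast_nonneg _) hrr.le,
        show (d : ℝ) - c = (d : ℝ) + (-c) by ring, Real.rpow_add hrr, Real.rpow_natCast, div_pow,
        mul_pow]
      have : (r : ℝ) ^ d ≠ 0 := by positivity
      field_simp
    have h15 : (r : ℝ) ^ (-c) ≤ Real.exp (-(2 * y)) := by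
      rw [Real.rpow_neg hrr.le, Real.exp_neg]
      refine inv_anti₀ (Real.exp_pos _) ?_
      calc Real.exp (2 * y) = Real.exp (A * y) ^ c := by
            rw [← Real.exp_mul]
            congr 1
            rw [← hAc]
            ring
        _ ≤ (r : ℝ) ^ c := Real.rpow_le_rpow (Real.exp_pos _).le hrle hc.le
    calc K * X * (1 / (q (r + 0) : ℝ) + S / r) ^ d ≤ K * X * (4 * y / r) ^ d :=
          mul_le_mul_of_nonneg_left h13 (by positivity)
      _ = X * (K * (4 * y / r) ^ d) := by ring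
      _ ≤ X * ((C2 + C3) * y ^ (d + 2) * Real.exp (-(2 * y))) := by
          rw [h14]
          refine mul_le_mul_of_nonneg_left ?_ hXpos.le
          have : C2 ≤ C2 + C3 := by linarith
          gcongr

theorem oneT (k d : ℕ) : ∃ (D : ℕ) (C : ℝ) (m X0 : ℕ), 0 < C ∧
    ∀ x : Fin k → ℂ, ¬ Rel (Fin k) D x → ∀ lam : ℂ, IsAlgebraic ℚ (Complex.exp lam) →
    ∀ X : ℕ, X0 ≤ X →
      ({a : ℕ | (1 ≤ a ∧ a ≤ X) ∧
        Rel (Fin (k + 1)) d (Fin.cons (lam + ((Real.log (a : ℝ) : ℝ) : ℂ)) x)}.ncard : ℝ) ≤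
        (C * Real.log (Real.log X) ^ m * Real.exp (-Real.log (Real.log X))) * X := by
  classical
  rcases Nat.eq_zero_or_pos d with rfl | hd
  · refine ⟨0, 1, 0, 0, one_pos, fun x _ lam _ X _ => ?_⟩
    rw [show {a : ℕ | (1 ≤ a ∧ a ≤ X) ∧
        Rel (Fin (k + 1)) 0 (Fin.cons (lam + ((Real.log (a : ℝ) : ℝ) : ℂ)) x)} = ∅ from
      Set.eq_empty_iff_forall_notMem.2 fun a ha => not_rel_zero ha.2]
    simp only [Set.ncard_empty, Nat.cast_zero]
    positivity
  rcases Nat.eq_zero_or_pos k with rfl | hk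
  · obtain ⟨D, X0, h⟩ := oneS 0 d 1 one_pos le_rfl
    refine ⟨0, 1, 0, 3, one_pos, fun x _ lam hlam X hX => ?_⟩
    have h1 : {a : ℕ | (1 ≤ a ∧ a ≤ X) ∧
        Rel (Fin (0 + 1)) d (Fin.cons (lam + ((Real.log (a : ℝ) : ℝ) : ℂ)) x)}.Subsingleton := by
      have h3 : ∀ a : ℕ, 1 ≤ a →
          Rel (Fin (0 + 1)) d (Fin.cons (lam + ((Real.log (a : ℝ) : ℝ) : ℂ)) x) →
          lam + ((Real.log (a : ℝ) : ℝ) : ℂ) = 0 := by
        intro a ha1 ha
        by_contra h
        refine not_rel_of_algInd (σ := Fin 1) ?_ d ha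
        exact algebraicIndependent_unique_type_iff.2 (transcendental_lam hlam ha1 h)
      rintro a ⟨⟨ha1, -⟩, ha⟩ a' ⟨⟨ha1', -⟩, ha'⟩
      have h4 : ((Real.log (a : ℝ) : ℝ) : ℂ) = ((Real.log (a' : ℝ) : ℝ) : ℂ) :=
        add_left_cancel ((h3 a ha1 ha).trans (h3 a' ha1' ha').symm)
      have h5 : Real.log (a : ℝ) = Real.log (a' : ℝ) := by exact_mod_cast h4
      have h6 : (a : ℝ) = a' := Real.log_injOn_pos (Set.mem_Ioi.2 (by exact_mod_cast ha1))
        (Set.mem_Ioi.2 (by exact_mod_cast ha1')) h5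
      exact_mod_cast h6
    have h2 : ({a : ℕ | (1 ≤ a ∧ a ≤ X) ∧
        Rel (Fin (0 + 1)) d
          (Fin.cons (lam + ((Real.log (a : ℝ) : ℝ) : ℂ)) x)}.ncard : ℝ) ≤ 1 := by
      have h7 := (Set.ncard_le_one ((Set.finite_Icc 1 X).subset fun a ha => ha.1)).2
        (fun a ha b hb => h1 ha hb)
      exact_mod_cast h7
    refine h2.trans ?_
    have hX3 : (3 : ℝ) ≤ X := by exact_mod_cast hX
    have hlog : 1 < Real.log X := by
      rw [Real.lt_log_iff_exp_lt (by linarith)]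
      linarith [Real.exp_one_lt_d9]
    rw [pow_zero, mul_one, one_mul, Real.exp_neg, Real.exp_log (by linarith)]
    have h4 : Real.log X ≤ X := by
      have := Real.log_le_sub_one_of_pos (show (0 : ℝ) < X by linarith)
      linarith
    rw [inv_mul_eq_div, le_div_iff₀ (by linarith)]
    linarith
  · obtain ⟨D, F, C, m, X0, hC, h⟩ := oneF k d hk hd
    refine ⟨D, C + C, m, max X0 3, by positivity, fun x hx lam hlam X hX => ?_⟩
    obtain ⟨h1, h2⟩ := h X ((le_max_left _ _).trans hX)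
    have hX3 : (3 : ℝ) ≤ X := by exact_mod_cast (le_max_right _ _).trans hX
    have hll : 0 ≤ Real.log (Real.log X) := by
      refine Real.log_nonneg ?_
      rw [Real.le_log_iff_exp_le (by linarith)]
      linarith [Real.exp_one_lt_d9]
    have h3 := h2 x hx lam hlam
    have h4 : {a : ℕ | (1 ≤ a ∧ a ≤ X) ∧
        Rel (Fin (k + 1)) d (Fin.cons (lam + ((Real.log (a : ℝ) : ℝ) : ℂ)) x)} ⊆
        {a : ℕ | (1 ≤ a ∧ a ≤ X) ∧ a ∈ F X} ∪ {a : ℕ | (1 ≤ a ∧ a ≤ X) ∧ a ∉ F X ∧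
          Rel (Fin (k + 1)) d (Fin.cons (lam + ((Real.log (a : ℝ) : ℝ) : ℂ)) x)} := by
      rintro a ⟨ha, hr⟩
      by_cases hF : a ∈ F X
      · exact Or.inl ⟨ha, hF⟩
      · exact Or.inr ⟨ha, hF, hr⟩
    have hfin1 : {a : ℕ | (1 ≤ a ∧ a ≤ X) ∧ a ∈ F X}.Finite :=
      (Set.finite_Icc 1 X).subset fun a ha => ha.1
    have hfin2 : {a : ℕ | (1 ≤ a ∧ a ≤ X) ∧ a ∉ F X ∧
        Rel (Fin (k + 1)) d (Fin.cons (lam + ((Real.log (a : ℝ) : ℝ) : ℂ)) x)}.Finite :=
      (Set.finite_Icc 1 X).subset fun a ha => ha.1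
    have h5 := (Set.ncard_le_ncard h4 (hfin1.union hfin2)).trans (Set.ncard_union_le _ _)
    have h6 : ({a : ℕ | (1 ≤ a ∧ a ≤ X) ∧
        Rel (Fin (k + 1)) d
          (Fin.cons (lam + ((Real.log (a : ℝ) : ℝ) : ℂ)) x)}.ncard : ℝ) ≤
        ({a : ℕ | (1 ≤ a ∧ a ≤ X) ∧ a ∈ F X}.ncard : ℝ) +
          ({a : ℕ | (1 ≤ a ∧ a ≤ X) ∧ a ∉ F X ∧
            Rel (Fin (k + 1)) d
              (Fin.cons (lam + ((Real.log (a : ℝ) : ℝ) : ℂ)) x)}.ncard : ℝ) := by
      exact_mod_cast h5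
    have h7 : Real.exp (-(2 * Real.log (Real.log X))) ≤ Real.exp (-Real.log (Real.log X)) :=
      Real.exp_le_exp.2 (by linarith)
    have h8 : X * (C * Real.log (Real.log X) ^ m * Real.exp (-(2 * Real.log (Real.log X)))) ≤
        X * (C * Real.log (Real.log X) ^ m * Real.exp (-Real.log (Real.log X))) := by
      gcongr
    linarith

theorem tuplesX (k l d : ℕ) : ∃ (D : ℕ) (C : ℝ) (m X0 : ℕ), 0 < C ∧ ∀ x : Fin k → ℂ,
    ¬ Rel (Fin k) D x → ∀ lam : Fin l → ℂ, (∀ i, IsAlgebraic ℚ (Complex.exp (lam i))) →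
    ∀ M : ℕ, X0 ≤ M → ∀ X : Fin l → ℕ, (∀ i, M ≤ X i) →
    ({a : Fin l → ℕ | (∀ i, 1 ≤ a i ∧ a i ≤ X i) ∧
      Rel (Fin k ⊕ Fin l) d (Sum.elim x fun i => lam i + ((Real.log (a i : ℝ) : ℝ) : ℂ))}.ncard :
        ℝ) ≤
      (C * Real.log (Real.log M) ^ m * Real.exp (-Real.log (Real.log M))) * ∏ i, (X i : ℝ) := by
  induction l generalizing d with
  | zero =>
    refine ⟨d, 1, 0, 0, one_pos, fun x hx lam _ M _ X _ => ?_⟩
    have h0 : {a : Fin 0 → ℕ | (∀ i, 1 ≤ a i ∧ a i ≤ X i) ∧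
        Rel (Fin k ⊕ Fin 0) d
          (Sum.elim x fun i => lam i + ((Real.log (a i : ℝ) : ℝ) : ℂ))} = ∅ := by
      rw [Set.eq_empty_iff_forall_notMem]
      rintro a ⟨-, ha⟩
      refine hx (rel_of_injective (Sum.elim id fun i : Fin 0 => i.elim0) ?_ ?_)
      · rintro (i | i) (j | j) h
        · simpa using h
        · exact j.elim0
        · exact i.elim0
        · exact i.elim0
      · convert ha using 1
        funext i
        rcases i with i | i
        · rfl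
        · exact i.elim0
    rw [h0]
    simp only [Set.ncard_empty, Nat.cast_zero]
    positivity
  | succ l ih =>
    obtain ⟨D1, C1, m1, X1, hC1, h1⟩ := oneT (k + l) d
    obtain ⟨D2, C2, m2, X2, hC2, h2⟩ := ih D1
    obtain ⟨X3, hX3⟩ := Filter.eventually_atTop.1 (tendsto_loglog.eventually
      (Filter.eventually_ge_atTop (max 1 (m1 : ℝ))))
    refine ⟨D2, C1 + C2, max m1 m2, max (max X1 X2) (max X3 3), by positivity,
      fun x hx lam hlam M hM X hX => ?_⟩
    have hM1 : X1 ≤ M := (le_max_left _ _).trans ((le_max_left _ _).trans hM)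
    have hM2 : X2 ≤ M := (le_max_right _ _).trans ((le_max_left _ _).trans hM)
    have hM3 : X3 ≤ M := (le_max_left _ _).trans ((le_max_right _ _).trans hM)
    have hM4 : 3 ≤ M := (le_max_right _ _).trans ((le_max_right _ _).trans hM)
    set y : ℝ := Real.log (Real.log M) with hy
    have hy2 : max 1 (m1 : ℝ) ≤ y := hX3 M hM3
    have hy1 : 1 ≤ y := (le_max_left _ _).trans hy2
    have hym : (m1 : ℝ) ≤ y := (le_max_right _ _).trans hy2
    have hM5 : (3 : ℝ) ≤ M := by exact_mod_cast hM4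
    have hlogM : 1 < Real.log M := by
      rw [Real.lt_log_iff_exp_lt (by linarith)]
      linarith [Real.exp_one_lt_d9]
    have hstep := tuples_step k l d D1 x lam X (C1 * y ^ m1 * Real.exp (-y))
      (C2 * y ^ m2 * Real.exp (-y)) (by positivity)
      (fun z hz => by
        refine (h1 z hz (lam 0) (hlam 0) (X 0) (hM1.trans (hX 0))).trans ?_
        refine mul_le_mul_of_nonneg_right ?_ (Nat.cast_nonneg _)
        have h3 : y ≤ Real.log (Real.log (X 0)) := by
          have h4 : (M : ℝ) ≤ X 0 := by exact_mod_cast hX 0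
          exact Real.log_le_log (by linarith) (Real.log_le_log (by linarith) h4)
        have h5 := pow_exp_anti hym (by linarith) h3
        calc C1 * Real.log (Real.log (X 0)) ^ m1 * Real.exp (-Real.log (Real.log (X 0))) =
            C1 * (Real.log (Real.log (X 0)) ^ m1 * Real.exp (-Real.log (Real.log (X 0)))) := by
              ring
          _ ≤ C1 * (y ^ m1 * Real.exp (-y)) := mul_le_mul_of_nonneg_left h5 hC1.le
          _ = _ := by ring)
      (h2 x hx (fun i => lam i.succ) (fun i => hlam _) M hM2 (fun i => X i.succ) fun i => hX _)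
    refine hstep.trans (mul_le_mul_of_nonneg_right ?_ (by positivity))
    have h6 : y ^ m1 ≤ y ^ max m1 m2 := pow_le_pow_right₀ hy1 (le_max_left _ _)
    have h7 : y ^ m2 ≤ y ^ max m1 m2 := pow_le_pow_right₀ hy1 (le_max_right _ _)
    calc C1 * y ^ m1 * Real.exp (-y) + C2 * y ^ m2 * Real.exp (-y) ≤
        C1 * y ^ max m1 m2 * Real.exp (-y) + C2 * y ^ max m1 m2 * Real.exp (-y) := by
          gcongr
      _ = _ := by ring

end Pool.Agent.QDen
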