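import Mathlib
import Pool.Agent.QDen.Gen
import Pool.Agent.QDen.Mert

/-!
# Rankin's bound for the number of prime divisors in a given set of primes
-/

set_option autoImplicit false

open Finset

namespace Pool.Agent.QDen

theorem Rank_wG_mul {p : ℕ → ℕ} (hp : ∀ i, (p i).Prime) (n : ℕ) {a b : ℕ} (h : a.Coprime b) :
    wG p n (a * b) = wG p n a + wG p n b := by
  unfold wG
  rw [← card_union_of_disjoint]
  · congr 1
    ext i
    simp only [mem_filter, mem_union, (hp _).dvd_mul]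
    tauto
  · rw [disjoint_left]
    intro i h1 h2
    have h3 := Nat.dvd_gcd (mem_filter.1 h1).2 (mem_filter.1 h2).2
    rw [Nat.Coprime] at h
    rw [h] at h3
    exact (hp i).one_lt.ne' (Nat.dvd_one.1 h3)

theorem Rank_wG_le (p : ℕ → ℕ) (n : ℕ) {a b : ℕ} (h : a ∣ b) : wG p n a ≤ wG p n b := by
  unfold wG
  refine card_le_card fun i hi => ?_
  rw [mem_filter] at hi ⊢
  exact ⟨hi.1, hi.2.trans h⟩

theorem Rank_wG_one {p : ℕ → ℕ} (hp : ∀ i, (p i).Prime) (n : ℕ) : wG p n 1 = 0 := by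
  unfold wG
  rw [card_eq_zero, filter_eq_empty_iff]
  intro i _ h
  exact (hp i).one_lt.ne' (Nat.dvd_one.1 h)

theorem Rank_wG_pow {p : ℕ → ℕ} (hp : ∀ i, (p i).Prime) (n q : ℕ) {k : ℕ} (hk : k ≠ 0) :
    wG p n (q ^ k) = wG p n q := by
  unfold wG
  congr 1
  ext i
  rw [mem_filter, mem_filter, (hp i).prime.dvd_pow_iff_dvd hk]

theorem Rank_wG_prime {p : ℕ → ℕ} (hp : ∀ i, (p i).Prime) (hm : StrictMono p) (n : ℕ) {q : ℕ}
    (hq : q.Prime) (y : ℝ) :
    y ^ wG p n q = 1 - (1 - y) * (if q ∈ (range n).image p then 1 else 0) := by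
  split_ifs with h
  · obtain ⟨i, hi, rfl⟩ := mem_image.1 h
    have h1 : wG p n (p i) = 1 := by
      unfold wG
      rw [card_eq_one]
      refine ⟨i, ?_⟩
      ext j
      rw [mem_filter, mem_singleton, (Nat.prime_dvd_prime_iff_eq (hp j) hq)]
      constructor
      · rintro ⟨-, h⟩
        exact hm.injective h
      · rintro rfl
        exact ⟨hi, rfl⟩
    rw [h1]
    ring
  · have h1 : wG p n q = 0 := by
      unfold wG
      rw [card_eq_zero, filter_eq_empty_iff]
      intro i hi h2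
      rw [(Nat.prime_dvd_prime_iff_eq (hp i) hq)] at h2
      exact h (mem_image.2 ⟨i, hi, h2⟩)
    rw [h1]
    ring

/-- sums of a submultiplicative function against the logarithm -/
theorem Rank_log (f : ℕ → ℝ) (hf : ∀ a, 0 ≤ f a) (hd : ∀ a b, a ∣ b → f b ≤ f a) {X : ℕ}
    (hX : 1 ≤ X) :
    Real.log X * ∑ a ∈ Icc 1 X, f a ≤ 7 * X * ∑ m ∈ Icc 1 X, f m / m := by
  have hX0 : (1 : ℝ) ≤ X := by exact_mod_cast hX
  -- the sum with log a
  have h1 : ∑ a ∈ Icc 1 X, f a * Real.log a ≤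
      ∑ m ∈ Icc 1 X, f m * ∑ a ∈ (Icc 1 X).filter (m ∣ ·), ArithmeticFunction.vonMangoldt (a / m) := by
    have e : ∀ a ∈ Icc 1 X, f a * Real.log a ≤ ∑ m ∈ Icc 1 X,
        if m ∣ a then f m * ArithmeticFunction.vonMangoldt (a / m) else 0 := by
      intro a ha
      rw [mem_Icc] at ha
      rw [← ArithmeticFunction.vonMangoldt_sum, ← Nat.sum_div_divisors a
        (fun i => ArithmeticFunction.vonMangoldt i), mul_sum, ← sum_filter]
      have e2 : a.divisors = (Icc 1 X).filter (· ∣ a) := by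
        ext m
        rw [Nat.mem_divisors, mem_filter, mem_Icc]
        constructor
        · rintro ⟨h1, h2⟩
          have h3 := Nat.le_of_dvd (by omega) h1
          have h4 := Nat.pos_of_dvd_of_pos h1 (by omega)
          exact ⟨⟨h4, by omega⟩, h1⟩
        · rintro ⟨h1, h2⟩
          exact ⟨h2, by omega⟩
      rw [e2]
      refine sum_le_sum fun m hm' => ?_
      exact mul_le_mul_of_nonneg_right (hd m a (mem_filter.1 hm').2)
        ArithmeticFunction.vonMangoldt_nonneg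
    refine (sum_le_sum e).trans (le_of_eq ?_)
    rw [sum_comm]
    refine sum_congr rfl fun m _ => ?_
    rw [mul_sum, sum_filter]
  have h2 : ∀ m ∈ Icc 1 X, ∑ a ∈ (Icc 1 X).filter (m ∣ ·), ArithmeticFunction.vonMangoldt (a / m) ≤
      (Real.log 4 + 4) * (X / m) := by
    intro m hm'
    rw [mem_Icc] at hm'
    have hm0 : 0 < m := by omega
    refine le_trans ?_ (Chebyshev.psi_le_const_mul_self (x := (X : ℝ) / m) (by positivity))
    rw [Chebyshev.psi, Nat.floor_div_eq_div]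
    have e : ∑ a ∈ (Icc 1 X).filter (m ∣ ·), ArithmeticFunction.vonMangoldt (a / m) =
        ∑ e ∈ ((Icc 1 X).filter (m ∣ ·)).image (· / m), ArithmeticFunction.vonMangoldt e := by
      rw [sum_image]
      intro a ha b hb hab
      have ha' := (mem_filter.1 (mem_coe.1 ha)).2
      have hb' := (mem_filter.1 (mem_coe.1 hb)).2
      obtain ⟨c, rfl⟩ := ha'
      obtain ⟨d, rfl⟩ := hb'
      simp only [Nat.mul_div_cancel_left _ hm0] at hab
      rw [hab]
    rw [e]
    refine sum_le_sum_of_subset_of_nonneg (fun e he => ?_) fun e _ _ =>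
      ArithmeticFunction.vonMangoldt_nonneg
    obtain ⟨a, ha, rfl⟩ := mem_image.1 he
    rw [mem_filter, mem_Icc] at ha
    rw [mem_Ioc]
    exact ⟨Nat.div_pos (Nat.le_of_dvd (by omega) ha.2) hm0, Nat.div_le_div_right ha.1.2⟩
  have hlog4 : Real.log 4 ≤ 2 := by
    have h := Real.log_two_lt_d9
    have e : Real.log 4 = 2 * Real.log 2 := by
      rw [show (4 : ℝ) = 2 ^ 2 by norm_num, Real.log_pow]
      norm_num
    linarith
  have h3 : ∑ a ∈ Icc 1 X, f a * Real.log a ≤ 6 * X * ∑ m ∈ Icc 1 X, f m / m := by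
    refine h1.trans ?_
    rw [mul_sum]
    refine sum_le_sum fun m hm' => ?_
    rw [mem_Icc] at hm'
    have hm0 : (0 : ℝ) < m := by exact_mod_cast (by omega : 0 < m)
    refine (mul_le_mul_of_nonneg_left (h2 m (mem_Icc.2 hm')) (hf m)).trans ?_
    have h4 : f m * ((Real.log 4 + 4) * (X / m)) = (Real.log 4 + 4) * (X * (f m / m)) := by
      ring
    have h5 : 0 ≤ X * (f m / m) := mul_nonneg (by linarith) (div_nonneg (hf m) hm0.le)
    rw [h4]
    nlinarith
  have h4 : ∑ a ∈ Icc 1 X, f a * (Real.log X - Real.log a) ≤ X * ∑ m ∈ Icc 1 X, f m / m := by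
    rw [mul_sum]
    refine sum_le_sum fun m hm' => ?_
    rw [mem_Icc] at hm'
    have hm0 : (0 : ℝ) < m := by exact_mod_cast (by omega : 0 < m)
    have h5 : Real.log X - Real.log m ≤ X / m := by
      rw [← Real.log_div (by linarith) hm0.ne']
      have := Real.log_le_sub_one_of_pos (x := (X : ℝ) / m) (by positivity)
      linarith
    calc f m * (Real.log X - Real.log m) ≤ f m * (X / m) := mul_le_mul_of_nonneg_left h5 (hf m)
      _ = X * (f m / m) := by ring
  have h5 : Real.log X * ∑ a ∈ Icc 1 X, f a = ∑ a ∈ Icc 1 X, f a * (Real.log X - Real.log a) +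
      ∑ a ∈ Icc 1 X, f a * Real.log a := by
    rw [← sum_add_distrib, mul_sum]
    refine sum_congr rfl fun a _ => ?_
    ring
  rw [h5]
  linarith

/-- a sum over `m ≤ X` is at most the Euler product over the primes `≤ X` -/
theorem Rank_euler (g : ℕ → ℝ) (hg : ∀ a, 0 ≤ g a) (h1 : g 1 = 1)
    (hmul : ∀ {m n : ℕ}, Nat.Coprime m n → g (m * n) = g m * g n) (F : ℕ → ℝ)
    (hF : ∀ q : ℕ, q.Prime → HasSum (fun k : ℕ => g (q ^ k)) (F q)) (X : ℕ) :
    ∑ m ∈ Icc 1 X, g m ≤ ∏ q ∈ (X + 1).primesBelow, F q := by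
  have hs : ∀ {q : ℕ}, q.Prime → Summable (fun n : ℕ => ‖g (q ^ n)‖) := by
    intro q hq
    have e : (fun n : ℕ => ‖g (q ^ n)‖) = fun n : ℕ => g (q ^ n) := by
      ext n
      exact Real.norm_of_nonneg (hg _)
    rw [e]
    exact (hF q hq).summable
  have h2 := (EulerProduct.summable_and_hasSum_smoothNumbers_prod_primesBelow_tsum h1 hmul hs (X + 1)).2
  have h3 : ∏ q ∈ (X + 1).primesBelow, ∑' n : ℕ, g (q ^ n) = ∏ q ∈ (X + 1).primesBelow, F q :=
    prod_congr rfl fun q hq => (hF q (Nat.prime_of_mem_primesBelow hq)).tsum_eq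
  rw [h3] at h2
  have hsm : ∀ m ∈ Icc 1 X, m ∈ (X + 1).smoothNumbers := by
    intro m hm'
    rw [mem_Icc] at hm'
    rw [Nat.mem_smoothNumbers']
    intro q hq hqm
    have := Nat.le_of_dvd (by omega) hqm
    omega
  have e : ∑ m ∈ Icc 1 X, g m =
      ∑ m ∈ (Icc 1 X).attach.image (fun m => (⟨m.1, hsm m.1 m.2⟩ : (X + 1).smoothNumbers)), g m.1 := by
    rw [sum_image, ← sum_attach (Icc 1 X) g]
    intro a _ b _ hab
    exact Subtype.ext (congrArg (fun z => z.1) hab)
  rw [e]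
  exact sum_le_hasSum _ (fun m _ => hg m.1) h2

theorem Rank_tele (X : ℕ) : ∑ q ∈ (X + 1).primesBelow, 1 / ((q : ℝ) * ((q : ℝ) - 1)) ≤ 1 := by
  have h1 : ∀ n : ℕ, ∑ q ∈ Ico 2 (n + 2), 1 / ((q : ℝ) * ((q : ℝ) - 1)) = 1 - 1 / ((n : ℝ) + 1) := by
    intro n
    induction n with
    | zero => simp
    | succ n ih =>
      rw [sum_Ico_succ_top (by omega), ih]
      push_cast
      have h0 : ((n : ℝ) + 1) ≠ 0 := by positivity
      have h2 : ((n : ℝ) + 2) ≠ 0 := by positivity
      have h3 : ((n : ℝ) + 2 - 1) ≠ 0 := by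
        have : ((n : ℝ) + 2 - 1) = (n : ℝ) + 1 := by ring
        rw [this]
        exact h0
      have h4 : ((n : ℝ) + 1 + 1) ≠ 0 := by positivity
      field_simp
      ring
  have h2 : ∑ q ∈ (X + 1).primesBelow, 1 / ((q : ℝ) * ((q : ℝ) - 1)) ≤
      ∑ q ∈ Ico 2 (X + 2), 1 / ((q : ℝ) * ((q : ℝ) - 1)) := by
    refine sum_le_sum_of_subset_of_nonneg (fun q hq => ?_) fun q hq _ => ?_
    · rw [Nat.mem_primesBelow] at hq
      rw [mem_Ico]
      exact ⟨hq.2.two_le, by omega⟩
    · rw [mem_Ico] at hq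
      have h3 : (2 : ℝ) ≤ q := by exact_mod_cast hq.1
      have h4 : 0 < (q : ℝ) * ((q : ℝ) - 1) := mul_pos (by linarith) (by linarith)
      positivity
  rw [h1] at h2
  have h3 : 0 ≤ 1 / ((X : ℝ) + 1) := by positivity
  linarith

/-- the Euler factor -/
theorem Rank_factor {c : ℝ} {q : ℕ} (hq : q.Prime) (g : ℕ → ℝ) (h1 : g 1 = 1)
    (hg : ∀ k : ℕ, k ≠ 0 → g (q ^ k) = c / (q : ℝ) ^ k) :
    HasSum (fun k : ℕ => g (q ^ k)) (1 + c / ((q : ℝ) - 1)) := by
  have hq2 : (2 : ℝ) ≤ q := by exact_mod_cast hq.two_le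
  have h2 : HasSum (fun k : ℕ => ((q : ℝ)⁻¹) ^ k) ((1 - (q : ℝ)⁻¹)⁻¹) :=
    hasSum_geometric_of_lt_one (by positivity) (by
      rw [inv_lt_one_iff₀]
      right
      linarith)
  have h3 := (h2.mul_left (c / q))
  have h4 : HasSum (fun k : ℕ => g (q ^ (k + 1))) (c / q * (1 - (q : ℝ)⁻¹)⁻¹) := by
    have e : (fun k : ℕ => g (q ^ (k + 1))) = fun k : ℕ => c / q * ((q : ℝ)⁻¹) ^ k := by
      ext k
      rw [hg (k + 1) (by omega), pow_succ, inv_pow]
      field_simp
    rw [e]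
    exact h3
  have h5 : HasSum (fun k : ℕ => g (q ^ k)) (g (q ^ 0) + c / q * (1 - (q : ℝ)⁻¹)⁻¹) :=
    h4.zero_add
  have e : g (q ^ 0) + c / q * (1 - (q : ℝ)⁻¹)⁻¹ = 1 + c / ((q : ℝ) - 1) := by
    rw [pow_zero, h1]
    have hq0 : (q : ℝ) ≠ 0 := by positivity
    have hq1 : (q : ℝ) - 1 ≠ 0 := by linarith
    have h6 : 1 - (q : ℝ)⁻¹ = ((q : ℝ) - 1) / q := by field_simp
    rw [h6, inv_div]
    field_simp
  rw [← e]
  exact h5

theorem rankin : ∃ C : ℝ, 0 < C ∧ ∀ p : ℕ → ℕ, (∀ i, (p i).Prime) → StrictMono p →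
    ∀ n X : ℕ, 3 ≤ X → (∀ i < n, p i ≤ X) → ∀ y : ℝ, 0 < y → y ≤ 1 →
      ∑ a ∈ Finset.Icc 1 X, y ^ wG p n a ≤ C * X * Real.exp (-(1 - y) * LG p n) := by
  refine ⟨7 * Real.exp 5, by positivity, fun p hp hm n X hX hpX y hy0 hy1 => ?_⟩
  have hX0 : (3 : ℝ) ≤ X := by exact_mod_cast hX
  have hlog : 0 < Real.log X := Real.log_pos (by linarith)
  -- the Euler product
  set g : ℕ → ℝ := fun a => y ^ wG p n a / a with hgdef
  have hg0 : ∀ a, 0 ≤ g a := fun a => by
    rw [hgdef]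
    positivity
  have hg1 : g 1 = 1 := by
    simp only [hgdef, Rank_wG_one hp]
    norm_num
  have hgm : ∀ {a b : ℕ}, Nat.Coprime a b → g (a * b) = g a * g b := by
    intro a b hab
    simp only [hgdef, Rank_wG_mul hp n hab, pow_add]
    push_cast
    rw [mul_div_mul_comm]
  set F : ℕ → ℝ := fun q => 1 + y ^ wG p n q / ((q : ℝ) - 1) with hFdef
  have hF : ∀ q : ℕ, q.Prime → HasSum (fun k : ℕ => g (q ^ k)) (F q) := by
    intro q hq
    refine Rank_factor hq g hg1 fun k hk => ?_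
    simp only [hgdef, Rank_wG_pow hp n q hk]
    push_cast
    rfl
  have h1 := Rank_euler g hg0 hg1 hgm F hF X
  -- bound of the product
  have h2 : ∏ q ∈ (X + 1).primesBelow, F q ≤
      Real.exp (∑ q ∈ (X + 1).primesBelow, (y ^ wG p n q / q + 1 / ((q : ℝ) * ((q : ℝ) - 1)))) := by
    rw [Real.exp_sum]
    refine prod_le_prod (fun q hq => ?_) fun q hq => ?_
    · have hq2 : (2 : ℝ) ≤ q := by exact_mod_cast (Nat.prime_of_mem_primesBelow hq).two_le
      have : 0 ≤ y ^ wG p n q / ((q : ℝ) - 1) := div_nonneg (by positivity) (by linarith)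
      simp only [hFdef]
      linarith
    · have hq2 : (2 : ℝ) ≤ q := by exact_mod_cast (Nat.prime_of_mem_primesBelow hq).two_le
      have h3 := Real.add_one_le_exp (y ^ wG p n q / ((q : ℝ) - 1))
      have h4 : y ^ wG p n q / ((q : ℝ) - 1) ≤ y ^ wG p n q / q + 1 / ((q : ℝ) * ((q : ℝ) - 1)) := by
        have h5 : y ^ wG p n q / ((q : ℝ) - 1) =
            y ^ wG p n q / q + y ^ wG p n q * (1 / ((q : ℝ) * ((q : ℝ) - 1))) := by
          have hq0 : (q : ℝ) ≠ 0 := by positivity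
          have hq1 : (q : ℝ) - 1 ≠ 0 := by linarith
          field_simp
          ring
        have h6 : y ^ wG p n q ≤ 1 := pow_le_one₀ hy0.le hy1
        have h7 : 0 ≤ 1 / ((q : ℝ) * ((q : ℝ) - 1)) :=
          one_div_nonneg.2 (mul_nonneg (by linarith) (by linarith))
        rw [h5]
        nlinarith
      have h8 := Real.exp_le_exp.2 h4
      simp only [hFdef]
      linarith
  have h3 : ∑ q ∈ (X + 1).primesBelow, (y ^ wG p n q / q + 1 / ((q : ℝ) * ((q : ℝ) - 1))) ≤
      Real.log (Real.log X) + 5 + -(1 - y) * LG p n := by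
    rw [sum_add_distrib]
    have h4 := Rank_tele X
    have h5 : ∑ q ∈ (X + 1).primesBelow, y ^ wG p n q / (q : ℝ) =
        ∑ q ∈ (X + 1).primesBelow, 1 / (q : ℝ) - (1 - y) * LG p n := by
      have h6 : LG p n = ∑ q ∈ (X + 1).primesBelow,
          if q ∈ (range n).image p then 1 / (q : ℝ) else 0 := by
        rw [← sum_filter, LG]
        have h7 : (X + 1).primesBelow.filter (fun q => q ∈ (range n).image p) =
            (range n).image p := by
          ext q
          rw [mem_filter]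
          constructor
          · exact fun h => h.2
          · intro h
            refine ⟨?_, h⟩
            obtain ⟨i, hi, rfl⟩ := mem_image.1 h
            rw [Nat.mem_primesBelow]
            exact ⟨Nat.lt_succ_of_le (hpX i (mem_range.1 hi)), hp i⟩
        rw [h7, sum_image]
        exact fun a _ b _ h => hm.injective h
      rw [h6, mul_sum, ← sum_sub_distrib]
      refine sum_congr rfl fun q hq => ?_
      rw [Rank_wG_prime hp hm n (Nat.prime_of_mem_primesBelow hq) y]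
      split_ifs
      · ring
      · ring
    have h6 := PnPoly.NC.sum_inv_le X (by omega)
    have h7 : HL26.PPy X = (X + 1).primesBelow := by
      unfold HL26.PPy
      rfl
    rw [h7] at h6
    rw [h5]
    linarith
  have h4 : ∑ m ∈ Icc 1 X, g m ≤ Real.log X * (Real.exp 5 * Real.exp (-(1 - y) * LG p n)) := by
    refine h1.trans (h2.trans ((Real.exp_le_exp.2 h3).trans (le_of_eq ?_)))
    rw [Real.exp_add, Real.exp_add, Real.exp_log hlog]
    ring
  have h5 := Rank_log (fun a => y ^ wG p n a) (fun a => by positivity)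
    (fun a b hab => pow_le_pow_of_le_one hy0.le hy1 (Rank_wG_le p n hab)) (X := X) (by omega)
  have h6 : Real.log X * ∑ a ∈ Icc 1 X, y ^ wG p n a ≤
      Real.log X * (7 * Real.exp 5 * X * Real.exp (-(1 - y) * LG p n)) := by
    refine h5.trans ?_
    have h7 : 7 * (X : ℝ) * ∑ m ∈ Icc 1 X, g m ≤
        7 * X * (Real.log X * (Real.exp 5 * Real.exp (-(1 - y) * LG p n))) :=
      mul_le_mul_of_nonneg_left h4 (by positivity)
    refine h7.trans (le_of_eq ?_)
    ring
  exact le_of_mul_le_mul_left h6 hlog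

end Pool.Agent.QDen
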