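import Pool.Agent.QDen.GenS
import Pool.Agent.QDen.Grow

set_option autoImplicit false

/-! # The sum of the reciprocals of the primes with index between `r` and `√X` -/

namespace Pool.Agent.QDen

open Filter

/-- there are at least `2 √X` primes `≤ X` -/
theorem sqrt_le_pi : ∀ᶠ X : ℕ in atTop, 2 * Nat.sqrt X ≤ Nat.primeCounting X := by
  have h1 : ∀ᶠ x : ℝ in atTop, 32 * Real.log x ≤ Real.sqrt x := by
    have h2 := (isLittleO_log_rpow_atTop (r := 1 / 2) (by norm_num)).bound
      (show (0 : ℝ) < 1 / 32 by norm_num)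
    filter_upwards [h2, eventually_ge_atTop (1 : ℝ)] with x hx hx1
    rw [Real.norm_of_nonneg (Real.log_nonneg hx1), Real.norm_of_nonneg (by positivity),
      ← Real.sqrt_eq_rpow] at hx
    linarith
  filter_upwards [tendsto_natCast_atTop_atTop.eventually h1, eventually_ge_atTop 100] with X hX hX1
  have hX2 : (100 : ℝ) ≤ X := by exact_mod_cast hX1
  have hlog : 0 < Real.log X := Real.log_pos (by linarith)
  set s : ℝ := Real.sqrt X with hs
  have hss : s * s = X := Real.mul_self_sqrt (by linarith)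
  have hs0 : 0 < s := Real.sqrt_pos.2 (by linarith)
  have hs10 : 10 ≤ s := by
    rw [hs]
    exact Real.le_sqrt_of_sq_le (by linarith)
  have h3 : (X : ℝ) * Real.log 2 - Real.log (X + 1) ≤ Chebyshev.psi X := by
    exact Chebyshev.psi_ge X
  have h4 : Chebyshev.psi X ≤ (Nat.primeCounting X : ℝ) * Real.log X :=
    Chebyshev.psi_le_primeCounting_mul_log X
  have h5 : Real.log (X + 1) ≤ 2 * Real.log X := by
    have : Real.log ((X : ℝ) + 1) ≤ Real.log ((X : ℝ) ^ 2) :=
      Real.log_le_log (by linarith) (by nlinarith)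
    rw [Real.log_pow] at this
    push_cast at this
    exact this
  have h6 : (1 : ℝ) / 2 ≤ Real.log 2 := by
    have := Real.log_two_gt_d9
    linarith
  have h7 : 2 * s * Real.log X ≤ (Nat.primeCounting X : ℝ) * Real.log X := by
    have h8 : (X : ℝ) / 2 ≤ X * Real.log 2 := by nlinarith
    have h9 : 2 * s * Real.log X ≤ X / 16 := by nlinarith
    have h10 : 2 * Real.log X ≤ X / 16 := by nlinarith
    linarith
  have h8 : 2 * s ≤ Nat.primeCounting X := le_of_mul_le_mul_right h7 hlog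
  have h9 : (Nat.sqrt X : ℝ) ≤ s := by
    rw [hs]
    exact Real.nat_sqrt_le_real_sqrt
  have h10 : ((2 * Nat.sqrt X : ℕ) : ℝ) ≤ (Nat.primeCounting X : ℝ) := by
    push_cast
    linarith
  exact_mod_cast h10

theorem q_le_of_lt {j X : ℕ} (h : j < Nat.primeCounting X) : q j ≤ X := by
  have h1 : q j < X + 1 := Nat.nth_lt_of_lt_count (p := Nat.Prime) h
  omega

theorem S_params (k : ℕ) (C : ℝ) : ∀ᶠ X : ℕ in atTop, ∀ y : ℝ, y = Real.log (Real.log X) →
      1 ≤ y ∧ C ≤ y ∧ 1 + Real.log 2 + 2 * C + Real.log 2 + (k + 1) * Real.log y ≤ y ∧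
      4 * y ^ (k + 1) ≤ Real.log X ∧ 4 ≤ (X : ℝ) := by
  have hev : ∀ᶠ y : ℝ in atTop, 1 ≤ y ∧ C ≤ y ∧
      1 + Real.log 2 + 2 * C + Real.log 2 + (k + 1) * Real.log y ≤ y ∧
      4 * y ^ (k + 1) ≤ Real.exp y := by
    have h1 : ∀ᶠ y : ℝ in atTop, ((k : ℝ) + 1) * Real.log y ≤ 1 / 2 * y := by
      have h2 : 0 < 1 / 2 / ((k : ℝ) + 1) := by positivity
      filter_upwards [Real.isLittleO_log_id_atTop.bound h2, eventually_ge_atTop (1 : ℝ)]
        with y hy hy1
      rw [Real.norm_of_nonneg (Real.log_nonneg hy1), id, Real.norm_of_nonneg (by linarith)] at hy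
      have hk : (0 : ℝ) < (k : ℝ) + 1 := by positivity
      calc ((k : ℝ) + 1) * Real.log y ≤ ((k : ℝ) + 1) * (1 / 2 / ((k : ℝ) + 1) * y) :=
            mul_le_mul_of_nonneg_left hy hk.le
        _ = 1 / 2 * y := by field_simp
    have h3 : ∀ᶠ y : ℝ in atTop, 4 * y ^ (k + 1) ≤ Real.exp y := by
      have h4 := (Real.isLittleO_pow_exp_atTop (n := k + 1)).bound (show (0 : ℝ) < 1 / 4 by norm_num)
      filter_upwards [h4, eventually_ge_atTop (0 : ℝ)] with y hy hy0
      rw [Real.norm_of_nonneg (by positivity), Real.norm_of_nonneg (Real.exp_pos _).le] at hy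
      linarith
    filter_upwards [h1, h3, eventually_ge_atTop (1 : ℝ), eventually_ge_atTop C,
      eventually_ge_atTop (2 * (1 + Real.log 2 + 2 * C + Real.log 2))] with y a1 a2 a3 a4 a5
    exact ⟨a3, a4, by linarith, a2⟩
  have hX := tendsto_loglog.eventually hev
  filter_upwards [hX, eventually_ge_atTop 100] with X hX1 hX2 y hy
  subst hy
  obtain ⟨b1, b2, b3, b4⟩ := hX1
  have hX3 : (100 : ℝ) ≤ X := by exact_mod_cast hX2
  have hl : 1 < Real.log X := by
    rw [Real.lt_log_iff_exp_lt (by linarith)]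
    linarith [Real.exp_one_lt_d9]
  rw [Real.exp_log (by linarith)] at b4
  exact ⟨b1, b2, b3, b4, by linarith⟩

theorem S_bounds (k : ℕ) : ∃ C1 : ℝ, 0 ≤ C1 ∧ ∀ᶠ X : ℕ in atTop, ∀ y : ℝ,
    y = Real.log (Real.log X) → 1 ≤ y ∧ 4 ≤ (X : ℝ) ∧ ∀ r : ℕ, 3 ≤ r →
      (r : ℝ) ≤ Real.exp (2 * y ^ (k + 1)) →
      y - (k + 1) * Real.log y - C1 ≤
          ∑ i ∈ Finset.range (Nat.sqrt X / r * r), 1 / (q (r + i) : ℝ) ∧
        ∑ i ∈ Finset.range (Nat.sqrt X / r * r), 1 / (q (r + i) : ℝ) ≤ 2 * y ∧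
        1 ≤ ∑ i ∈ Finset.range (Nat.sqrt X / r * r), 1 / (q (r + i) : ℝ) ∧
        ∀ i < Nat.sqrt X / r * r, q (r + i) ≤ X := by
  obtain ⟨C, hC, hM⟩ := L_mertens
  refine ⟨2 * Real.log 2 + 2 * C, by have := Real.log_nonneg (show (1 : ℝ) ≤ 2 by norm_num); positivity, ?_⟩
  filter_upwards [S_params k C, sqrt_le_pi] with X hX hpi y hy
  obtain ⟨h1, h2, h3, h4, h5⟩ := hX y hy
  refine ⟨h1, h5, fun r hr3' hrub => ?_⟩
  have hypos : 0 < y := by linarith
  have hXpos : (0 : ℝ) < X := by linarith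
  have hrpos : 0 < r := by omega
  have hr3 : (3 : ℝ) ≤ r := by exact_mod_cast hr3'
  set J : ℕ := Nat.sqrt X / r with hJ
  have hlogX : 0 < Real.log X := Real.log_pos (by linarith)
  have hrX : r ≤ Nat.sqrt X := by
    rw [Nat.le_sqrt]
    have h6 : (r : ℝ) * r ≤ X := by
      calc (r : ℝ) * r ≤ Real.exp (2 * y ^ (k + 1)) * Real.exp (2 * y ^ (k + 1)) :=
            mul_le_mul hrub hrub (by linarith) (Real.exp_pos _).le
        _ = Real.exp (4 * y ^ (k + 1)) := by rw [← Real.exp_add]; ring_nf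
        _ ≤ Real.exp (Real.log X) := Real.exp_le_exp.2 h4
        _ = X := Real.exp_log hXpos
    exact_mod_cast h6
  set S : ℝ := ∑ i ∈ Finset.range (J * r), 1 / (q (r + i) : ℝ) with hS
  have hSeq : S = L (r + J * r) - L r := L_shift r (J * r)
  have hJr : J * r ≤ Nat.sqrt X := Nat.div_mul_le_self _ _
  have hsq2 : (Nat.sqrt X : ℝ) ≤ X / 2 := by
    have h12 : Nat.sqrt X * Nat.sqrt X ≤ X := Nat.sqrt_le X
    have h13 : (Nat.sqrt X : ℝ) * Nat.sqrt X ≤ X := by exact_mod_cast h12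
    by_contra hcon
    push Not at hcon
    nlinarith
  have hge : Nat.sqrt X + 1 ≤ r + J * r := by
    have := Nat.lt_mul_div_succ (Nat.sqrt X) hrpos
    rw [← hJ] at this
    nlinarith
  have hhalf : Real.log X / 2 ≤ Real.log ((r + J * r : ℕ) : ℝ) := by
    have h12 : X < (Nat.sqrt X + 1) * (Nat.sqrt X + 1) := Nat.lt_succ_sqrt X
    have h13 : (X : ℝ) ≤ ((r + J * r : ℕ) : ℝ) ^ 2 := by
      have h14 : X ≤ (r + J * r) ^ 2 := by nlinarith
      exact_mod_cast h14
    have h14 := Real.log_le_log hXpos h13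
    rw [Real.log_pow] at h14
    push_cast at h14 ⊢
    linarith
  have hle : ((r + J * r : ℕ) : ℝ) ≤ X := by
    have h12 : ((J * r : ℕ) : ℝ) ≤ Nat.sqrt X := by exact_mod_cast hJr
    have h13 : (r : ℝ) ≤ Nat.sqrt X := by exact_mod_cast hrX
    push_cast at h12 ⊢
    linarith
  have hlow : y - Real.log 2 - C ≤ L (r + J * r) := by
    have h12 := (abs_le.1 (hM (r + J * r) (by omega))).1
    have h13 : y - Real.log 2 ≤ Real.log (Real.log ((r + J * r : ℕ) : ℝ)) := by
      rw [hy, ← Real.log_div hlogX.ne' (by norm_num)]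
      exact Real.log_le_log (by positivity) hhalf
    linarith
  have hupp : L (r + J * r) ≤ y + C := by
    have h12 := (abs_le.1 (hM (r + J * r) (by omega))).2
    have h13 : Real.log (Real.log ((r + J * r : ℕ) : ℝ)) ≤ y := by
      have h14 : (0 : ℝ) < Real.log ((r + J * r : ℕ) : ℝ) := by linarith
      rw [hy]
      exact Real.log_le_log h14 (Real.log_le_log (by
        have : 0 < r + J * r := by omega
        exact_mod_cast this) hle)
    linarith
  have hLr : L r ≤ Real.log 2 + (k + 1) * Real.log y + C := by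
    have h12 := (abs_le.1 (hM r hr3')).2
    have h13 : Real.log (Real.log (r : ℝ)) ≤ Real.log 2 + (k + 1) * Real.log y := by
      have h14 : Real.log (r : ℝ) ≤ 2 * y ^ (k + 1) := by
        rw [Real.log_le_iff_le_exp (by linarith)]
        exact hrub
      have h15 : 0 < Real.log (r : ℝ) := Real.log_pos (by linarith)
      have h16 := Real.log_le_log h15 h14
      rw [Real.log_mul (by norm_num) (pow_pos hypos _).ne', Real.log_pow] at h16
      push_cast at h16
      linarith
    linarith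
  have hL0 : 0 ≤ L r := L_nonneg r
  refine ⟨by rw [hSeq]; linarith, by rw [hSeq]; linarith, by rw [hSeq]; linarith, ?_⟩
  intro i hi
  exact q_le_of_lt (by omega)

end Pool.Agent.QDen
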