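import Pool.Agent.QDen.Ind
import Pool.Agent.QDen.OneS

set_option autoImplicit false

/-!
# Tuples of positive integers: the exceptional set has size `O(X_1 ⋯ X_l / (log X) ^ (1 - ε))`
-/

namespace Pool.Agent.QDen

open Classical in
/-- the induction step -/
theorem tuples_step (k l d D1 : ℕ) (x : Fin k → ℂ) (lam : Fin (l + 1) → ℂ) (X : Fin (l + 1) → ℕ)
    (δ δ' : ℝ) (hδ : 0 ≤ δ)
    (h1 : ∀ z : Fin (k + l) → ℂ, ¬ Rel (Fin (k + l)) D1 z →
      ({a : ℕ | (1 ≤ a ∧ a ≤ X 0) ∧
        Rel (Fin (k + l + 1)) d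
          (Fin.cons (lam 0 + ((Real.log (a : ℝ) : ℝ) : ℂ)) z)}.ncard : ℝ) ≤ δ * X 0)
    (hb : ({a : Fin l → ℕ | (∀ i, 1 ≤ a i ∧ a i ≤ X i.succ) ∧
      Rel (Fin k ⊕ Fin l) D1
        (Sum.elim x fun i => lam i.succ + ((Real.log (a i : ℝ) : ℝ) : ℂ))}.ncard : ℝ) ≤
      δ' * ∏ i : Fin l, (X i.succ : ℝ)) :
    ({a : Fin (l + 1) → ℕ | (∀ i, 1 ≤ a i ∧ a i ≤ X i) ∧
      Rel (Fin k ⊕ Fin (l + 1)) d
        (Sum.elim x fun i => lam i + ((Real.log (a i : ℝ) : ℝ) : ℂ))}.ncard :
        ℝ) ≤ (δ + δ') * ∏ i, (X i : ℝ) := by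
  set X' : Fin l → ℕ := fun i => X i.succ with hX'
  rw [ncard_box X'] at hb
  rw [ncard_box X]
  set Bx' := Fintype.piFinset fun i => Finset.Icc 1 (X' i) with hBx'
  set Bd' := Bx'.filter fun a' => Rel (Fin k ⊕ Fin l) D1
    (Sum.elim x fun i => lam i.succ + ((Real.log (a' i : ℝ) : ℝ) : ℂ)) with hBd'
  set S := (Fintype.piFinset fun i => Finset.Icc 1 (X i)).filter fun a =>
    Rel (Fin k ⊕ Fin (l + 1)) d
        (Sum.elim x fun i => lam i + ((Real.log (a i : ℝ) : ℝ) : ℂ)) with hS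
  have hmem : ∀ a ∈ S, Fin.tail a ∈ Bx' := by
    intro a ha
    rw [hS, Finset.mem_filter, Fintype.mem_piFinset] at ha
    rw [hBx', Fintype.mem_piFinset]
    exact fun i => ha.1 i.succ
  have hcard : S.card = ∑ a' ∈ Bx', (S.filter fun a => Fin.tail a = a').card :=
    Finset.card_eq_sum_card_fiberwise hmem
  -- the fibres
  have hfib0 : ∀ a' : Fin l → ℕ, (S.filter fun a => Fin.tail a = a').card ≤
      ((Finset.Icc 1 (X 0)).filter fun a0 => Rel (Fin k ⊕ Fin (l + 1)) d (Sum.elim x fun i =>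
        lam i + ((Real.log (((Fin.cons a0 a' : Fin (l + 1) → ℕ) i : ℕ) : ℝ) : ℝ) : ℂ))).card := by
    intro a'
    refine Finset.card_le_card_of_injOn (fun a => a 0) ?_ ?_
    · intro a ha
      simp only [Finset.coe_filter, Set.mem_ofPred_eq] at ha
      obtain ⟨haS, rfl⟩ := ha
      rw [hS, Finset.mem_filter, Fintype.mem_piFinset] at haS
      simp only [Finset.coe_filter, Set.mem_ofPred_eq]
      refine ⟨haS.1 0, ?_⟩
      have h := haS.2
      rw [show a = (Fin.cons (a 0) (Fin.tail a) : Fin (l + 1) → ℕ) from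
        (Fin.cons_self_tail a).symm] at h
      exact h
    · intro a ha b hb hab
      simp only [Finset.coe_filter, Set.mem_ofPred_eq] at ha hb
      rw [← Fin.cons_self_tail a, ← Fin.cons_self_tail b, ha.2, hb.2]
      exact congrArg (fun t : ℕ => (Fin.cons t a' : Fin (l + 1) → ℕ)) hab
  have hfib1 : ∀ a' : Fin l → ℕ, ((S.filter fun a => Fin.tail a = a').card : ℝ) ≤ X 0 := by
    intro a'
    have h := (hfib0 a').trans (Finset.card_filter_le _ _)
    rw [Nat.card_Icc, Nat.add_sub_cancel] at h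
    exact_mod_cast h
  have hfib2 : ∀ a' ∈ Bx', a' ∉ Bd' →
      ((S.filter fun a => Fin.tail a = a').card : ℝ) ≤ δ * X 0 := by
    intro a' ha' hn
    have hnr : ¬ Rel (Fin k ⊕ Fin l) D1
        (Sum.elim x fun i => lam i.succ + ((Real.log (a' i : ℝ) : ℝ) : ℂ)) := fun h =>
      hn (by rw [hBd', Finset.mem_filter]; exact ⟨ha', h⟩)
    have hnr' : ¬ Rel (Fin (k + l)) D1
        ((Sum.elim x fun i => lam i.succ + ((Real.log (a' i : ℝ) : ℝ) : ℂ)) ∘ finSumFinEquiv.symm) :=
      fun h => hnr (rel_of_injective _ finSumFinEquiv.symm.injective h)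
    have h := h1 _ hnr'
    refine le_trans ?_ h
    have h3 : ((S.filter fun a => Fin.tail a = a').card) ≤
        ({a : ℕ | (1 ≤ a ∧ a ≤ X 0) ∧ Rel (Fin (k + l + 1)) d
          (Fin.cons (lam 0 + ((Real.log (a : ℝ) : ℝ) : ℂ))
            ((Sum.elim x fun i => lam i.succ + ((Real.log (a' i : ℝ) : ℝ) : ℂ)) ∘
              finSumFinEquiv.symm))}.ncard) := by
      refine (hfib0 a').trans ?_
      rw [← Set.ncard_coe_finset]
      refine Set.ncard_le_ncard ?_ ((Set.finite_Icc 1 (X 0)).subset fun a ha => ha.1)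
      intro a ha
      simp only [Finset.coe_filter, Set.mem_ofPred_eq, Finset.mem_Icc] at ha
      refine ⟨ha.1, ?_⟩
      refine rel_of_injective (reidx k l) ?_ ?_
      · exact reidx_injective k l
      · convert ha.2 using 1
        funext i
        rcases i with i | i
        · simp [reidx]
        · refine Fin.cases ?_ (fun i => ?_) i
          · simp [reidx]
          · simp [reidx]
    exact_mod_cast h3
  -- the sum
  have hprod : (∏ i, (X i : ℝ)) = X 0 * ∏ i, (X' i : ℝ) := Fin.prod_univ_succ _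
  have hBxc : (Bx'.card : ℝ) = ∏ i, (X' i : ℝ) := by
    rw [hBx', Fintype.card_piFinset]
    push_cast
    refine Finset.prod_congr rfl fun i _ => ?_
    rw [Nat.card_Icc, Nat.add_sub_cancel]
  have hX0 : (0 : ℝ) ≤ X 0 := Nat.cast_nonneg _
  calc (S.card : ℝ) = ∑ a' ∈ Bx', ((S.filter fun a => Fin.tail a = a').card : ℝ) := by
        rw [hcard]; push_cast; rfl
    _ ≤ ∑ a' ∈ Bx', ((if a' ∈ Bd' then (X 0 : ℝ) else 0) + δ * X 0) := by
        refine Finset.sum_le_sum fun a' ha' => ?_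
        by_cases h : a' ∈ Bd'
        · rw [if_pos h]
          have := hfib1 a'
          nlinarith
        · rw [if_neg h, zero_add]
          exact hfib2 a' ha' h
    _ = Bd'.card * X 0 + Bx'.card * (δ * X 0) := by
        rw [Finset.sum_add_distrib, ← Finset.sum_filter, Finset.sum_const, Finset.sum_const,
          nsmul_eq_mul, nsmul_eq_mul]
        congr 3
        rw [Finset.filter_mem_eq_inter]
        exact congrArg Finset.card (Finset.inter_eq_right.2 (Finset.filter_subset _ _))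
    _ ≤ (δ + δ') * ∏ i, (X i : ℝ) := by
        rw [hprod, hBxc]
        nlinarith

theorem tuplesS (k l d : ℕ) (ε : ℝ) (hε : 0 < ε) (hε1 : ε ≤ 1) : ∃ D X0 : ℕ, ∀ x : Fin k → ℂ,
    ¬ Rel (Fin k) D x → ∀ lam : Fin l → ℂ, (∀ i, IsAlgebraic ℚ (Complex.exp (lam i))) →
    ∀ M : ℕ, X0 ≤ M → ∀ X : Fin l → ℕ, (∀ i, M ≤ X i) →
    ({a : Fin l → ℕ | (∀ i, 1 ≤ a i ∧ a i ≤ X i) ∧
      Rel (Fin k ⊕ Fin l) d (Sum.elim x fun i => lam i + ((Real.log (a i : ℝ) : ℝ) : ℂ))}.ncard : ℝ) ≤
      Real.exp (-((1 - ε) * Real.log (Real.log M))) * ∏ i, (X i : ℝ) := by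
  induction l generalizing d ε with
  | zero =>
    refine ⟨d, 0, fun x hx lam _ M _ X _ => ?_⟩
    have h0 : {a : Fin 0 → ℕ | (∀ i, 1 ≤ a i ∧ a i ≤ X i) ∧
        Rel (Fin k ⊕ Fin 0) d (Sum.elim x fun i => lam i + ((Real.log (a i : ℝ) : ℝ) : ℂ))} = ∅ := by
      rw [Set.eq_empty_iff_forall_notMem]
      rintro a ⟨-, ha⟩
      refine hx (rel_of_injective (Sum.elim id fun i : Fin 0 => i.elim0) ?_ ?_)
      · rintro (i | i) (j | j) h
        · simpa using h
        · exact j.elim0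
        · exact i.elim0
        · exact i.elim0
      · convert ha using 1
        funext i
        rcases i with i | i
        · rfl
        · exact i.elim0
    rw [h0]
    simp only [Set.ncard_empty, Nat.cast_zero]
    positivity
  | succ l ih =>
    obtain ⟨D1, X1, h1⟩ := oneS (k + l) d (ε / 2) (half_pos hε) (by linarith)
    obtain ⟨D2, X2, h2⟩ := ih D1 (ε / 2) (half_pos hε) (by linarith)
    obtain ⟨X3, hX3⟩ := Filter.eventually_atTop.1 (tendsto_loglog.eventually
      (Filter.eventually_ge_atTop (2 * Real.log 2 / ε)))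
    refine ⟨D2, max (max X1 X2) (max X3 3), fun x hx lam hlam M hM X hX => ?_⟩
    have hM1 : X1 ≤ M := (le_max_left _ _).trans ((le_max_left _ _).trans hM)
    have hM2 : X2 ≤ M := (le_max_right _ _).trans ((le_max_left _ _).trans hM)
    have hM3 : X3 ≤ M := (le_max_left _ _).trans ((le_max_right _ _).trans hM)
    have hM4 : 3 ≤ M := (le_max_right _ _).trans ((le_max_right _ _).trans hM)
    set y : ℝ := Real.log (Real.log M) with hy
    have hy2 : 2 * Real.log 2 / ε ≤ y := hX3 M hM3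
    have hM5 : (3 : ℝ) ≤ M := by exact_mod_cast hM4
    have hlogM : 1 < Real.log M := by
      rw [Real.lt_log_iff_exp_lt (by linarith)]
      linarith [Real.exp_one_lt_d9]
    have hstep := tuples_step k l d D1 x lam X (Real.exp (-((1 - ε / 2) * y)))
      (Real.exp (-((1 - ε / 2) * y))) (Real.exp_pos _).le
      (fun z hz => by
        refine (h1 z hz (lam 0) (hlam 0) (X 0) (hM1.trans (hX 0))).trans ?_
        rw [mul_comm]
        refine mul_le_mul_of_nonneg_right (Real.exp_le_exp.2 ?_) (Nat.cast_nonneg _)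
        have h3 : y ≤ Real.log (Real.log (X 0)) := by
          have h4 : (M : ℝ) ≤ X 0 := by exact_mod_cast hX 0
          exact Real.log_le_log (by linarith) (Real.log_le_log (by linarith) h4)
        have h5 : (1 - ε / 2) * y ≤ (1 - ε / 2) * Real.log (Real.log (X 0)) :=
          mul_le_mul_of_nonneg_left h3 (by linarith)
        linarith)
      (h2 x hx (fun i => lam i.succ) (fun i => hlam _) M hM2 (fun i => X i.succ) fun i => hX _)
    refine hstep.trans (mul_le_mul_of_nonneg_right ?_ (by positivity))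
    rw [← two_mul]
    have h6 : (2 : ℝ) = Real.exp (Real.log 2) := (Real.exp_log (by norm_num)).symm
    nth_rewrite 1 [h6]
    rw [← Real.exp_add]
    refine Real.exp_le_exp.2 ?_
    rw [div_le_iff₀ hε] at hy2
    linarith

end Pool.Agent.QDen
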